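import Pool.Agent.TSO.Prod

set_option autoImplicit false

/-!
# Exponential form of the AM-GM step, uniform in the number of children (MP_d27362_co)

`∏ (1 - r_i + ξ_i) ≤ exp(W - ρ)`, `W = Σ ξ_i`, `ρ = Σ r_i`; and for `u ≤ w`
`exp u ≤ E (1 + u + c u²)` with `E = 1`, `c = (e^w - 1 - w)/w²`, or with
`E = exp(43/500 w²)`, `c = 18/25` (no bound on `w`).
-/

namespace Pool.Agent.TSO

open Finset Pool.Agent.TSP

variable {m : ℕ}

theorem hd_sq (x : ℝ) : HasDerivAt (fun x : ℝ => x ^ 2) (2 * x) x := by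
  simpa using hasDerivAt_pow 2 x

/-- `exp (u - 43/500 u²) ≤ 1 + u + 18/25 u²` for `u ≥ 0` -/
theorem exp_quad (u : ℝ) (hu : 0 ≤ u) :
    Real.exp (u - 43 / 500 * u ^ 2) ≤ 1 + u + 18 / 25 * u ^ 2 := by
  have hpos : ∀ x : ℝ, 0 ≤ x → 0 < 1 + x + 18 / 25 * x ^ 2 := by intro x hx; positivity
  -- `f x = log (1 + x + 18/25 x²) - x + 43/500 x²` is monotone on `[0, ∞)`
  have hd : ∀ x : ℝ, 0 ≤ x → HasDerivAt
      (fun x : ℝ => Real.log (1 + x + 18 / 25 * x ^ 2) - x + 43 / 500 * x ^ 2)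
      ((1 + 36 / 25 * x) / (1 + x + 18 / 25 * x ^ 2) - 1 + 43 / 250 * x) x := by
    intro x hx
    have h1 : HasDerivAt (fun x : ℝ => 1 + x + 18 / 25 * x ^ 2) (1 + 36 / 25 * x) x :=
      HasDerivAt.congr_deriv (((hasDerivAt_id' x).const_add 1).add ((hd_sq x).const_mul (18 / 25)))
        (by ring)
    have h2 := h1.log (hpos x hx).ne'
    have h3 : HasDerivAt (fun x : ℝ => 43 / 500 * x ^ 2) (43 / 250 * x) x :=
      HasDerivAt.congr_deriv ((hd_sq x).const_mul (43 / 500)) (by ring)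
    exact (h2.sub (hasDerivAt_id' x)).add h3
  have hmono : MonotoneOn (fun x : ℝ => Real.log (1 + x + 18 / 25 * x ^ 2) - x + 43 / 500 * x ^ 2)
      (Set.Ici 0) := by
    apply monotoneOn_of_deriv_nonneg (convex_Ici 0)
    · intro x hx
      exact (hd x hx).continuousAt.continuousWithinAt
    · intro x hx
      rw [interior_Ici] at hx
      exact (hd x (le_of_lt hx)).differentiableAt.differentiableWithinAt
    · intro x hx
      rw [interior_Ici] at hx
      have hx0 : (0 : ℝ) ≤ x := le_of_lt hx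
      rw [(hd x hx0).deriv]
      have hp := hpos x hx0
      have key : 0 ≤ (1 + 36 / 25 * x) - (1 + x + 18 / 25 * x ^ 2) +
          43 / 250 * x * (1 + x + 18 / 25 * x ^ 2) := by
        have e : (1 + 36 / 25 * x) - (1 + x + 18 / 25 * x ^ 2) +
          43 / 250 * x * (1 + x + 18 / 25 * x ^ 2) =
          x * (153 / 250 - 137 / 250 * x + 387 / 3125 * x ^ 2) := by ring
        rw [e]
        apply mul_nonneg hx0
        nlinarith [sq_nonneg (x - 137 / 250 * 3125 / (2 * 387))]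
      have : (1 + 36 / 25 * x) / (1 + x + 18 / 25 * x ^ 2) - 1 + 43 / 250 * x =
          ((1 + 36 / 25 * x) - (1 + x + 18 / 25 * x ^ 2) +
          43 / 250 * x * (1 + x + 18 / 25 * x ^ 2)) / (1 + x + 18 / 25 * x ^ 2) := by
        field_simp
      rw [this]
      exact div_nonneg key hp.le
  have h := hmono (Set.mem_Ici.2 le_rfl) (Set.mem_Ici.2 hu) hu
  have h0 : (0 : ℝ) ≤ Real.log (1 + u + 18 / 25 * u ^ 2) - u + 43 / 500 * u ^ 2 := by
    have e0 : Real.log (1 + (0 : ℝ) + 18 / 25 * 0 ^ 2) - 0 + 43 / 500 * 0 ^ 2 = 0 := by norm_num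
    have := h
    simp only at this
    linarith [e0]
  calc Real.exp (u - 43 / 500 * u ^ 2) ≤ Real.exp (Real.log (1 + u + 18 / 25 * u ^ 2)) := by
        apply Real.exp_le_exp.2; linarith
    _ = _ := Real.exp_log (hpos u hu)

/-- for `u ≤ 0`: `exp u ≤ 1 + u + u²/2` -/
theorem exp_le_neg (u : ℝ) (hu : u ≤ 0) : Real.exp u ≤ 1 + u + 1 / 2 * u ^ 2 := by
  have hd : ∀ x : ℝ, HasDerivAt (fun x : ℝ => 1 + x + 1 / 2 * x ^ 2 - Real.exp x)
      (1 + x - Real.exp x) x := by
    intro x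
    have h1 : HasDerivAt (fun x : ℝ => 1 + x + 1 / 2 * x ^ 2) (1 + x) x :=
      HasDerivAt.congr_deriv (((hasDerivAt_id' x).const_add 1).add ((hd_sq x).const_mul (1 / 2)))
        (by ring)
    exact h1.sub (Real.hasDerivAt_exp x)
  have hanti : AntitoneOn (fun x : ℝ => 1 + x + 1 / 2 * x ^ 2 - Real.exp x) (Set.Iic 0) := by
    apply antitoneOn_of_deriv_nonpos (convex_Iic 0)
    · intro x _
      exact (hd x).continuousAt.continuousWithinAt
    · intro x _
      exact (hd x).differentiableAt.differentiableWithinAt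
    · intro x _
      rw [(hd x).deriv]
      have := Real.add_one_le_exp x
      linarith
  have h := hanti (Set.mem_Iic.2 hu) (Set.mem_Iic.2 le_rfl) hu
  simp only at h
  rw [Real.exp_zero] at h
  linarith

/-- uniform quadratic bound: `exp u ≤ exp (43/500 w²) (1 + u + 18/25 u²)` for `u ≤ w` -/
theorem exp_le_E (u w : ℝ) (huw : u ≤ w) :
    Real.exp u ≤ Real.exp (43 / 500 * w ^ 2) * (1 + u + 18 / 25 * u ^ 2) := by
  have hq : 0 ≤ 1 + u + 18 / 25 * u ^ 2 := by nlinarith [sq_nonneg (36 / 25 * u + 1)]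
  rcases le_total u 0 with h0 | h0
  · have h1 := exp_le_neg u h0
    have h2 : Real.exp u ≤ 1 + u + 18 / 25 * u ^ 2 := by nlinarith [sq_nonneg u]
    have h3 : 1 ≤ Real.exp (43 / 500 * w ^ 2) := Real.one_le_exp (by positivity)
    calc Real.exp u ≤ 1 * (1 + u + 18 / 25 * u ^ 2) := by linarith
      _ ≤ _ := mul_le_mul_of_nonneg_right h3 hq
  · have h1 := exp_quad u h0
    have h2 : u ^ 2 ≤ w ^ 2 := pow_le_pow_left₀ h0 huw 2
    calc Real.exp u = Real.exp (43 / 500 * u ^ 2) * Real.exp (u - 43 / 500 * u ^ 2) := by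
          rw [← Real.exp_add]; congr 1; ring
      _ ≤ Real.exp (43 / 500 * w ^ 2) * (1 + u + 18 / 25 * u ^ 2) := by
          apply mul_le_mul _ h1 (Real.exp_nonneg _) (Real.exp_nonneg _)
          exact Real.exp_le_exp.2 (by nlinarith)

/-- `(1 + u/n)^n ≤ e^u` for `1 + u/n ≥ 0`, product form -/
theorem prod_le_exp {V : Type} (s : Finset V) (a : V → ℝ) (ha : ∀ i ∈ s, 0 ≤ 1 + a i) :
    ∏ i ∈ s, (1 + a i) ≤ Real.exp (∑ i ∈ s, a i) := by
  rw [Real.exp_sum]
  apply prod_le_prod ha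
  intro i _
  have := Real.add_one_le_exp (a i)
  linarith

/-- the step with `k` children in exponential form. `ρ i` are the (signed) scalars with sum `-R`,
`E` and `c` constants with `exp W ≤ E (1 + W + c W²)`; full gain `R`, cost `2 c |W|²`, plus
`log E`. -/
theorem multi_stepE {V : Type} (s : Finset V)
    (b : V → Fin m → ℝ) (M ρ : V → ℝ) (η : V → Fin m → ℝ) (hM : ∀ i ∈ s, 0 < M i)
    (hb0 : ∀ i ∈ s, ∀ y, 0 ≤ b i y) (hb : ∀ i ∈ s, ∀ y, b i y ≤ M i * (1 + ρ i + η i y))
    (R : ℝ) (hR : ∑ i ∈ s, ρ i = - R) (W : Fin m → ℝ)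
    (hW : ∀ y, W y = ∑ i ∈ s, η i y) (v : ℝ) (hv : ip W W ≤ v) (c E : ℝ)
    (hc0 : 0 ≤ c)
    (hc : ∀ y, Real.exp (W y) ≤ E * (1 + W y + c * W y ^ 2)) :
    ∃ G : Fin m → ℝ, (∀ y, 0 ≤ G y) ∧
      (∀ y, ∏ i ∈ s, b i y ≤ ((∏ i ∈ s, M i) * (Real.exp (-R) * E)) * (1 + W y + G y)) ∧
      mn G ≤ c * v := by
  have hP : 0 < ∏ i ∈ s, M i := prod_pos hM
  refine ⟨fun y => c * W y ^ 2, fun y => by positivity, fun y => ?_, ?_⟩
  · have ha : ∀ i ∈ s, 0 ≤ 1 + (ρ i + η i y) := by
      intro i hi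
      have h1 := (hb0 i hi y).trans (hb i hi y)
      by_contra h
      push Not at h
      have := mul_neg_of_pos_of_neg (hM i hi) h
      linarith
    have h1 : ∏ i ∈ s, b i y ≤ (∏ i ∈ s, M i) * ∏ i ∈ s, (1 + (ρ i + η i y)) := by
      rw [← prod_mul_distrib]
      exact prod_le_prod (fun i hi => hb0 i hi y) (fun i hi => by
        have := hb i hi y
        rwa [add_assoc] at this)
    have h2 := prod_le_exp s (fun i => ρ i + η i y) ha
    rw [sum_add_distrib, hR, ← hW y, Real.exp_add] at h2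
    calc ∏ i ∈ s, b i y ≤ (∏ i ∈ s, M i) * (Real.exp (-R) * Real.exp (W y)) :=
          h1.trans (mul_le_mul_of_nonneg_left h2 hP.le)
      _ ≤ (∏ i ∈ s, M i) * (Real.exp (-R) * (E * (1 + W y + c * W y ^ 2))) := by
          gcongr
          exact hc y
      _ = _ := by ring
  · have e : (fun y => c * W y ^ 2) = fun y => c * (W y * W y) := by funext y; ring
    rw [e, mn_mul]
    exact mul_le_mul_of_nonneg_left hv hc0

/-- the constant `(e^w - 1 - w)/w²` on `(-∞, w]` -/
theorem exp_le_c (u w : ℝ) (huw : u ≤ w) (hw : 0 < w) :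
    Real.exp u ≤ 1 + u + ((Real.exp w - 1 - w) / w ^ 2) * u ^ 2 := by
  -- `(e^u - 1 - u)/u²` is monotone: for `0 < u ≤ w` from convexity, for `u ≤ 0` it is at most 1/2
  have hhalf : 1 / 2 ≤ (Real.exp w - 1 - w) / w ^ 2 := by
    rw [le_div_iff₀ (by positivity)]
    have := Real.quadratic_le_exp_of_nonneg hw.le
    linarith
  rcases le_or_gt u 0 with h0 | h0
  · have h1 := exp_le_neg u h0
    nlinarith [mul_le_mul_of_nonneg_right hhalf (sq_nonneg u)]
  · -- `h x = (e^x - 1 - x)/x²` monotone on `(0, ∞)`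
    have hd : ∀ x : ℝ, 0 < x → HasDerivAt (fun x : ℝ => (Real.exp x - 1 - x) / x ^ 2)
        (((Real.exp x - 1) * x ^ 2 - (Real.exp x - 1 - x) * (2 * x)) / (x ^ 2) ^ 2) x := by
      intro x hx
      have h1 : HasDerivAt (fun x : ℝ => Real.exp x - 1 - x) (Real.exp x - 1) x :=
        ((Real.hasDerivAt_exp x).sub_const 1).sub (hasDerivAt_id' x)
      have h2 : HasDerivAt (fun x : ℝ => x ^ 2) (2 * x) x := hd_sq x
      exact h1.div h2 (by positivity)
    have haux : ∀ x : ℝ, 0 ≤ x → 0 ≤ (x - 2) * Real.exp x + x + 2 := by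
      have hd2 : ∀ x : ℝ, HasDerivAt (fun x : ℝ => (x - 2) * Real.exp x + x + 2)
          ((x - 1) * Real.exp x + 1) x := by
        intro x
        have h1 : HasDerivAt (fun x : ℝ => (x - 2) * Real.exp x)
            (1 * Real.exp x + (x - 2) * Real.exp x) x :=
          ((hasDerivAt_id' x).sub_const 2).mul (Real.hasDerivAt_exp x)
        have h2 := (h1.add (hasDerivAt_id' x)).add_const 2
        have e2 : (1 * Real.exp x + (x - 2) * Real.exp x + 1) = (x - 1) * Real.exp x + 1 := by ring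
        rw [e2] at h2
        exact h2
      have hm2 : MonotoneOn (fun x : ℝ => (x - 2) * Real.exp x + x + 2) (Set.Ici 0) := by
        apply monotoneOn_of_deriv_nonneg (convex_Ici 0)
        · intro x _; exact (hd2 x).continuousAt.continuousWithinAt
        · intro x _; exact (hd2 x).differentiableAt.differentiableWithinAt
        · intro x _
          rw [(hd2 x).deriv]
          -- (x-1) e^x + 1 ≥ 0 since 1 - x ≤ e^{-x}
          have h1 := Real.add_one_le_exp (-x)
          have h2 : Real.exp (-x) * Real.exp x = 1 := by rw [← Real.exp_add]; simp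
          nlinarith [Real.exp_pos x, mul_le_mul_of_nonneg_right h1 (Real.exp_pos x).le]
      intro x hx
      have h := hm2 (Set.mem_Ici.2 le_rfl) (Set.mem_Ici.2 hx) hx
      simp only at h
      rw [Real.exp_zero] at h
      linarith
    have hmono : MonotoneOn (fun x : ℝ => (Real.exp x - 1 - x) / x ^ 2) (Set.Ioi 0) := by
      apply monotoneOn_of_deriv_nonneg (convex_Ioi 0)
      · intro x hx; exact (hd x hx).continuousAt.continuousWithinAt
      · intro x hx
        rw [interior_Ioi] at hx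
        exact (hd x hx).differentiableAt.differentiableWithinAt
      · intro x hx
        rw [interior_Ioi] at hx
        have hx0 : 0 < x := hx
        rw [(hd x hx0).deriv]
        apply div_nonneg _ (by positivity)
        have e : (Real.exp x - 1) * x ^ 2 - (Real.exp x - 1 - x) * (2 * x) =
            x * ((x - 2) * Real.exp x + x + 2) := by ring
        rw [e]
        exact mul_nonneg hx0.le (haux x hx0.le)
    have h := hmono (Set.mem_Ioi.2 h0) (Set.mem_Ioi.2 hw) huw
    simp only at h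
    rw [div_le_iff₀ (by positivity : (0 : ℝ) < u ^ 2)] at h
    linarith

end Pool.Agent.TSO
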