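import Pool.Agent.TSO.Sup

set_option autoImplicit false

/-!
# The points of small score (MP_d27362_co)

`mn (c - (1 + beta))^+ ≤ c^2 / 4` for every antisymmetric kernel with values in `[-1, 1]`:
inside the set `1 + beta < c` the kernel has mean zero.
-/

namespace Pool.Agent.TSO

open Finset Pool.Agent.TSP

variable {m : ℕ}

theorem sink' (hm : 0 < m) (S : Fin m → Fin m → ℝ) (hS : ∀ i j, S j i = - S i j)
    (h1 : ∀ i j, |S i j| ≤ 1) (c : ℝ) :
    (mn fun i => max (c - (1 + beta S i)) 0) ≤ c ^ 2 / 4 := by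
  classical
  obtain ⟨f, hf⟩ : ∃ f : Fin m → ℝ, f = fun i => if 1 + beta S i < c then 1 else 0 := ⟨_, rfl⟩
  have hf0 : ∀ i, 0 ≤ f i := by
    intro i; rw [hf]; dsimp only; split_ifs <;> norm_num
  have hf1 : ∀ i, f i ≤ 1 := by
    intro i; rw [hf]; dsimp only; split_ifs <;> norm_num
  obtain ⟨a, ha⟩ : ∃ a : ℝ, a = mn f := ⟨_, rfl⟩
  have ha0 : 0 ≤ a := by rw [ha]; exact mn_nonneg hf0
  obtain ⟨g, hg⟩ : ∃ g : Fin m → ℝ, g = (fun _ => 1) - f := ⟨_, rfl⟩
  have hg0 : ∀ i, 0 ≤ g i := by
    intro i; rw [hg]; simp only [Pi.sub_apply]; linarith [hf1 i]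
  have hgm : mn g = 1 - a := by
    have e1 : g = fun i => 1 - f i := by rw [hg]; rfl
    rw [e1, mn_sub, mn_const hm, ha]
  have hop : ∀ i, -(1 - a) ≤ op S g i := by
    intro i
    have h2 := (abs_le.1 (op_abs_le S h1 g i)).1
    have h3 : (mn fun i => |g i|) = mn g := by
      congr 1
      funext j
      exact abs_of_nonneg (hg0 j)
    rw [h3, hgm] at h2
    exact h2
  have hfb : -(a * (1 - a)) ≤ ip f (beta S) := by
    have e1 : beta S = op S f + op S g := by
      rw [← op_add, hg, beta]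
      congr 1
      funext i
      simp
    rw [e1, ip_add_right, ip_op_self S hS, zero_add, ip_eq_mn]
    have h2 : (mn fun i => (-(1 - a)) * f i) ≤ mn fun i => f i * op S g i := by
      apply mn_mono
      intro i
      have := mul_le_mul_of_nonneg_left (hop i) (hf0 i)
      linarith
    rw [mn_mul, ← ha] at h2
    linarith
  have e2 : (fun i => max (c - (1 + beta S i)) 0) =
      fun i => (c - 1) * f i - f i * beta S i := by
    funext i
    rw [hf]
    dsimp only
    split_ifs with h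
    · rw [max_eq_left (by linarith)]; ring
    · rw [max_eq_right (by linarith)]; ring
  rw [e2, mn_sub, mn_mul, ← ha, ← ip_eq_mn]
  nlinarith [sq_nonneg (a - c / 2)]

theorem sink_lam' (hm : 0 < m) (S : Fin m → Fin m → ℝ) (hS : ∀ i j, S j i = - S i j)
    (h1 : ∀ i j, |S i j| ≤ 1) (ξ lam : ℝ) (hl : 0 < lam) :
    (mn fun i => max (ξ - lam * (1 + beta S i)) 0) ≤ ξ ^ 2 / (4 * lam) := by
  have h := mul_le_mul_of_nonneg_left (sink' hm S hS h1 (ξ / lam)) hl.le
  rw [← mn_mul] at h
  have e1 : (fun i => max (ξ - lam * (1 + beta S i)) 0) =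
      fun i => lam * max (ξ / lam - (1 + beta S i)) 0 := by
    funext i
    rw [mul_max_of_nonneg _ _ hl.le, mul_zero]
    congr 1
    field_simp
  rw [e1]
  refine h.trans (le_of_eq ?_)
  field_simp

end Pool.Agent.TSO
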