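import Pool.Agent.TSM.ZpcL

set_option autoImplicit false

/-!
# The real inequality of the zpc step, loss side, negative gain (MP_d27362_co)

`h ≥ -(2 s + ξ)` with `0 ≤ ξ ≤ r`; the price is a larger coefficient of `k2 u²` and
`(ξ - (1 + u)/10)^+`.
-/

namespace Pool.Agent.TSM

theorem titu3 {a b c : ℝ} (ha : 0 < a) (hb : 0 < b) (hc : 0 < c) (h : a + b + c = 1)
    (x y z : ℝ) : (x + y + z) ^ 2 ≤ x ^ 2 / a + y ^ 2 / b + z ^ 2 / c := by
  obtain ⟨x', hx⟩ : ∃ x', x' = x / a := ⟨_, rfl⟩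
  obtain ⟨y', hy⟩ : ∃ y', y' = y / b := ⟨_, rfl⟩
  obtain ⟨z', hz⟩ : ∃ z', z' = z / c := ⟨_, rfl⟩
  have hx' : x = a * x' := by rw [hx]; field_simp
  have hy' : y = b * y' := by rw [hy]; field_simp
  have hz' : z = c * z' := by rw [hz]; field_simp
  have e1 : x ^ 2 / a = a * x' ^ 2 := by rw [hx']; field_simp
  have e2 : y ^ 2 / b = b * y' ^ 2 := by rw [hy']; field_simp
  have e3 : z ^ 2 / c = c * z' ^ 2 := by rw [hz']; field_simp
  rw [e1, e2, e3, hx', hy', hz']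
  have hc' : c = 1 - a - b := by linarith
  have h1 : 0 ≤ a * b * (x' - y') ^ 2 := by positivity
  have h2 : 0 ≤ a * c * (x' - z') ^ 2 := by positivity
  have h3 : 0 ≤ b * c * (y' - z') ^ 2 := by positivity
  have h4 : a * x' ^ 2 + b * y' ^ 2 + c * z' ^ 2 - (a * x' + b * y' + c * z') ^ 2 =
      a * b * (x' - y') ^ 2 + a * c * (x' - z') ^ 2 + b * c * (y' - z') ^ 2 := by
    rw [hc']; ring
  linarith

/-- the terms with `η` -/
theorem zneg_E (ε v p s η τ : ℝ) (hε : 2 / 5 ≤ ε) (hv0 : 0 ≤ v) (hp : 0 ≤ p)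
    (hpε : 2 * p ≤ ε) (hs : 0 ≤ s) (hη0 : 0 ≤ η) (hηp : η ≤ p) (hτ0 : 0 ≤ τ)
    (hτ : 3 / 5 ≤ v → (v - 3 / 5) ^ 2 ≤ τ * (v + 4 / 5)) :
    -(τ * s ^ 2) ≤ 2 * p * s * (ε - p) + (ε - v) * (2 * η * s + η ^ 2) +
      2 * η * p * (ε + v - p) := by
  have h0 : 0 ≤ τ * s ^ 2 := by positivity
  have h1 : 0 ≤ 2 * p * s * (ε - p) := mul_nonneg (by positivity) (by linarith)
  have h2 : 0 ≤ 2 * η * p * (ε + v - p) := mul_nonneg (by positivity) (by linarith)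
  rcases le_total v ε with h | h
  · have h3 : 0 ≤ (ε - v) * (2 * η * s + η ^ 2) := mul_nonneg (by linarith) (by positivity)
    linarith
  · have h3 : 2 * η * s * (ε - p) ≤ 2 * p * s * (ε - p) := by
      apply mul_le_mul_of_nonneg_right _ (by linarith)
      nlinarith
    have h4 : -((v - ε) * (2 * η * s + η * p)) ≤ (ε - v) * (2 * η * s + η ^ 2) := by
      have h5 : (v - ε) * η ^ 2 ≤ (v - ε) * (η * p) := by
        apply mul_le_mul_of_nonneg_left _ (by linarith)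
        nlinarith
      nlinarith
    have h5 : -(2 * η * s * (v - 2 * ε + p)) + η * p * (3 * ε + v - 2 * p) ≤
        2 * p * s * (ε - p) + (ε - v) * (2 * η * s + η ^ 2) + 2 * η * p * (ε + v - p) := by
      nlinarith
    refine le_trans ?_ h5
    rcases le_total (v - 2 * ε + p) 0 with h6 | h6
    · have h7 : 0 ≤ -(2 * η * s * (v - 2 * ε + p)) := by
        have : 0 ≤ 2 * η * s * (-(v - 2 * ε + p)) := mul_nonneg (by positivity) (by linarith)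
        linarith
      have h8 : 0 ≤ η * p * (3 * ε + v - 2 * p) := mul_nonneg (by positivity) (by linarith)
      linarith
    · have hv : 3 / 5 ≤ v := by linarith
      have h7 := hτ hv
      have h8 : 2 * η * s * (v - 2 * ε + p) ≤ 2 * η * s * (v - 3 / 5) :=
        mul_le_mul_of_nonneg_left (by linarith) (by positivity)
      have h9 : η ^ 2 * (v + 4 / 5) ≤ η * p * (3 * ε + v - 2 * p) := by
        apply mul_le_mul _ (by linarith) (by linarith) (by positivity)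
        nlinarith
      have h10 : 0 < v + 4 / 5 := by linarith
      have h11 : 0 ≤ (v + 4 / 5) * (τ * s ^ 2 - 2 * η * s * (v - 3 / 5) +
          η ^ 2 * (v + 4 / 5)) := by
        have h12 : (v - 3 / 5) ^ 2 * s ^ 2 ≤ τ * (v + 4 / 5) * s ^ 2 :=
          mul_le_mul_of_nonneg_right h7 (sq_nonneg s)
        nlinarith [sq_nonneg (η * (v + 4 / 5) - s * (v - 3 / 5))]
      have h13 := nonneg_of_mul_nonneg_right h11 h10
      linarith

theorem zneg_core (ε e v p s η k2 A τ : ℝ) (hε : 2 / 5 ≤ ε) (he : 0 ≤ e) (hv0 : 0 ≤ v)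
    (hv1 : v < 1) (hp : 0 ≤ p) (hpε : 2 * p ≤ ε) (hs : 0 ≤ s) (hη0 : 0 ≤ η) (hηp : η ≤ p)
    (hk : s ^ 2 ≤ k2 * (1 - v ^ 2)) (hτ0 : 0 ≤ τ)
    (hτ : 3 / 5 ≤ v → (v - 3 / 5) ^ 2 ≤ τ * (v + 4 / 5))
    (hA : A ≤ (v - 2 * ε) ^ 2 / (4 * ε) + (e - (1 + ε + 1 / (4 * ε))) * v ^ 2)
    (hA2 : 1 / 10 * (1 + v) * v ^ 2 ≤ (1 / 5 + 7 / 10 * v) * (A - (1 - v ^ 2) * τ)) :
    0 ≤ (ε - v) * (s + η + p) ^ 2 + (v - p) ^ 2 * (1 - v - 2 * (s + η)) + e * k2 * v ^ 2 +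
      p ^ 2 * v ^ 2 + v ^ 2 * (2 * η - 1 / 10 * (1 - v)) := by
  have hε0 : 0 < ε := by linarith
  have h1v : 0 < 1 - v := by linarith
  have h1vv : 0 < 1 - v ^ 2 := by nlinarith
  have hE := zneg_E ε v p s η τ hε hv0 hp hpε hs hη0 hηp hτ0 hτ
  obtain ⟨E, hEE⟩ : ∃ E, E = 2 * p * s * (ε - p) + (ε - v) * (2 * η * s + η ^ 2) +
      2 * η * p * (ε + v - p) := ⟨_, rfl⟩
  rw [← hEE] at hE
  obtain ⟨T, hT⟩ : ∃ T, T = (ε - v) * (s + η + p) ^ 2 + (v - p) ^ 2 * (1 - v - 2 * (s + η)) +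
      e * k2 * v ^ 2 + p ^ 2 * v ^ 2 + v ^ 2 * (2 * η - 1 / 10 * (1 - v)) := ⟨_, rfl⟩
  obtain ⟨Q, hQ⟩ : ∃ Q, Q = v * (1 - v) - v * s - (1 - v) * p := ⟨_, rfl⟩
  obtain ⟨α, hα⟩ : ∃ α, α = (v - 2 * ε) ^ 2 / (4 * ε) +
      (e - (1 + ε + 1 / (4 * ε))) * v ^ 2 := ⟨_, rfl⟩
  rw [← hα] at hA
  rw [← hT]
  have hid : (1 - v ^ 2) * T = (1 + v) * Q ^ 2 + α * s ^ 2 +
      (1 + v) * (1 - v) * (ε - v * (1 - v)) * p ^ 2 + (1 - v ^ 2) * E -
      1 / 10 * (1 + v) * (v * (1 - v)) ^ 2 + e * v ^ 2 * (k2 * (1 - v ^ 2) - s ^ 2) := by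
    rw [hT, hQ, hα, hEE]
    field_simp
    ring
  have h1 : 0 ≤ e * v ^ 2 * (k2 * (1 - v ^ 2) - s ^ 2) :=
    mul_nonneg (by positivity) (by linarith)
  have h2 : -((1 - v ^ 2) * τ * s ^ 2) ≤ (1 - v ^ 2) * E := by
    have := mul_le_mul_of_nonneg_left hE h1vv.le
    linarith
  have hg : 0 < 1 / 5 + 7 / 10 * v := by linarith
  have h3 := titu3 (a := 1 / 10) (b := 1 / 5 + 7 / 10 * v) (c := 7 / 10 * (1 - v))
    (by norm_num) hg (by linarith) (by ring) Q (v * s) ((1 - v) * p)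
  have e1 : Q + v * s + (1 - v) * p = v * (1 - v) := by rw [hQ]; ring
  rw [e1] at h3
  have h4 : 1 / 10 * (1 + v) * (v * s) ^ 2 / (1 / 5 + 7 / 10 * v) ≤
      (α - (1 - v ^ 2) * τ) * s ^ 2 := by
    rw [div_le_iff₀ hg]
    have h5 : 1 / 10 * (1 + v) * v ^ 2 ≤ (1 / 5 + 7 / 10 * v) * (α - (1 - v ^ 2) * τ) :=
      hA2.trans (mul_le_mul_of_nonneg_left (by linarith) hg.le)
    have h6 := mul_le_mul_of_nonneg_right h5 (sq_nonneg s)
    calc 1 / 10 * (1 + v) * (v * s) ^ 2 = 1 / 10 * (1 + v) * v ^ 2 * s ^ 2 := by ring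
      _ ≤ _ := h6
      _ = _ := by ring
  have h5 : 1 / 10 * (1 + v) * ((1 - v) * p) ^ 2 / (7 / 10 * (1 - v)) ≤
      (1 + v) * (1 - v) * (ε - v * (1 - v)) * p ^ 2 := by
    rw [div_le_iff₀ (by linarith)]
    have h6 : 1 / 7 ≤ ε - v * (1 - v) := by nlinarith [sq_nonneg (v - 1 / 2)]
    have h7 : 0 ≤ (1 + v) * (1 - v) ^ 2 * p ^ 2 := by positivity
    have h8 := mul_le_mul_of_nonneg_left h6 h7
    linarith
  have h6 : 1 / 10 * (1 + v) * (v * (1 - v)) ^ 2 ≤ (1 + v) * Q ^ 2 +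
      1 / 10 * (1 + v) * (v * s) ^ 2 / (1 / 5 + 7 / 10 * v) +
      1 / 10 * (1 + v) * ((1 - v) * p) ^ 2 / (7 / 10 * (1 - v)) := by
    have h7 := mul_le_mul_of_nonneg_left h3 (show 0 ≤ 1 / 10 * (1 + v) by linarith)
    refine h7.trans (le_of_eq ?_)
    ring
  have h7 : 0 ≤ (1 - v ^ 2) * T := by
    rw [hid]
    linarith
  exact nonneg_of_mul_nonneg_right h7 h1vv

/-- `v = 1` -/
theorem zneg_one (ε e p η k2 : ℝ) (hε : 2 / 5 ≤ ε) (he : 0 ≤ e) (hk : 0 ≤ k2) (hp : 0 ≤ p)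
    (hp2 : p ≤ 1 / 2) (hη0 : 0 ≤ η) (hηp : η ≤ p) :
    0 ≤ (ε - 1) * (0 + η + p) ^ 2 + (1 - p) ^ 2 * (1 - 1 - 2 * (0 + η)) + e * k2 * 1 ^ 2 +
      p ^ 2 * 1 ^ 2 + 1 ^ 2 * (2 * η - 1 / 10 * (1 - 1)) := by
  have h1 : 0 ≤ e * k2 := mul_nonneg he hk
  have h2 : 0 ≤ ε * (η + p) ^ 2 := by positivity
  have h3 : 0 ≤ η * (p - η) := mul_nonneg hη0 (by linarith)
  have h4 : 0 ≤ η * p * (1 - 2 * p) := mul_nonneg (by positivity) (by linarith)
  nlinarith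

theorem zneg_num1 (v : ℝ) (hv0 : 0 ≤ v) (hv1 : v ≤ 3 / 5) :
    1 / 10 * (1 + v) * v ^ 2 ≤ (1 / 5 + 7 / 10 * v) *
      ((v - 4 / 5) ^ 2 / (8 / 5) + 11 / 40 * v ^ 2) := by
  nlinarith [mul_nonneg hv0 (sq_nonneg (v - 4 / 5)), mul_nonneg hv0 (sq_nonneg v),
    sq_nonneg (v - 4 / 5), sq_nonneg (v - 1 / 2), mul_nonneg hv0 (sub_nonneg.2 hv1)]

theorem zneg_num2 (v : ℝ) (hv0 : 3 / 5 ≤ v) (hv1 : v ≤ 1) :
    1 / 10 * (1 + v) * v ^ 2 ≤ (1 / 5 + 7 / 10 * v) *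
      (((v - 4 / 5) ^ 2 / (8 / 5) + 11 / 40 * v ^ 2) -
        (1 - v ^ 2) * ((v - 3 / 5) ^ 2 * (5 / 7))) := by
  have hx : 0 ≤ v - 3 / 5 := by linarith
  have hy : 0 ≤ 1 - v := by linarith
  have hid : (1 / 5 + 7 / 10 * v) *
      (((v - 4 / 5) ^ 2 / (8 / 5) + 11 / 40 * v ^ 2) -
        (1 - v ^ 2) * ((v - 3 / 5) ^ 2 * (5 / 7))) - 1 / 10 * (1 + v) * v ^ 2 =
      241 / 128 * (1 - v) ^ 5 + 747 / 128 * ((v - 3 / 5) * (1 - v) ^ 4) +
      2377 / 448 * ((v - 3 / 5) ^ 2 * (1 - v) ^ 3) +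
      1955 / 448 * ((v - 3 / 5) ^ 3 * (1 - v) ^ 2) +
      8375 / 896 * ((v - 3 / 5) ^ 4 * (1 - v)) + 875 / 128 * (v - 3 / 5) ^ 5 := by
    ring
  have h0 : 0 ≤ 241 / 128 * (1 - v) ^ 5 + 747 / 128 * ((v - 3 / 5) * (1 - v) ^ 4) +
      2377 / 448 * ((v - 3 / 5) ^ 2 * (1 - v) ^ 3) +
      1955 / 448 * ((v - 3 / 5) ^ 3 * (1 - v) ^ 2) +
      8375 / 896 * ((v - 3 / 5) ^ 4 * (1 - v)) + 875 / 128 * (v - 3 / 5) ^ 5 := by
    positivity
  linarith

theorem zneg_num3 (v : ℝ) (hv0 : 3 / 5 ≤ v) (hv1 : v ≤ 1) :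
    1 / 10 * (1 + v) * v ^ 2 ≤ (1 / 5 + 7 / 10 * v) *
      (v ^ 2 - (1 - v ^ 2) * ((v - 3 / 5) ^ 2 * (5 / 7))) := by
  have h1 : (v - 3 / 5) ^ 2 ≤ 4 / 25 := by nlinarith
  have h2 : (1 - v ^ 2) ≤ 16 / 25 := by nlinarith
  have h3 : 0 ≤ 1 - v ^ 2 := by nlinarith
  have h4 : (1 - v ^ 2) * ((v - 3 / 5) ^ 2 * (5 / 7)) ≤ 16 / 25 * (4 / 25 * (5 / 7)) :=
    mul_le_mul h2 (by linarith) (by positivity) (by norm_num)
  have h5 : 9 / 25 ≤ v ^ 2 := by nlinarith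
  have h6 : 7 / 10 * v ^ 2 ≤ v ^ 2 - (1 - v ^ 2) * ((v - 3 / 5) ^ 2 * (5 / 7)) := by linarith
  have h7 : (1 / 5 + 7 / 10 * v) * (7 / 10 * v ^ 2) ≤ (1 / 5 + 7 / 10 * v) *
      (v ^ 2 - (1 - v ^ 2) * ((v - 3 / 5) ^ 2 * (5 / 7))) :=
    mul_le_mul_of_nonneg_left h6 (by linarith)
  refine le_trans ?_ h7
  have h8 : 0 ≤ v ^ 2 * (1 / 25 + 39 / 100 * v) := by positivity
  nlinarith

/-- `u = -v ≤ 0`, `X = -h/2 ≥ 0` -/
theorem zneg_A (p v X s ξ k2 : ℝ) (hv0 : 0 ≤ v) (hv1 : v ≤ 1) (hp : 0 ≤ p) (hp2 : p ≤ 1 / 2)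
    (hX : 0 ≤ X) (hs : 0 ≤ s) (hXs : X ≤ s + ξ / 2) (hξ0 : 0 ≤ ξ) (hξ : ξ ≤ 2 * p)
    (hk2 : 0 ≤ k2) (hk : s ^ 2 ≤ k2 * (1 - v ^ 2)) :
    0 ≤ (max (2 / 5) (2 * p) - v) * (X + p) ^ 2 + (v - p) ^ 2 * (1 - v - 2 * X) +
      23 / 10 * (1 + p) ^ 2 * k2 * v ^ 2 + p ^ 2 * v ^ 2 +
      max (ξ - 1 / 10 * (1 - v)) 0 := by
  obtain ⟨ε, hε'⟩ : ∃ ε, ε = max (2 / 5) (2 * p) := ⟨_, rfl⟩
  obtain ⟨e, he'⟩ : ∃ e, e = 23 / 10 * (1 + p) ^ 2 := ⟨_, rfl⟩
  rw [← hε', ← he']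
  have hε : 2 / 5 ≤ ε := by rw [hε']; exact le_max_left _ _
  have hpε : 2 * p ≤ ε := by rw [hε']; exact le_max_right _ _
  have he : 0 ≤ e := by rw [he']; positivity
  have he2 : 23 / 10 ≤ e := by rw [he']; nlinarith
  obtain ⟨η, hη⟩ : ∃ η, η = min (ξ / 2) X := ⟨_, rfl⟩
  have hη0 : 0 ≤ η := by rw [hη]; exact le_min (by linarith) hX
  have hη1 : η ≤ ξ / 2 := by rw [hη]; exact min_le_left _ _
  have hη2 : η ≤ X := by rw [hη]; exact min_le_right _ _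
  obtain ⟨s', hs'⟩ : ∃ s', s' = X - η := ⟨_, rfl⟩
  have hs0 : 0 ≤ s' := by linarith
  have hss : s' ≤ s := by
    rcases le_total (ξ / 2) X with h | h
    · rw [hs', hη, min_eq_left h]; linarith
    · rw [hs', hη, min_eq_right h]; linarith
  have hk' : s' ^ 2 ≤ k2 * (1 - v ^ 2) := (pow_le_pow_left₀ hs0 hss 2).trans hk
  have hX' : X = s' + η := by rw [hs']; ring
  have hlast : v ^ 2 * (2 * η - 1 / 10 * (1 - v)) ≤ max (ξ - 1 / 10 * (1 - v)) 0 := by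
    have hv2 : v ^ 2 ≤ 1 := by nlinarith
    rcases le_total (2 * η - 1 / 10 * (1 - v)) 0 with h | h
    · have : v ^ 2 * (2 * η - 1 / 10 * (1 - v)) ≤ 0 :=
        mul_nonpos_of_nonneg_of_nonpos (sq_nonneg v) h
      exact this.trans (le_max_right _ _)
    · have h1 : v ^ 2 * (2 * η - 1 / 10 * (1 - v)) ≤ 1 * (2 * η - 1 / 10 * (1 - v)) :=
        mul_le_mul_of_nonneg_right hv2 h
      exact h1.trans (le_trans (by linarith) (le_max_left _ _))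
  have hmain : 0 ≤ (ε - v) * (s' + η + p) ^ 2 + (v - p) ^ 2 * (1 - v - 2 * (s' + η)) +
      e * k2 * v ^ 2 + p ^ 2 * v ^ 2 + v ^ 2 * (2 * η - 1 / 10 * (1 - v)) := by
    rcases hv1.eq_or_lt with h1 | h1
    · subst h1
      have h2 : s' ^ 2 ≤ 0 := by simpa using hk'
      have h3 : s' = 0 := by
        have : s' ^ 2 = 0 := le_antisymm h2 (sq_nonneg s')
        exact pow_eq_zero_iff (two_ne_zero) |>.1 this
      rw [h3]
      exact zneg_one ε e p η k2 hε he hk2 hp hp2 hη0 (by linarith)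
    · rcases le_total (2 * p) (2 / 5) with h2 | h2
      · have hεe : ε = 2 / 5 := by rw [hε']; exact max_eq_left h2
        have hA : (v - 4 / 5) ^ 2 / (8 / 5) + 11 / 40 * v ^ 2 ≤
            (v - 2 * ε) ^ 2 / (4 * ε) + (e - (1 + ε + 1 / (4 * ε))) * v ^ 2 := by
          rw [hεe]
          have h3 : (23 / 10) * v ^ 2 ≤ e * v ^ 2 := mul_le_mul_of_nonneg_right he2 (sq_nonneg v)
          norm_num
          nlinarith
        rcases le_total v (3 / 5) with h3 | h3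
        · refine zneg_core ε e v p s' η k2 _ 0 hε he hv0 h1 hp hpε hs0 hη0 (by linarith) hk' le_rfl
            ?_ hA ?_
          · intro h4
            have : v = 3 / 5 := le_antisymm h3 h4
            rw [this]; norm_num
          · have := zneg_num1 v hv0 h3
            simpa using this
        · refine zneg_core ε e v p s' η k2 _ ((v - 3 / 5) ^ 2 * (5 / 7)) hε he hv0 h1 hp hpε hs0
            hη0 (by linarith) hk' (by positivity) ?_ hA (zneg_num2 v h3 hv1)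
          intro _
          nlinarith [sq_nonneg (v - 3 / 5)]
      · have hεe : ε = 2 * p := by rw [hε']; exact max_eq_right h2
        have hp5 : 1 / 5 ≤ p := by linarith
        have hA : v ^ 2 ≤
            (v - 2 * ε) ^ 2 / (4 * ε) + (e - (1 + ε + 1 / (4 * ε))) * v ^ 2 := by
          have h3 : 0 ≤ (v - 2 * ε) ^ 2 / (4 * ε) := by positivity
          have h4 : 1 / (4 * ε) ≤ 5 / 8 := by
            rw [div_le_div_iff₀ (by positivity) (by norm_num)]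
            linarith
          have h5 : 1 ≤ e - (1 + ε + 1 / (4 * ε)) := by
            have h6 : 1 + 1 + 2 * p + 5 / 8 ≤ 23 / 10 * (1 + p) ^ 2 := by nlinarith
            rw [he']
            linarith
          have h6 := mul_le_mul_of_nonneg_right h5 (sq_nonneg v)
          linarith
        rcases le_total v (3 / 5) with h3 | h3
        · refine zneg_core ε e v p s' η k2 _ 0 hε he hv0 h1 hp hpε hs0 hη0 (by linarith) hk' le_rfl
            ?_ hA ?_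
          · intro h4
            have : v = 3 / 5 := le_antisymm h3 h4
            rw [this]; norm_num
          · have h5 : 0 ≤ v ^ 2 * (1 / 10 + 6 / 10 * v) := by positivity
            nlinarith
        · refine zneg_core ε e v p s' η k2 _ ((v - 3 / 5) ^ 2 * (5 / 7)) hε he hv0 h1 hp hpε hs0
            hη0 (by linarith) hk' (by positivity) ?_ hA (zneg_num3 v h3 hv1)
          intro _
          nlinarith [sq_nonneg (v - 3 / 5)]
  rw [hX']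
  linarith

/-- the bound of the coefficient -/
theorem zneg_coef (p : ℝ) (hp : 0 ≤ p) (hp2 : p ≤ 1 / 2) :
    1 + max (2 / 5) (2 * p) + 1 / (4 * max (2 / 5) (2 * p)) ≤ 23 / 10 * (1 + p) ^ 2 := by
  rcases le_total (2 * p) (2 / 5) with h2 | h2
  · rw [max_eq_left h2]
    norm_num
    nlinarith
  · rw [max_eq_right h2]
    have h4 : 1 / (4 * (2 * p)) ≤ 5 / 8 := by
      rw [div_le_div_iff₀ (by linarith) (by norm_num)]
      linarith
    nlinarith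

theorem zneg_delta (u p h s ξ k2 : ℝ) (hu0 : -1 ≤ u) (hp : 0 ≤ p) (hp2 : p ≤ 1 / 2)
    (hs : 0 ≤ s) (hhs : -(2 * s + ξ) ≤ h) (hh : h ≤ 4 * p ∨ h / 2 ≤ s) (hξ0 : 0 ≤ ξ)
    (hξ : ξ ≤ 2 * p) (hk2 : 0 ≤ k2) (hk : s ^ 2 ≤ k2 * (1 - u ^ 2)) :
    0 ≤ (max (2 / 5) (2 * p) + u) * ((h - 2 * p) / 2) ^ 2 + (u + p) ^ 2 * (1 + u + h) +
      23 / 10 * (1 + p) ^ 2 * k2 * u ^ 2 + p ^ 2 * u ^ 2 +
      max (ξ - 1 / 10 * (1 + u)) 0 := by
  have hc := zneg_coef p hp hp2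
  obtain ⟨ε, hε'⟩ : ∃ ε, ε = max (2 / 5) (2 * p) := ⟨_, rfl⟩
  have hε : 2 / 5 ≤ ε := by rw [hε']; exact le_max_left _ _
  have hpε : 2 * p ≤ ε := by rw [hε']; exact le_max_right _ _
  have hε0 : 0 < ε := by linarith
  have hmx : 0 ≤ max (ξ - 1 / 10 * (1 + u)) 0 := le_max_right _ _
  have hcu : (1 + ε + 1 / (4 * ε)) * k2 * u ^ 2 ≤ 23 / 10 * (1 + p) ^ 2 * k2 * u ^ 2 := by
    rw [← hε'] at hc
    have := mul_le_mul_of_nonneg_right hc (mul_nonneg hk2 (sq_nonneg u))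
    linarith
  have hE : 0 ≤ (1 + ε + 1 / (4 * ε)) * k2 * u ^ 2 := by positivity
  have hP : 0 ≤ p ^ 2 * u ^ 2 := by positivity
  rcases le_total 0 u with h0 | h0
  · rw [← hε']
    have h1 := zpl_U ε u p ((h - 2 * p) / 2) hε0 h0 hp (by nlinarith)
    have e1 : 1 + u + 2 * p + 2 * ((h - 2 * p) / 2) = 1 + u + h := by ring
    rw [e1] at h1
    linarith
  · rcases le_total h 0 with h1 | h1
    · have h2 := zneg_A p (-u) (-(h / 2)) s ξ k2 (by linarith) (by linarith) hp hp2 (by linarith)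
        hs (by linarith) hξ0 hξ hk2 (by rw [neg_sq]; exact hk)
      refine h2.trans (le_of_eq ?_)
      have e1 : (1 : ℝ) - -u = 1 + u := by ring
      rw [e1]
      ring
    · rw [← hε']
      have h2 := zpl_B ε (-u) p (h / 2) s 0 k2 (by linarith) (by linarith) (by linarith) hp hpε
        (by linarith) (by
          rcases hh with h | h
          · left; linarith
          · right; linarith) hs le_rfl (by linarith) hk2 (by rw [neg_sq]; exact hk)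
      have h3 : (ε - -u) * (h / 2 - p) ^ 2 + (-u - p) ^ 2 * (1 - -u + 2 * (h / 2)) +
          (1 + ε + 1 / (4 * ε)) * k2 * (-u) ^ 2 + p ^ 2 * (-u) ^ 2 =
          (ε + u) * ((h - 2 * p) / 2) ^ 2 + (u + p) ^ 2 * (1 + u + h) +
          (1 + ε + 1 / (4 * ε)) * k2 * u ^ 2 + p ^ 2 * u ^ 2 := by ring
      rw [h3] at h2
      linarith

/-- the pointwise bound of the product of the three messages, loss side, negative gain -/
theorem zneg_point (u p q ct h s k2 r ξ : ℝ) (hu0 : -1 ≤ u) (hu1 : u ≤ 1)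
    (hp : 0 ≤ p) (hpq : p + q = 2 * (1 + u + ct)) (hct : 2 * ct - r ≤ h)
    (hs : 0 ≤ s) (hhs : -(2 * s + ξ) ≤ h) (hcs : ct ≤ s + r / 2)
    (hk2 : 0 ≤ k2) (hk : s ^ 2 ≤ k2 * (1 - u ^ 2)) (hξ0 : 0 ≤ ξ) (hξr : ξ ≤ r)
    (hr1 : r ≤ 1) :
    (1 - u) * (p * q) ≤ (1 + r / 2) ^ 2 * (1 + u + h) +
      (1 + max (2 / 5) r) * ((h - r) / 2) ^ 2 +
      23 / 10 * (1 + r / 2) ^ 2 * k2 * u ^ 2 + (r / 2) ^ 2 * u ^ 2 +
      max (ξ - 1 / 10 * (1 + u)) 0 := by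
  have hr : 0 ≤ r := hξ0.trans hξr
  have hu : 0 ≤ 1 - u := by linarith
  have hD : ∀ h', -(2 * s + ξ) ≤ h' → (h' ≤ 2 * r ∨ h' / 2 ≤ s) →
      0 ≤ (max (2 / 5) r + u) * ((h' - r) / 2) ^ 2 + (u + r / 2) ^ 2 * (1 + u + h') +
        23 / 10 * (1 + r / 2) ^ 2 * k2 * u ^ 2 + (r / 2) ^ 2 * u ^ 2 +
        max (ξ - 1 / 10 * (1 + u)) 0 := by
    intro h' h1 h2
    have h3 := zneg_delta u (r / 2) h' s ξ k2 hu0 (by linarith) (by linarith) hs h1 (by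
      rcases h2 with h | h
      · left; linarith
      · right; exact h) hξ0 (by linarith) hk2 hk
    have e1 : 2 * (r / 2) = r := by ring
    rw [e1] at h3
    exact h3
  obtain ⟨ε, hε⟩ : ∃ ε, ε = max (2 / 5) r := ⟨_, rfl⟩
  obtain ⟨R, hR⟩ : ∃ R, R = 23 / 10 * (1 + r / 2) ^ 2 * k2 * u ^ 2 + (r / 2) ^ 2 * u ^ 2 +
        max (ξ - 1 / 10 * (1 + u)) 0 := ⟨_, rfl⟩
  have hε0 : 2 / 5 ≤ ε := by rw [hε]; exact le_max_left _ _
  have hR0 : 0 ≤ R := by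
    rw [hR]
    have : 0 ≤ max (ξ - 1 / 10 * (1 + u)) 0 := le_max_right _ _
    positivity
  -- the bound of the product by a square
  have hprod : ∀ c, ct ≤ c → (1 - u) * (p * q) ≤ (1 - u) * (1 + u + c) ^ 2 := by
    intro c hc
    apply mul_le_mul_of_nonneg_left _ hu
    rcases le_total 0 q with h1 | h1
    · have h2 : p * q ≤ ((p + q) / 2) ^ 2 := by nlinarith [sq_nonneg (p - q)]
      refine h2.trans ?_
      apply pow_le_pow_left₀ (by linarith)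
      linarith
    · have : p * q ≤ 0 := mul_nonpos_of_nonneg_of_nonpos hp h1
      exact this.trans (sq_nonneg _)
  have hid : ∀ c, (1 + r / 2) ^ 2 * (1 + u + (2 * c - r)) + (1 + ε) * ((2 * c - r - r) / 2) ^ 2 +
      R - (1 - u) * (1 + u + c) ^ 2 =
      (ε + u) * ((2 * c - r - r) / 2) ^ 2 +
        (u + r / 2) ^ 2 * (1 + u + (2 * c - r)) + R := by
    intro c
    ring
  have hgoal : (1 - u) * (p * q) ≤ (1 + r / 2) ^ 2 * (1 + u + h) +
      (1 + ε) * ((h - r) / 2) ^ 2 + R := by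
    rcases le_total h r with h0 | h0
    · -- `c = (h + r)/2`
      have h1 := hprod ((h + r) / 2) (by linarith)
      have h2 := hD h hhs (Or.inl (by linarith))
      have h3 := hid ((h + r) / 2)
      have e1 : 2 * ((h + r) / 2) - r = h := by ring
      rw [e1] at h3
      rw [← hε] at h2
      linarith
    · rcases le_total ct r with h1 | h1
      · -- `c = r`
        have h2 := hprod r h1
        have h3 := hid r
        have e1 : 2 * r - r = r := by ring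
        rw [e1] at h3
        have h4 : 0 ≤ (u + r / 2) ^ 2 * (1 + u + r) := mul_nonneg (sq_nonneg _) (by linarith)
        have h7 : (1 + r / 2) ^ 2 * (1 + u + r) ≤ (1 + r / 2) ^ 2 * (1 + u + h) :=
          mul_le_mul_of_nonneg_left (by linarith) (sq_nonneg _)
        have h8 : 0 ≤ (1 + ε) * ((h - r) / 2) ^ 2 := by positivity
        have e2 : (r - r) / 2 = 0 := by ring
        rw [e2] at h3
        nlinarith
      · -- `c = ct`
        have h2 := hprod ct le_rfl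
        have h3 := hid ct
        have h4 := hD (2 * ct - r) (by linarith) (Or.inr (by linarith))
        rw [← hε] at h4
        have h7 : (1 + r / 2) ^ 2 * (1 + u + (2 * ct - r)) ≤ (1 + r / 2) ^ 2 * (1 + u + h) :=
          mul_le_mul_of_nonneg_left (by linarith) (sq_nonneg _)
        have h8 : (1 + ε) * ((2 * ct - r - r) / 2) ^ 2 ≤ (1 + ε) * ((h - r) / 2) ^ 2 := by
          apply mul_le_mul_of_nonneg_left _ (by linarith)
          apply pow_le_pow_left₀ (by linarith)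
          linarith
        linarith
  rw [hR] at hgoal
  rw [← hε]
  linarith

end Pool.Agent.TSM
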