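import Pool.Agent.TSP.Basic

set_option autoImplicit false

/-!
# One-step lemmas for the majorant recursion (MP_d27362_co)

`S` is an antisymmetric kernel on `Fin m` with `|S i j| ≤ 1`; `mn f` is the mean of `f`,
`msg S s f = K^s f`, `K^s = 1 + s S`. A branch function is bounded by
`F ≤ M (1 + φ + G)` with `mn φ = 0` and a signed error `G`; its cost is `mn G + mn |G|`.
-/

namespace Pool.Agent.TSO

open Finset Pool.Agent.TSP

variable {m : ℕ}

/-- the mean value -/
noncomputable def mn (f : Fin m → ℝ) : ℝ := (∑ i, f i) / m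

/-- the message `K^s f` -/
noncomputable def msg (S : Fin m → Fin m → ℝ) (s : ℝ) (f : Fin m → ℝ) : Fin m → ℝ :=
  fun i => mn f + s * op S f i

theorem mn_mono {f g : Fin m → ℝ} (h : ∀ i, f i ≤ g i) : mn f ≤ mn g :=
  div_le_div_of_nonneg_right (Finset.sum_le_sum fun x _ => h x) (Nat.cast_nonneg _)

theorem mn_add (f g : Fin m → ℝ) : (mn fun i => f i + g i) = mn f + mn g := by
  simp only [mn, Finset.sum_add_distrib, add_div]

theorem mn_sub (f g : Fin m → ℝ) : (mn fun i => f i - g i) = mn f - mn g := by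
  simp only [mn, Finset.sum_sub_distrib, sub_div]

theorem mn_neg (f : Fin m → ℝ) : (mn fun i => - f i) = - mn f := by
  simp only [mn, Finset.sum_neg_distrib, neg_div]

theorem mn_mul (c : ℝ) (f : Fin m → ℝ) : (mn fun i => c * f i) = c * mn f := by
  simp only [mn, ← Finset.mul_sum, mul_div_assoc]

theorem mn_const (hm : 0 < m) (c : ℝ) : (mn fun _ : Fin m => c) = c := by
  have : (m : ℝ) ≠ 0 := by exact_mod_cast hm.ne'
  simp only [mn, sum_const, card_univ, nsmul_eq_mul, Fintype.card_fin]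
  field_simp

theorem mn_nonneg {f : Fin m → ℝ} (h : ∀ i, 0 ≤ f i) : 0 ≤ mn f :=
  div_nonneg (Finset.sum_nonneg fun x _ => h x) (Nat.cast_nonneg _)

theorem abs_mn (f : Fin m → ℝ) : |mn f| ≤ mn fun i => |f i| := by
  unfold mn
  rw [abs_div, abs_of_nonneg (Nat.cast_nonneg m : (0 : ℝ) ≤ _)]
  exact div_le_div_of_nonneg_right (Finset.abs_sum_le_sum_abs _ _) (Nat.cast_nonneg _)

theorem ip_eq_mn (f g : Fin m → ℝ) : ip f g = mn fun i => f i * g i := rfl

theorem ip_one (f : Fin m → ℝ) : ip f (fun _ => 1) = mn f := by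
  simp [ip, mn]

/-- Cauchy-Schwarz: the `L¹` norm is at most the `L²` norm -/
theorem mn_abs_le (hm : 0 < m) (f : Fin m → ℝ) : (mn fun i => |f i|) ≤ Real.sqrt (ip f f) := by
  apply Real.le_sqrt_of_sq_le
  have h := ip_sq_le (fun i => |f i|) (fun _ => (1 : ℝ))
  rw [ip_one] at h
  have h1 : ip (fun _ : Fin m => (1 : ℝ)) (fun _ => 1) = 1 := by
    rw [ip_one, mn_const hm]
  have h2 : ip (fun i => |f i|) (fun i => |f i|) = ip f f := by
    simp only [ip_eq_mn, abs_mul_abs_self]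
  rw [h1, h2, mul_one] at h
  exact h

theorem op_abs_le (S : Fin m → Fin m → ℝ) (h1 : ∀ i j, |S i j| ≤ 1) (f : Fin m → ℝ)
    (i : Fin m) : |op S f i| ≤ mn fun j => |f j| := by
  have h := abs_mn (fun j => S i j * f j)
  have e : op S f i = mn fun j => S i j * f j := rfl
  rw [e]
  refine h.trans (mn_mono fun j => ?_)
  rw [abs_mul]
  exact mul_le_of_le_one_left (abs_nonneg _) (h1 i j)

theorem msg_eq (S : Fin m → Fin m → ℝ) (s : ℝ) (f : Fin m → ℝ) (i : Fin m) :
    msg S s f i = mn fun j => (1 + s * S i j) * f j := by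
  have e : op S f i = mn fun j => S i j * f j := rfl
  rw [msg, e, ← mn_mul, ← mn_add]
  congr 1
  funext j
  ring

theorem ker_nonneg (S : Fin m → Fin m → ℝ) (h1 : ∀ i j, |S i j| ≤ 1) (s : ℝ)
    (hs : s = 1 ∨ s = -1) (i j : Fin m) : 0 ≤ 1 + s * S i j := by
  have := abs_le.1 (h1 i j)
  rcases hs with rfl | rfl <;> linarith [this.1, this.2]

theorem msg_mono (S : Fin m → Fin m → ℝ) (h1 : ∀ i j, |S i j| ≤ 1) (s : ℝ)
    (hs : s = 1 ∨ s = -1) {f g : Fin m → ℝ} (h : ∀ i, f i ≤ g i) (i : Fin m) :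
    msg S s f i ≤ msg S s g i := by
  rw [msg_eq, msg_eq]
  exact mn_mono fun j => mul_le_mul_of_nonneg_left (h j) (ker_nonneg S h1 s hs i j)

theorem msg_nonneg (S : Fin m → Fin m → ℝ) (h1 : ∀ i j, |S i j| ≤ 1) (s : ℝ)
    (hs : s = 1 ∨ s = -1) {f : Fin m → ℝ} (h : ∀ i, 0 ≤ f i) (i : Fin m) :
    0 ≤ msg S s f i := by
  rw [msg_eq]
  exact mn_nonneg fun j => mul_nonneg (ker_nonneg S h1 s hs i j) (h j)

/-- the operator `A` and the operator `S` -/
theorem op_aker (S : Fin m → Fin m → ℝ) (f : Fin m → ℝ) (i : Fin m) :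
    op (aker S) f i = op S f i - beta S i * mn f + ip (beta S) f := by
  have e1 : op (aker S) f i = mn fun j => (S i j - beta S i + beta S j) * f j := rfl
  have e2 : op S f i = mn fun j => S i j * f j := rfl
  rw [e1, e2, ip_eq_mn, ← mn_mul, ← mn_sub, ← mn_add]
  congr 1
  funext j
  ring

theorem op_one (S : Fin m → Fin m → ℝ) (i : Fin m) : op S (fun _ => 1) i = beta S i := rfl

/-- the linear step: a branch bounded by `M (1 + φ + G)`, seen through an edge -/
theorem lin_step (hm : 0 < m) (S : Fin m → Fin m → ℝ) (h1 : ∀ i j, |S i j| ≤ 1) (s : ℝ)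
    (hs : s = 1 ∨ s = -1) (F φ G : Fin m → ℝ) (M : ℝ) (hM : 0 ≤ M)
    (hb : ∀ i, F i ≤ M * (1 + φ i + G i)) (hφ : mn φ = 0) (i : Fin m) :
    msg S s F i ≤ M * (1 + ((mn G + mn fun j => |G j|) - s * ip (beta S) φ) +
      s * (beta S i + op (aker S) φ i)) := by
  refine (msg_mono S h1 s hs hb i).trans ?_
  have e : msg S s (fun j => M * (1 + φ j + G j)) i =
      M * (1 + mn φ + mn G + s * (beta S i + op S φ i + op S G i)) := by
    have hop : op S (fun j => M * (1 + φ j + G j)) i =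
        M * (beta S i + op S φ i + op S G i) := by
      have e1 : (fun j => M * (1 + φ j + G j)) = M • ((fun _ => (1 : ℝ)) + φ + G) := by
        funext j; simp
      rw [e1, op_smul, op_add, op_add]
      rfl
    have hmn : mn (fun j => M * (1 + φ j + G j)) = M * (1 + mn φ + mn G) := by
      rw [mn_mul, mn_add, mn_add, mn_const hm]
    unfold msg
    rw [hop, hmn]
    ring
  rw [e, op_aker, hφ]
  apply mul_le_mul_of_nonneg_left _ hM
  have h2 : s * op S G i ≤ mn fun j => |G j| := by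
    have := op_abs_le S h1 G i
    have h3 : |s * op S G i| ≤ mn fun j => |G j| := by
      rw [abs_mul]
      rcases hs with rfl | rfl
      · simpa using this
      · simpa using this
    exact (le_abs_self _).trans h3
  nlinarith [h2]

/-! ### Scarf's inequality and the unary step -/

/-- Scarf: `2 E (X - c)⁺ ≤ √(v + c²) - c` for `E X = 0`, `E X² ≤ v` -/
theorem scarf (hm : 0 < m) (X : Fin m → ℝ) (c v : ℝ) (hX : mn X = 0) (hv : ip X X ≤ v) :
    2 * (mn fun i => max (X i - c) 0) ≤ Real.sqrt (v + c ^ 2) - c := by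
  have h1 : ∀ i, 2 * max (X i - c) 0 = |X i - c| + (X i - c) := by
    intro i
    rcases le_total (X i - c) 0 with h | h
    · rw [max_eq_right h, abs_of_nonpos h]; ring
    · rw [max_eq_left h, abs_of_nonneg h]; ring
  have h2 : 2 * (mn fun i => max (X i - c) 0) = (mn fun i => |X i - c|) - c := by
    rw [← mn_mul]
    simp only [h1]
    rw [mn_add, mn_sub, mn_const hm, hX]
    ring
  rw [h2]
  have h3 := mn_abs_le hm (fun i => X i - c)
  have h4 : ip (fun i => X i - c) (fun i => X i - c) = ip X X + c ^ 2 := by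
    rw [ip_eq_mn, ip_eq_mn]
    have : (fun i => (X i - c) * (X i - c)) = fun i => (X i * X i + (-2 * c) * X i) + c ^ 2 := by
      funext i; ring
    rw [this, mn_add, mn_add, mn_mul, mn_const hm, hX]
    ring
  rw [h4] at h3
  have h5 : Real.sqrt (ip X X + c ^ 2) ≤ Real.sqrt (v + c ^ 2) :=
    Real.sqrt_le_sqrt (by linarith)
  linarith

/-- Scarf, other tail: `2 E (c - X)⁺ ≤ √(v + c²) + c` -/
theorem scarf' (hm : 0 < m) (X : Fin m → ℝ) (c v : ℝ) (hX : mn X = 0) (hv : ip X X ≤ v) :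
    2 * (mn fun i => max (c - X i) 0) ≤ Real.sqrt (v + c ^ 2) + c := by
  have h := scarf hm (fun i => - X i) (-c) v (by rw [mn_neg, hX, neg_zero]) (by
    have : ip (fun i => - X i) (fun i => - X i) = ip X X := by
      simp [ip_eq_mn]
    rw [this]; exact hv)
  have e : ∀ i, - X i - -c = c - X i := fun i => by ring
  simp only [e] at h
  have e2 : (-c) ^ 2 = c ^ 2 := by ring
  rw [e2] at h
  linarith

/-- the unary step, gain `ρ ≥ 0`, free parameter `l` -/
theorem one_gain (hm : 0 < m) (f ξ : Fin m → ℝ) (M ρ l δ : ℝ) (hM : 0 ≤ M) (hρ : 0 ≤ ρ)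
    (hl : l * ρ < 1) (hf : ∀ i, f i ≤ M * (1 - ρ + ξ i))
    (hξ : mn ξ = 0) (hδ : ip ξ ξ ≤ δ) :
    ∃ G : Fin m → ℝ, (∀ i, 0 ≤ G i) ∧ (∀ i, f i ≤ (M * (1 - l * ρ)) * (1 + ξ i + G i)) ∧
      2 * mn G ≤ ρ / (1 - l * ρ) * (Real.sqrt (l ^ 2 * δ + (1 - l) ^ 2) - (1 - l)) := by
  have hP : 0 < 1 - l * ρ := by linarith
  refine ⟨fun i => ρ / (1 - l * ρ) * max (l * ξ i - (1 - l)) 0, fun i => by positivity,
    fun i => ?_, ?_⟩
  · refine (hf i).trans ?_
    rw [mul_assoc]
    apply mul_le_mul_of_nonneg_left _ hM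
    have e : (1 - l * ρ) * (1 + ξ i + ρ / (1 - l * ρ) * max (l * ξ i - (1 - l)) 0) =
        (1 - l * ρ) * (1 + ξ i) + ρ * max (l * ξ i - (1 - l)) 0 := by
      field_simp
    rw [e]
    have h3 : l * ξ i - (1 - l) ≤ max (l * ξ i - (1 - l)) 0 := le_max_left _ _
    nlinarith [mul_le_mul_of_nonneg_left h3 hρ]
  · rw [mn_mul]
    have h := scarf hm (fun i => l * ξ i) (1 - l) (l ^ 2 * δ) (by rw [mn_mul, hξ, mul_zero]) (by
      have : ip (fun i => l * ξ i) (fun i => l * ξ i) = l ^ 2 * ip ξ ξ := by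
        rw [ip_eq_mn, ip_eq_mn, ← mn_mul]
        congr 1; funext i; ring
      rw [this]
      exact mul_le_mul_of_nonneg_left hδ (sq_nonneg _))
    calc 2 * (ρ / (1 - l * ρ) * mn fun i => max (l * ξ i - (1 - l)) 0)
        = ρ / (1 - l * ρ) * (2 * mn fun i => max (l * ξ i - (1 - l)) 0) := by ring
      _ ≤ _ := mul_le_mul_of_nonneg_left h (by positivity)

/-- the unary step, loss `ρ ≥ 0`, free parameter `l` -/
theorem one_loss (hm : 0 < m) (f ξ : Fin m → ℝ) (M ρ l δ : ℝ) (hM : 0 ≤ M) (hρ : 0 ≤ ρ)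
    (hl0 : 0 ≤ l) (hf : ∀ i, f i ≤ M * (1 + ρ + ξ i))
    (hξ : mn ξ = 0) (hδ : ip ξ ξ ≤ δ) :
    ∃ G : Fin m → ℝ, (∀ i, 0 ≤ G i) ∧ (∀ i, f i ≤ (M * (1 + l * ρ)) * (1 + ξ i + G i)) ∧
      2 * mn G ≤ ρ / (1 + l * ρ) * (Real.sqrt (l ^ 2 * δ + (1 - l) ^ 2) + (1 - l)) := by
  have hP : 0 < 1 + l * ρ := by positivity
  refine ⟨fun i => ρ / (1 + l * ρ) * max ((1 - l) - l * ξ i) 0, fun i => by positivity,
    fun i => ?_, ?_⟩
  · refine (hf i).trans ?_
    rw [mul_assoc]
    apply mul_le_mul_of_nonneg_left _ hM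
    have e : (1 + l * ρ) * (1 + ξ i + ρ / (1 + l * ρ) * max ((1 - l) - l * ξ i) 0) =
        (1 + l * ρ) * (1 + ξ i) + ρ * max ((1 - l) - l * ξ i) 0 := by
      field_simp
    rw [e]
    have h3 : (1 - l) - l * ξ i ≤ max ((1 - l) - l * ξ i) 0 := le_max_left _ _
    nlinarith [mul_le_mul_of_nonneg_left h3 hρ]
  · rw [mn_mul]
    have h := scarf' hm (fun i => l * ξ i) (1 - l) (l ^ 2 * δ) (by rw [mn_mul, hξ, mul_zero]) (by
      have : ip (fun i => l * ξ i) (fun i => l * ξ i) = l ^ 2 * ip ξ ξ := by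
        rw [ip_eq_mn, ip_eq_mn, ← mn_mul]
        congr 1; funext i; ring
      rw [this]
      exact mul_le_mul_of_nonneg_left hδ (sq_nonneg _))
    calc 2 * (ρ / (1 + l * ρ) * mn fun i => max ((1 - l) - l * ξ i) 0)
        = ρ / (1 + l * ρ) * (2 * mn fun i => max ((1 - l) - l * ξ i) 0) := by ring
      _ ≤ _ := mul_le_mul_of_nonneg_left h (by positivity)

end Pool.Agent.TSO
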