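import Mathlib

set_option autoImplicit false

/-!
# The fourth power: `(1 + (W - ρ)/4)^4 ≤ e^(-ρ) e^(μ w²) (1 + W + c W²)` for `ρ ≤ 2/3`, `W ≤ w`
(MP_d27362_co)
-/

namespace Pool.Agent.TSO

theorem exp_le_quad_neg {x : ℝ} (hx : x ≤ 0) : Real.exp x ≤ 1 + x + x ^ 2 / 2 := by
  have h := Real.quadratic_le_exp_of_nonneg (show 0 ≤ -x by linarith)
  -- exp (-x) ≥ 1 - x + x²/2, and (1 - x + x²/2)(1 + x + x²/2) = 1 + x⁴/4
  have h1 : 0 < 1 + x + x ^ 2 / 2 := by nlinarith [sq_nonneg (x + 1)]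
  have h2 : 1 ≤ Real.exp (-x) * (1 + x + x ^ 2 / 2) := by
    have h3 := mul_le_mul_of_nonneg_right h h1.le
    nlinarith [sq_nonneg (x ^ 2)]
  have h4 : Real.exp x * Real.exp (-x) = 1 := by rw [← Real.exp_add]; simp
  have h5 := mul_le_mul_of_nonneg_left h2 (Real.exp_nonneg x)
  calc Real.exp x = Real.exp x * 1 := (mul_one _).symm
    _ ≤ Real.exp x * (Real.exp (-x) * (1 + x + x ^ 2 / 2)) := h5
    _ = (Real.exp x * Real.exp (-x)) * (1 + x + x ^ 2 / 2) := by ring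
    _ = _ := by rw [h4, one_mul]

theorem exp_le_quart {x : ℝ} (h0 : 0 ≤ x) (h1 : x ≤ 1) :
    Real.exp x ≤ 1 + x + x ^ 2 / 2 + x ^ 3 / 6 + x ^ 4 * (5 / 96) := by
  have h := Real.exp_bound' h0 h1 (n := 4) (by norm_num)
  refine h.trans (le_of_eq ?_)
  simp [Finset.sum_range_succ, Nat.factorial]
  ring

theorem exp_two_thirds : Real.exp (2 / 3) ≤ 1948 / 1000 := by
  have h := Real.exp_bound' (show (0 : ℝ) ≤ 2 / 3 by norm_num) (by norm_num) (n := 5)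
    (by norm_num)
  refine h.trans ?_
  simp [Finset.sum_range_succ, Nat.factorial]
  norm_num

theorem pow_exp_le {x : ℝ} (h : 0 ≤ 1 + x / 4) : (1 + x / 4) ^ 4 ≤ Real.exp x := by
  have h1 : 1 + x / 4 ≤ Real.exp (x / 4) := by
    have := Real.add_one_le_exp (x / 4)
    linarith
  calc (1 + x / 4) ^ 4 ≤ Real.exp (x / 4) ^ 4 := pow_le_pow_left₀ h h1 4
    _ = Real.exp x := by rw [← Real.exp_nat_mul]; congr 1; push_cast; ring

/-- the general form -/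
theorem pow_four_gen {c μ : ℝ} (hc : 1 / 2 ≤ c) (hμ : 0 ≤ μ)
    (h1 : ∀ W : ℝ, 0 ≤ W → W ≤ 2 / 3 → Real.exp W ≤ Real.exp (μ * W ^ 2) * (1 + W + c * W ^ 2))
    (h2 : ∀ W : ℝ, 2 / 3 ≤ W → 1948 / 1000 * ((10 + 3 * W) / 12) ^ 4 ≤
      Real.exp (μ * W ^ 2) * (1 + W + c * W ^ 2)) (ρ u w : ℝ) (hρ : ρ ≤ 2 / 3) (hu : u ≤ w)
    (h0 : 0 ≤ 1 + (u - ρ) / 4) :
    (1 + (u - ρ) / 4) ^ 4 ≤ Real.exp (-ρ) * (Real.exp (μ * w ^ 2) * (1 + u + c * u ^ 2)) := by
  have hq : 0 ≤ 1 + u + c * u ^ 2 := by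
    have := mul_le_mul_of_nonneg_right hc (sq_nonneg u)
    nlinarith [sq_nonneg (u + 1)]
  -- it is enough to bound `(1 + (u - ρ)/4)^4 e^ρ`
  have key : (1 + (u - ρ) / 4) ^ 4 * Real.exp ρ ≤ Real.exp (μ * w ^ 2) * (1 + u + c * u ^ 2) := by
    rcases le_total u (2 / 3) with h3 | h3
    · have h4 : (1 + (u - ρ) / 4) ^ 4 * Real.exp ρ ≤ Real.exp u := by
        calc (1 + (u - ρ) / 4) ^ 4 * Real.exp ρ ≤ Real.exp (u - ρ) * Real.exp ρ :=
              mul_le_mul_of_nonneg_right (pow_exp_le h0) (Real.exp_nonneg _)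
          _ = Real.exp u := by rw [← Real.exp_add]; congr 1; ring
      refine h4.trans ?_
      rcases le_total u 0 with h5 | h5
      · have h6 := exp_le_quad_neg h5
        have h7 : 1 ≤ Real.exp (μ * w ^ 2) := Real.one_le_exp (by positivity)
        have h8 : 1 + u + u ^ 2 / 2 ≤ 1 + u + c * u ^ 2 := by
          have := mul_le_mul_of_nonneg_right hc (sq_nonneg u)
          linarith
        have h9 := mul_le_mul_of_nonneg_right h7 hq
        linarith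
      · refine (h1 u h5 h3).trans ?_
        refine mul_le_mul_of_nonneg_right (Real.exp_le_exp.2 ?_) hq
        apply mul_le_mul_of_nonneg_left _ hμ
        exact pow_le_pow_left₀ h5 hu 2
    · have hA : 0 ≤ (10 + 3 * u) / 12 := by linarith
      have hd : 0 ≤ (2 / 3 - ρ) / 4 := by linarith
      -- `(1 + (u - ρ)/4) e^(ρ/4) ≤ ((10 + 3 u)/12) e^(1/6)`
      have h4 : (1 + (u - ρ) / 4) ≤ (10 + 3 * u) / 12 * Real.exp ((2 / 3 - ρ) / 4) := by
        have h5 := Real.add_one_le_exp ((2 / 3 - ρ) / 4)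
        have h6 := mul_le_mul_of_nonneg_left h5 hA
        have h7 : 0 ≤ (2 / 3 - ρ) / 4 * ((10 + 3 * u) / 12 - 1) :=
          mul_nonneg hd (by linarith)
        nlinarith
      have h5 : (1 + (u - ρ) / 4) ^ 4 ≤ ((10 + 3 * u) / 12) ^ 4 * Real.exp (2 / 3 - ρ) := by
        calc (1 + (u - ρ) / 4) ^ 4 ≤ ((10 + 3 * u) / 12 * Real.exp ((2 / 3 - ρ) / 4)) ^ 4 :=
              pow_le_pow_left₀ h0 h4 4
          _ = _ := by
              rw [mul_pow, ← Real.exp_nat_mul]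
              congr 2
              push_cast
              ring
      have h6 : (1 + (u - ρ) / 4) ^ 4 * Real.exp ρ ≤ ((10 + 3 * u) / 12) ^ 4 * Real.exp (2 / 3) := by
        calc (1 + (u - ρ) / 4) ^ 4 * Real.exp ρ ≤
              (((10 + 3 * u) / 12) ^ 4 * Real.exp (2 / 3 - ρ)) * Real.exp ρ :=
              mul_le_mul_of_nonneg_right h5 (Real.exp_nonneg _)
          _ = ((10 + 3 * u) / 12) ^ 4 * (Real.exp (2 / 3 - ρ) * Real.exp ρ) := by ring
          _ = _ := by rw [← Real.exp_add]; congr 2; ring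
      have h7 := mul_le_mul_of_nonneg_left exp_two_thirds
        (show 0 ≤ ((10 + 3 * u) / 12) ^ 4 by positivity)
      have h8 := h2 u h3
      have h9 : Real.exp (μ * u ^ 2) * (1 + u + c * u ^ 2) ≤
          Real.exp (μ * w ^ 2) * (1 + u + c * u ^ 2) := by
        refine mul_le_mul_of_nonneg_right (Real.exp_le_exp.2 ?_) hq
        apply mul_le_mul_of_nonneg_left _ hμ
        exact pow_le_pow_left₀ (by linarith) hu 2
      linarith
  have h10 : (1 + (u - ρ) / 4) ^ 4 = Real.exp (-ρ) * ((1 + (u - ρ) / 4) ^ 4 * Real.exp ρ) := by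
    have : Real.exp (-ρ) * Real.exp ρ = 1 := by rw [← Real.exp_add]; simp
    calc (1 + (u - ρ) / 4) ^ 4 = (Real.exp (-ρ) * Real.exp ρ) * (1 + (u - ρ) / 4) ^ 4 := by
          rw [this, one_mul]
      _ = _ := by ring
  rw [h10]
  exact mul_le_mul_of_nonneg_left key (Real.exp_nonneg _)

/-- `(c, μ) = (7/10, 1/50)` -/
theorem pow_four_a (ρ u w : ℝ) (hρ : ρ ≤ 2 / 3) (hu : u ≤ w) (h0 : 0 ≤ 1 + (u - ρ) / 4) :
    (1 + (u - ρ) / 4) ^ 4 ≤
      Real.exp (-ρ) * (Real.exp (1 / 50 * w ^ 2) * (1 + u + 7 / 10 * u ^ 2)) := by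
  refine pow_four_gen (by norm_num) (by norm_num) (fun W h1 h2 => ?_) (fun W h1 => ?_) ρ u w hρ
    hu h0
  · have h3 := exp_le_quart h1 (by linarith)
    have h4 : 1 ≤ Real.exp (1 / 50 * W ^ 2) := Real.one_le_exp (by positivity)
    have h5 := mul_le_mul_of_nonneg_right h4 (show 0 ≤ 1 + W + 7 / 10 * W ^ 2 by positivity)
    have h6 : W ^ 2 / 2 + W ^ 3 / 6 + W ^ 4 * (5 / 96) ≤ 7 / 10 * W ^ 2 := by
      have : 0 ≤ W ^ 2 * (1 / 5 - W / 6 - W ^ 2 * (5 / 96)) :=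
        mul_nonneg (sq_nonneg W) (by nlinarith)
      nlinarith
    linarith
  · have h3 := Real.quadratic_le_exp_of_nonneg (show 0 ≤ 1 / 50 * W ^ 2 by positivity)
    have h4 := mul_le_mul_of_nonneg_right h3
      (show 0 ≤ 1 + W + 7 / 10 * W ^ 2 by nlinarith [sq_nonneg (W + 1)])
    refine le_trans ?_ h4
    have e : (1 + 1 / 50 * W ^ 2 + (1 / 50 * W ^ 2) ^ 2 / 2) * (1 + W + 7 / 10 * W ^ 2) -
        1948 / 1000 * ((10 + 3 * W) / 12) ^ 4 =
        (1/6358500000) * ((19625) * 1 + (-20625) * W ^ 1 + (1944) * W ^ 2 + (648) * W ^ 3) ^ 2 +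
    (1/68391777312000) * ((3025114) * W ^ 1 + (-823461) * W ^ 2 + (-20304) * W ^ 3) ^ 2 +
    (1/304778552072460824000000) * ((25187360879) * W ^ 2 + (-4145397632) * W ^ 3) ^ 2 +
    (14546962233/1259368043950000) * ((1) * W ^ 3) ^ 2 := by ring
    have h5 : 0 ≤ (1/6358500000) * ((19625) * 1 + (-20625) * W ^ 1 + (1944) * W ^ 2 + (648) * W ^ 3) ^ 2 +
    (1/68391777312000) * ((3025114) * W ^ 1 + (-823461) * W ^ 2 + (-20304) * W ^ 3) ^ 2 +
    (1/304778552072460824000000) * ((25187360879) * W ^ 2 + (-4145397632) * W ^ 3) ^ 2 +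
    (14546962233/1259368043950000) * ((1) * W ^ 3) ^ 2 := by positivity
    linarith

/-- `(c, μ) = (3/5, 17/500)` -/
theorem pow_four_b (ρ u w : ℝ) (hρ : ρ ≤ 2 / 3) (hu : u ≤ w) (h0 : 0 ≤ 1 + (u - ρ) / 4) :
    (1 + (u - ρ) / 4) ^ 4 ≤
      Real.exp (-ρ) * (Real.exp (17 / 500 * w ^ 2) * (1 + u + 3 / 5 * u ^ 2)) := by
  refine pow_four_gen (by norm_num) (by norm_num) (fun W h1 h2 => ?_) (fun W h1 => ?_) ρ u w hρ
    hu h0
  · have h3 := exp_le_quart h1 (by linarith)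
    have h4 : 1 + 17 / 500 * W ^ 2 ≤ Real.exp (17 / 500 * W ^ 2) := by
      have := Real.add_one_le_exp (17 / 500 * W ^ 2)
      linarith
    have h5 := mul_le_mul_of_nonneg_right h4 (show 0 ≤ 1 + W + 3 / 5 * W ^ 2 by positivity)
    have h6 : W ^ 2 / 2 + W ^ 3 / 6 + W ^ 4 * (5 / 96) ≤ 3 / 5 * W ^ 2 +
        17 / 500 * W ^ 2 * (1 + W) := by
      have : 0 ≤ W ^ 2 * (3 / 5 + 17 / 500 * (1 + W) - 1 / 2 - W / 6 - W ^ 2 * (5 / 96)) :=
        mul_nonneg (sq_nonneg W) (by nlinarith)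
      nlinarith
    have h7 : 0 ≤ 17 / 500 * W ^ 2 * (3 / 5 * W ^ 2) := by positivity
    nlinarith
  · have h3 := Real.quadratic_le_exp_of_nonneg (show 0 ≤ 17 / 500 * W ^ 2 by positivity)
    have h4 := mul_le_mul_of_nonneg_right h3
      (show 0 ≤ 1 + W + 3 / 5 * W ^ 2 by nlinarith [sq_nonneg (W + 1)])
    refine le_trans ?_ h4
    have e : (1 + 17 / 500 * W ^ 2 + (17 / 500 * W ^ 2) ^ 2 / 2) * (1 + W + 3 / 5 * W ^ 2) -
        1948 / 1000 * ((10 + 3 * W) / 12) ^ 4 =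
        (1/254340000) * ((3925) * 1 + (-4125) * W ^ 1 + (972) * W ^ 2) ^ 2 +
    (1/15235124256000) * ((673882) * W ^ 1 + (-406149) * W ^ 2 + (-22608) * W ^ 3) ^ 2 +
    (7/857954585351336000000) * ((318288137) * W ^ 2 + (-120798344) * W ^ 3) ^ 2 +
    (154524028319/795720342500000) * ((1) * W ^ 3) ^ 2 := by ring
    have h5 : 0 ≤ (1/254340000) * ((3925) * 1 + (-4125) * W ^ 1 + (972) * W ^ 2) ^ 2 +
    (1/15235124256000) * ((673882) * W ^ 1 + (-406149) * W ^ 2 + (-22608) * W ^ 3) ^ 2 +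
    (7/857954585351336000000) * ((318288137) * W ^ 2 + (-120798344) * W ^ 3) ^ 2 +
    (154524028319/795720342500000) * ((1) * W ^ 3) ^ 2 := by positivity
    linarith

end Pool.Agent.TSO
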