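import Pool.Agent.TSO.RuleE

set_option autoImplicit false

/-!
# Rule E with the constants `1/2`, `1/10` (MP_d27362_co)

`exp u ≤ exp (w²/10) (1 + u + u²/2)` for `u ≤ w`.
-/

namespace Pool.Agent.TSO

/-- the function `log (1 + x + x²/2) - x + x²/10` -/
noncomputable def hf (x : ℝ) : ℝ := Real.log (1 + x + 1 / 2 * x ^ 2) - x + 1 / 10 * x ^ 2

lemma hf_pos (x : ℝ) : 0 < 1 + x + 1 / 2 * x ^ 2 := by nlinarith [sq_nonneg (x + 1)]

lemma hf_deriv (x : ℝ) : HasDerivAt hf
    (x * (x - 1) * (x - 2) / (5 * (2 + 2 * x + x ^ 2))) x := by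
  have h1 : HasDerivAt (fun x : ℝ => 1 + x + 1 / 2 * x ^ 2) (1 + x) x :=
    HasDerivAt.congr_deriv (((hasDerivAt_id' x).const_add 1).add ((hd_sq x).const_mul (1 / 2)))
      (by ring)
  have h2 := h1.log (hf_pos x).ne'
  have h3 : HasDerivAt (fun x : ℝ => 1 / 10 * x ^ 2) (1 / 5 * x) x :=
    HasDerivAt.congr_deriv ((hd_sq x).const_mul (1 / 10)) (by ring)
  refine HasDerivAt.congr_deriv ((h2.sub (hasDerivAt_id' x)).add h3) ?_
  have hp := hf_pos x
  have hq : 0 < 2 + 2 * x + x ^ 2 := by linarith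
  obtain ⟨q, hqd⟩ : ∃ q, q = 2 + 2 * x + x ^ 2 := ⟨_, rfl⟩
  have e : 1 + x + 1 / 2 * x ^ 2 = q / 2 := by rw [hqd]; ring
  rw [← hqd] at hq
  have hne := hq.ne'
  rw [e, ← hqd]
  have h4 : (1 + x) / (q / 2) - 1 + 1 / 5 * x = (10 * (1 + x) - 5 * q + x * q) / (5 * q) := by
    field_simp
    ring
  have h5 : 10 * (1 + x) - 5 * q + x * q = x * (x - 1) * (x - 2) := by rw [hqd]; ring
  rw [h4, h5]

lemma hf_cont (s : Set ℝ) : ContinuousOn hf s := fun x _ =>
  (hf_deriv x).continuousAt.continuousWithinAt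

lemma hf_den (x : ℝ) : 0 < 5 * (2 + 2 * x + x ^ 2) := by nlinarith [sq_nonneg (x + 1)]

lemma hf_two : 0 ≤ hf 2 := by
  unfold hf
  have h1 : (8 / 5 : ℝ) ≤ Real.log 5 := by
    have h2 : (8 : ℝ) ≤ Real.log (5 ^ 5) := by
      rw [Real.le_log_iff_exp_le (by norm_num)]
      have h3 : Real.exp 8 = Real.exp 1 ^ 8 := by
        rw [← Real.exp_nat_mul]; norm_num
      rw [h3]
      have h4 := Real.exp_one_lt_d9
      have h5 : Real.exp 1 ^ 8 ≤ (2.7182818286 : ℝ) ^ 8 :=
        pow_le_pow_left₀ (Real.exp_pos 1).le h4.le 8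
      refine h5.trans (by norm_num)
    rw [Real.log_pow] at h2
    push_cast at h2
    linarith
  have e : (1 : ℝ) + 2 + 1 / 2 * 2 ^ 2 = 5 := by norm_num
  rw [e]
  linarith

lemma hf_nonneg (u : ℝ) (hu : 0 ≤ u) : 0 ≤ hf u := by
  have h0 : hf 0 = 0 := by unfold hf; norm_num
  rcases le_total u 1 with h1 | h1
  · have hm : MonotoneOn hf (Set.Icc 0 1) := by
      apply monotoneOn_of_deriv_nonneg (convex_Icc 0 1) (hf_cont _)
      · intro x _
        exact (hf_deriv x).differentiableAt.differentiableWithinAt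
      · intro x hx
        rw [interior_Icc] at hx
        rw [(hf_deriv x).deriv]
        refine div_nonneg ?_ (hf_den x).le
        nlinarith [mul_nonneg hx.1.le (mul_nonneg (sub_nonneg.2 hx.2.le)
          (show 0 ≤ 2 - x by linarith [hx.2]))]
    have := hm (Set.mem_Icc.2 ⟨le_rfl, by norm_num⟩) (Set.mem_Icc.2 ⟨hu, h1⟩) hu
    rwa [h0] at this
  · rcases le_total u 2 with h2 | h2
    · have hm : AntitoneOn hf (Set.Icc 1 2) := by
        apply antitoneOn_of_deriv_nonpos (convex_Icc 1 2) (hf_cont _)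
        · intro x _
          exact (hf_deriv x).differentiableAt.differentiableWithinAt
        · intro x hx
          rw [interior_Icc] at hx
          rw [(hf_deriv x).deriv]
          refine div_nonpos_of_nonpos_of_nonneg ?_ (hf_den x).le
          nlinarith [mul_nonneg (show 0 ≤ x by linarith [hx.1])
            (mul_nonneg (sub_nonneg.2 hx.1.le) (sub_nonneg.2 hx.2.le))]
      exact hf_two.trans (hm (Set.mem_Icc.2 ⟨h1, h2⟩) (Set.mem_Icc.2 ⟨by norm_num, le_rfl⟩) h2)
    · have hm : MonotoneOn hf (Set.Ici 2) := by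
        apply monotoneOn_of_deriv_nonneg (convex_Ici 2) (hf_cont _)
        · intro x _
          exact (hf_deriv x).differentiableAt.differentiableWithinAt
        · intro x hx
          rw [interior_Ici, Set.mem_Ioi] at hx
          rw [(hf_deriv x).deriv]
          refine div_nonneg ?_ (hf_den x).le
          exact mul_nonneg (mul_nonneg (by linarith) (by linarith)) (by linarith)
      exact hf_two.trans (hm (Set.mem_Ici.2 le_rfl) (Set.mem_Ici.2 h2) h2)

/-- `exp (u - u²/10) ≤ 1 + u + u²/2` for `u ≥ 0` -/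
theorem exp_half (u : ℝ) (hu : 0 ≤ u) :
    Real.exp (u - 1 / 10 * u ^ 2) ≤ 1 + u + 1 / 2 * u ^ 2 := by
  have h := hf_nonneg u hu
  unfold hf at h
  calc Real.exp (u - 1 / 10 * u ^ 2) ≤ Real.exp (Real.log (1 + u + 1 / 2 * u ^ 2)) := by
        apply Real.exp_le_exp.2; linarith
    _ = _ := Real.exp_log (hf_pos u)

/-- **Rule E with `c = 1/2`, `μ = 1/10`** -/
theorem exp_le_half (u w : ℝ) (huw : u ≤ w) :
    Real.exp u ≤ Real.exp (1 / 10 * w ^ 2) * (1 + u + 1 / 2 * u ^ 2) := by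
  have hp := hf_pos u
  rcases le_total u 0 with h | h
  · have h1 := exp_le_neg u h
    have h2 : 1 ≤ Real.exp (1 / 10 * w ^ 2) := Real.one_le_exp (by positivity)
    nlinarith
  · have h1 := exp_half u h
    have h2 : u ^ 2 ≤ w ^ 2 := pow_le_pow_left₀ h huw 2
    calc Real.exp u = Real.exp (1 / 10 * u ^ 2) * Real.exp (u - 1 / 10 * u ^ 2) := by
          rw [← Real.exp_add]; congr 1; ring
      _ ≤ Real.exp (1 / 10 * w ^ 2) * (1 + u + 1 / 2 * u ^ 2) := by
          apply mul_le_mul _ h1 (Real.exp_pos _).le (Real.exp_pos _).le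
          exact Real.exp_le_exp.2 (by linarith)

end Pool.Agent.TSO
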