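import Pool.Agent.TSO.ZpcReal

set_option autoImplicit false

/-!
# Rule (Z*): the step {leaf, 2-path, branch} without `ρ²` cost (MP_d27362_co)

`(1-u)(1+u+c)² ≤ M (1 + W) + A h² + E κ² u²`, `h = 2 c + ρ`, `W = u + h`, `A = 7/20`,
`M` close to `exp (-9 ρ / 10)`, `E` linear in `ρ` and `0` for `ρ = R`.
-/

namespace Pool.Agent.TSO

/-- the function at `ρ = R = 3/10` plus the correction, `s = R (R - ρ)` -/
theorem zstar_Z (u c s : ℝ) (hu : -1 ≤ u) (hc : c ≤ 2) (hg : 0 ≤ 1 + u + c)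
    (hs : 0 ≤ s) (hs1 : s ≤ 9 / 100) :
    0 ≤ u ^ 2 * (1 + u) + 2 * c * u ^ 2 + c ^ 2 * (2 / 5 + u) + 2379 / 100000 -
      2367 / 10000 * u - 534 / 10000 * c + s * (-(42 / 1000) + 37 / 30 * s) -
      s * (37 / 100 * u + 74 / 100 * c) := by
  rcases le_total 0 u with h | h
  · rcases le_total 0 c with h1 | h1
    · have e : u ^ 2 * (1 + u) + 2 * c * u ^ 2 + c ^ 2 * (2 / 5 + u) + 2379 / 100000 -
          2367 / 10000 * u - 534 / 10000 * c + s * (-(42 / 1000) + 37 / 30 * s) -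
          s * (37 / 100 * u + 74 / 100 * c) =
          (u - (2367 / 10000 + 37 / 100 * s) / 2) ^ 2 +
          2 / 5 * (c - (534 / 10000 + 74 / 100 * s) / (4 / 5)) ^ 2 +
          (u ^ 3 + 2 * c * u ^ 2 + u * c ^ 2) +
          (2379 / 100000 - (2367 / 10000 + 37 / 100 * s) ^ 2 / 4 -
            (534 / 10000 + 74 / 100 * s) ^ 2 * (5 / 8) + s * (-(42 / 1000) + 37 / 30 * s)) := by
        ring
      rw [e]
      have h2 : 0 ≤ 2379 / 100000 - (2367 / 10000 + 37 / 100 * s) ^ 2 / 4 -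
            (534 / 10000 + 74 / 100 * s) ^ 2 * (5 / 8) +
            s * (-(42 / 1000) + 37 / 30 * s) := by
        nlinarith [sq_nonneg (s - 79 / 1000)]
      have h3 : 0 ≤ u ^ 3 + 2 * c * u ^ 2 + u * c ^ 2 := by positivity
      positivity
    · have e : u ^ 2 * (1 + u) + 2 * c * u ^ 2 + c ^ 2 * (2 / 5 + u) + 2379 / 100000 -
          2367 / 10000 * u - 534 / 10000 * c + s * (-(42 / 1000) + 37 / 30 * s) -
          s * (37 / 100 * u + 74 / 100 * c) =
          (u - (2367 / 10000 + 37 / 100 * s) / 2) ^ 2 + 2 / 5 * c ^ 2 + u * (u + c) ^ 2 +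
          (-c) * (534 / 10000 + 74 / 100 * s) +
          (2379 / 100000 - (2367 / 10000 + 37 / 100 * s) ^ 2 / 4 +
            s * (-(42 / 1000) + 37 / 30 * s)) := by
        ring
      rw [e]
      have h2 : 0 ≤ 2379 / 100000 - (2367 / 10000 + 37 / 100 * s) ^ 2 / 4 +
            s * (-(42 / 1000) + 37 / 30 * s) := by
        nlinarith [sq_nonneg (s - 36 / 1000)]
      have h3 : 0 ≤ u * (u + c) ^ 2 := by positivity
      have h4 : 0 ≤ (-c) * (534 / 10000 + 74 / 100 * s) :=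
        mul_nonneg (by linarith) (by positivity)
      positivity
  · obtain ⟨v, rfl⟩ : ∃ v, u = -v := ⟨-u, by ring⟩
    have hv : 0 ≤ v := by linarith
    have hv1 : v ≤ 1 := by linarith
    rcases le_total 0 c with h1 | h1
    · have e : (-v) ^ 2 * (1 + -v) + 2 * c * (-v) ^ 2 + c ^ 2 * (2 / 5 + -v) + 2379 / 100000 -
          2367 / 10000 * (-v) - 534 / 10000 * c + s * (-(42 / 1000) + 37 / 30 * s) -
          s * (37 / 100 * (-v) + 74 / 100 * c) =
          v ^ 2 * (1 - v) + 2 * c * (v - c / 4) ^ 2 + c ^ 2 * (2 - c) / 8 +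
          v * (2367 / 10000 + 37 / 100 * s) +
          3 / 20 * (c - (534 / 10000 + 74 / 100 * s) * (10 / 3)) ^ 2 +
          (2379 / 100000 - (534 / 10000 + 74 / 100 * s) ^ 2 * (5 / 3) +
            s * (-(42 / 1000) + 37 / 30 * s)) := by
        ring
      rw [e]
      have h2 : 0 ≤ 2379 / 100000 - (534 / 10000 + 74 / 100 * s) ^ 2 * (5 / 3) +
            s * (-(42 / 1000) + 37 / 30 * s) := by
        nlinarith [mul_nonneg hs (by linarith : 0 ≤ 9 / 100 - s)]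
      have h3 : 0 ≤ v ^ 2 * (1 - v) := mul_nonneg (sq_nonneg v) (by linarith)
      have h4 : 0 ≤ c ^ 2 * (2 - c) / 8 := by
        have := mul_nonneg (sq_nonneg c) (by linarith : 0 ≤ 2 - c)
        linarith
      have h5 : 0 ≤ v * (2367 / 10000 + 37 / 100 * s) := by positivity
      positivity
    · obtain ⟨a, rfl⟩ : ∃ a, c = -a := ⟨-c, by ring⟩
      have ha : 0 ≤ a := by linarith
      have hav : a ≤ 1 - v := by linarith
      -- the value at `s = 0`
      have hQ : 36 / 100000 ≤ v ^ 2 * (1 - v) - 2 * a * v ^ 2 + a ^ 2 * (2 / 5 - v) +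
          2379 / 100000 + 2367 / 10000 * v + 534 / 10000 * a := by
        rcases le_total v (2 / 5) with h2 | h2
        · have h3 : 0 ≤ a ^ 2 * (2 / 5 - v) := mul_nonneg (sq_nonneg a) (by linarith)
          have h4 : a * v ^ 2 ≤ (1 - v) * v ^ 2 :=
            mul_le_mul_of_nonneg_right hav (sq_nonneg v)
          have h5 : v * (1 - v) ≤ 6 / 25 := by nlinarith
          have h6 : v * (v * (1 - v)) ≤ v * (6 / 25) := mul_le_mul_of_nonneg_left h5 hv
          nlinarith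
        · rcases eq_or_lt_of_le hv1 with h3 | h3
          · have : a = 0 := by linarith
            subst this
            subst h3
            norm_num
          · have hw : 0 < 1 - v := by linarith
            have h4 : 0 ≤ (1 - v) * (v ^ 2 * (1 - v) - 2 * a * v ^ 2 + a ^ 2 * (2 / 5 - v) +
                2379 / 100000 + 2367 / 10000 * v + 534 / 10000 * a - 36 / 100000) := by
              have e : (1 - v) * (v ^ 2 * (1 - v) - 2 * a * v ^ 2 + a ^ 2 * (2 / 5 - v) +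
                2379 / 100000 + 2367 / 10000 * v + 534 / 10000 * a - 36 / 100000) =
                ((1 - v) - a) * (v ^ 2 * (1 - v) + 2343 / 100000 + 2367 / 10000 * v) +
                a * (7 / 5 * (v - 5774 / 10000) ^ 2 + (47719 / 100000 - 36 / 100000 -
                  7 / 5 * (5774 / 10000) ^ 2 + (14 / 5 * (5774 / 10000) -
                    16167 / 10000) * v)) +
                (v - 2 / 5) * (a * ((1 - v) - a) * (1 - v)) := by
                ring
              rw [e]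
              have h5 : 0 ≤ v ^ 2 * (1 - v) := mul_nonneg (sq_nonneg v) hw.le
              have h6 : 0 ≤ 7 / 5 * (v - 5774 / 10000) ^ 2 + (47719 / 100000 - 36 / 100000 -
                  7 / 5 * (5774 / 10000) ^ 2 + (14 / 5 * (5774 / 10000) -
                    16167 / 10000) * v) := by
                nlinarith [sq_nonneg (v - 5774 / 10000)]
              have h7 : 0 ≤ (1 - v) - a := by linarith
              have h8 : 0 ≤ v - 2 / 5 := by linarith
              positivity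
            have := nonneg_of_mul_nonneg_right h4 hw
            linarith
      have e : (-v) ^ 2 * (1 + -v) + 2 * (-a) * (-v) ^ 2 + (-a) ^ 2 * (2 / 5 + -v) +
          2379 / 100000 -
          2367 / 10000 * (-v) - 534 / 10000 * (-a) + s * (-(42 / 1000) + 37 / 30 * s) -
          s * (37 / 100 * (-v) + 74 / 100 * (-a)) =
          (v ^ 2 * (1 - v) - 2 * a * v ^ 2 + a ^ 2 * (2 / 5 - v) +
          2379 / 100000 + 2367 / 10000 * v + 534 / 10000 * a) +
          s * (37 / 100 * v + 74 / 100 * a) + s * (-(42 / 1000) + 37 / 30 * s) := by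
        ring
      rw [e]
      have h2 : 0 ≤ s * (37 / 100 * v + 74 / 100 * a) := by positivity
      nlinarith [sq_nonneg (s - 17 / 1000)]

/-- **rule (Z\*)**, `ρ ≤ 3/10` -/
theorem zstar (u c ρ k2 : ℝ) (hρ : 0 ≤ ρ) (hR : ρ ≤ 3 / 10) (hu : |u| ≤ 1) (hk2 : 0 ≤ k2)
    (hk : c < 0 → c ^ 2 ≤ k2 * (1 - u ^ 2)) (hc : c ≤ 2) (h1 : 0 ≤ 1 + u + c) :
    (1 - u) * (1 + u + c) ^ 2 ≤
      (1 - 9 / 10 * ρ + 37 / 100 * ρ ^ 2) * (1 + u + (2 * c + ρ)) +
        7 / 20 * (2 * c + ρ) ^ 2 + (81 / 40 - 27 / 4 * ρ) * k2 * u ^ 2 := by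
  have h0 := zpc_real (2 / 5) u c 0 k2 (by norm_num) le_rfl hu hk2 hk (by linarith) h1
  have hZ := zstar_Z u c (3 / 10 * (3 / 10 - ρ)) (abs_le.1 hu).1 hc h1
    (mul_nonneg (by norm_num) (by linarith)) (by linarith)
  have e : (1 - 9 / 10 * ρ + 37 / 100 * ρ ^ 2) * (1 + u + (2 * c + ρ)) +
        7 / 20 * (2 * c + ρ) ^ 2 + (81 / 40 - 27 / 4 * ρ) * k2 * u ^ 2 -
        (1 - u) * (1 + u + c) ^ 2 =
      (1 - 10 / 3 * ρ) * (u ^ 2 * (1 + u + 2 * c) + u * c ^ 2 + 2 / 5 * c ^ 2 +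
        81 / 40 * k2 * u ^ 2) +
      10 / 3 * ρ * (u ^ 2 * (1 + u) + 2 * c * u ^ 2 + c ^ 2 * (2 / 5 + u) + 2379 / 100000 -
      2367 / 10000 * u - 534 / 10000 * c + (3 / 10 * (3 / 10 - ρ)) * (-(42 / 1000) +
        37 / 30 * (3 / 10 * (3 / 10 - ρ))) -
      (3 / 10 * (3 / 10 - ρ)) * (37 / 100 * u + 74 / 100 * c)) := by
    ring
  have h2 : 0 ≤ (1 - 10 / 3 * ρ) * (u ^ 2 * (1 + u + 2 * c) + u * c ^ 2 + 2 / 5 * c ^ 2 +
        81 / 40 * k2 * u ^ 2) := by
    refine mul_nonneg (by linarith) ?_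
    norm_num at h0
    linarith
  have h3 := mul_nonneg (by positivity : 0 ≤ 10 / 3 * ρ) hZ
  linarith

/-- the function at `ρ = R = 1/3` plus the correction, `s = R (R - ρ)` -/
theorem zstar_Z3 (u c s : ℝ) (hu : -1 ≤ u) (hc : c ≤ 2) (hg : 0 ≤ 1 + u + c)
    (hs : 0 ≤ s) (hs1 : s ≤ 1 / 9) :
    0 ≤ u ^ 2 * (1 + u) + 2 * c * u ^ 2 + c ^ 2 * (2 / 5 + u) + 71 / 2700 -
      467 / 1800 * u - 47 / 900 * c + s * (-(7 / 120) + 219 / 200 * s) -
      s * (73 / 200 * u + 73 / 100 * c) := by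
  rcases le_total 0 u with h | h
  · rcases le_total 0 c with h1 | h1
    · have e : u ^ 2 * (1 + u) + 2 * c * u ^ 2 + c ^ 2 * (2 / 5 + u) + 71 / 2700 -
          467 / 1800 * u - 47 / 900 * c + s * (-(7 / 120) + 219 / 200 * s) -
          s * (73 / 200 * u + 73 / 100 * c) =
          (u - (467 / 1800 - 3 * (7 / 50) ^ 2 + 73 / 200 * s) / 2) ^ 2 +
          2 / 5 * (c - (47 / 900 + 73 / 100 * s) / (4 / 5)) ^ 2 +
          ((u - 7 / 50) ^ 2 * (u + 14 / 50) + 2 * c * u ^ 2 + u * c ^ 2) +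
          (71 / 2700 - 2 * (7 / 50) ^ 3 -
            (467 / 1800 - 3 * (7 / 50) ^ 2 + 73 / 200 * s) ^ 2 / 4 -
            (47 / 900 + 73 / 100 * s) ^ 2 * (5 / 8) + s * (-(7 / 120) + 219 / 200 * s)) := by
        ring
      rw [e]
      have h2 : 0 ≤ 71 / 2700 - 2 * (7 / 50) ^ 3 -
            (467 / 1800 - 3 * (7 / 50) ^ 2 + 73 / 200 * s) ^ 2 / 4 -
            (47 / 900 + 73 / 100 * s) ^ 2 * (5 / 8) +
            s * (-(7 / 120) + 219 / 200 * s) := by
        nlinarith [sq_nonneg (s - 98 / 1000)]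
      have h3 : 0 ≤ (u - 7 / 50) ^ 2 * (u + 14 / 50) + 2 * c * u ^ 2 + u * c ^ 2 := by
        positivity
      positivity
    · have e : u ^ 2 * (1 + u) + 2 * c * u ^ 2 + c ^ 2 * (2 / 5 + u) + 71 / 2700 -
          467 / 1800 * u - 47 / 900 * c + s * (-(7 / 120) + 219 / 200 * s) -
          s * (73 / 200 * u + 73 / 100 * c) =
          (u - (467 / 1800 + 73 / 200 * s) / 2) ^ 2 + 2 / 5 * c ^ 2 + u * (u + c) ^ 2 +
          (-c) * (47 / 900 + 73 / 100 * s) +
          (71 / 2700 - (467 / 1800 + 73 / 200 * s) ^ 2 / 4 +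
            s * (-(7 / 120) + 219 / 200 * s)) := by
        ring
      rw [e]
      have h2 : 0 ≤ 71 / 2700 - (467 / 1800 + 73 / 200 * s) ^ 2 / 4 +
            s * (-(7 / 120) + 219 / 200 * s) := by
        nlinarith [sq_nonneg (s - 50 / 1000)]
      have h3 : 0 ≤ u * (u + c) ^ 2 := by positivity
      have h4 : 0 ≤ (-c) * (47 / 900 + 73 / 100 * s) :=
        mul_nonneg (by linarith) (by positivity)
      positivity
  · obtain ⟨v, rfl⟩ : ∃ v, u = -v := ⟨-u, by ring⟩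
    have hv : 0 ≤ v := by linarith
    have hv1 : v ≤ 1 := by linarith
    rcases le_total 0 c with h1 | h1
    · have e : (-v) ^ 2 * (1 + -v) + 2 * c * (-v) ^ 2 + c ^ 2 * (2 / 5 + -v) + 71 / 2700 -
          467 / 1800 * (-v) - 47 / 900 * c + s * (-(7 / 120) + 219 / 200 * s) -
          s * (73 / 200 * (-v) + 73 / 100 * c) =
          v ^ 2 * (1 - v) + 2 * c * (v - c / 4) ^ 2 + c ^ 2 * (2 - c) / 8 +
          v * (467 / 1800 + 73 / 200 * s) +
          3 / 20 * (c - (47 / 900 + 73 / 100 * s) * (10 / 3)) ^ 2 +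
          (71 / 2700 - (47 / 900 + 73 / 100 * s) ^ 2 * (5 / 3) +
            s * (-(7 / 120) + 219 / 200 * s)) := by
        ring
      rw [e]
      have h2 : 0 ≤ 71 / 2700 - (47 / 900 + 73 / 100 * s) ^ 2 * (5 / 3) +
            s * (-(7 / 120) + 219 / 200 * s) := by
        nlinarith [mul_nonneg hs (by linarith : 0 ≤ 1 / 9 - s)]
      have h3 : 0 ≤ v ^ 2 * (1 - v) := mul_nonneg (sq_nonneg v) (by linarith)
      have h4 : 0 ≤ c ^ 2 * (2 - c) / 8 := by
        have := mul_nonneg (sq_nonneg c) (by linarith : 0 ≤ 2 - c)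
        linarith
      have h5 : 0 ≤ v * (467 / 1800 + 73 / 200 * s) := by positivity
      positivity
    · obtain ⟨a, rfl⟩ : ∃ a, c = -a := ⟨-c, by ring⟩
      have ha : 0 ≤ a := by linarith
      have hav : a ≤ 1 - v := by linarith
      have hQ : 1 / 1000 ≤ v ^ 2 * (1 - v) - 2 * a * v ^ 2 + a ^ 2 * (2 / 5 - v) +
          71 / 2700 + 467 / 1800 * v + 47 / 900 * a := by
        rcases le_total v (2 / 5) with h2 | h2
        · have h3 : 0 ≤ a ^ 2 * (2 / 5 - v) := mul_nonneg (sq_nonneg a) (by linarith)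
          have h4 : a * v ^ 2 ≤ (1 - v) * v ^ 2 :=
            mul_le_mul_of_nonneg_right hav (sq_nonneg v)
          have h5 : v * (1 - v) ≤ 6 / 25 := by nlinarith
          have h6 : v * (v * (1 - v)) ≤ v * (6 / 25) := mul_le_mul_of_nonneg_left h5 hv
          nlinarith
        · rcases eq_or_lt_of_le hv1 with h3 | h3
          · have : a = 0 := by linarith
            subst this
            subst h3
            norm_num
          · have hw : 0 < 1 - v := by linarith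
            have h4 : 0 ≤ (1 - v) * (v ^ 2 * (1 - v) - 2 * a * v ^ 2 + a ^ 2 * (2 / 5 - v) +
                71 / 2700 + 467 / 1800 * v + 47 / 900 * a - 1 / 1000) := by
              have e : (1 - v) * (v ^ 2 * (1 - v) - 2 * a * v ^ 2 + a ^ 2 * (2 / 5 - v) +
                71 / 2700 + 467 / 1800 * v + 47 / 900 * a - 1 / 1000) =
                ((1 - v) - a) * (v ^ 2 * (1 - v) + (71 / 2700 - 1 / 1000) + 467 / 1800 * v) +
                a * (7 / 5 * v ^ 2 - (9 / 5 - 467 / 1800 + 47 / 900) * v +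
                  (2 / 5 + 71 / 2700 + 47 / 900 - 1 / 1000)) +
                (v - 2 / 5) * (a * ((1 - v) - a) * (1 - v)) := by
                ring
              rw [e]
              have h5 : 0 ≤ v ^ 2 * (1 - v) := mul_nonneg (sq_nonneg v) hw.le
              have h6 : 0 ≤ 7 / 5 * v ^ 2 - (9 / 5 - 467 / 1800 + 47 / 900) * v +
                  (2 / 5 + 71 / 2700 + 47 / 900 - 1 / 1000) := by
                nlinarith [sq_nonneg (v - 57 / 100)]
              have h7 : 0 ≤ (1 - v) - a := by linarith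
              have h8 : 0 ≤ v - 2 / 5 := by linarith
              have h9 : (0 : ℝ) ≤ 71 / 2700 - 1 / 1000 := by norm_num
              positivity
            have := nonneg_of_mul_nonneg_right h4 hw
            linarith
      have e : (-v) ^ 2 * (1 + -v) + 2 * (-a) * (-v) ^ 2 + (-a) ^ 2 * (2 / 5 + -v) +
          71 / 2700 -
          467 / 1800 * (-v) - 47 / 900 * (-a) + s * (-(7 / 120) + 219 / 200 * s) -
          s * (73 / 200 * (-v) + 73 / 100 * (-a)) =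
          (v ^ 2 * (1 - v) - 2 * a * v ^ 2 + a ^ 2 * (2 / 5 - v) +
          71 / 2700 + 467 / 1800 * v + 47 / 900 * a) +
          s * (73 / 200 * v + 73 / 100 * a) + s * (-(7 / 120) + 219 / 200 * s) := by
        ring
      rw [e]
      have h2 : 0 ≤ s * (73 / 200 * v + 73 / 100 * a) := by positivity
      nlinarith [sq_nonneg (s - 27 / 1000)]

/-- **rule (Z\*)**, `ρ ≤ 1/3` -/
theorem zstar3 (u c ρ k2 : ℝ) (hρ : 0 ≤ ρ) (hR : ρ ≤ 1 / 3) (hu : |u| ≤ 1) (hk2 : 0 ≤ k2)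
    (hk : c < 0 → c ^ 2 ≤ k2 * (1 - u ^ 2)) (hc : c ≤ 2) (h1 : 0 ≤ 1 + u + c) :
    (1 - u) * (1 + u + c) ^ 2 ≤
      (1 - 9 / 10 * ρ + 73 / 200 * ρ ^ 2) * (1 + u + (2 * c + ρ)) +
        7 / 20 * (2 * c + ρ) ^ 2 + (81 / 40 - 243 / 40 * ρ) * k2 * u ^ 2 := by
  have h0 := zpc_real (2 / 5) u c 0 k2 (by norm_num) le_rfl hu hk2 hk (by linarith) h1
  have hZ := zstar_Z3 u c (1 / 3 * (1 / 3 - ρ)) (abs_le.1 hu).1 hc h1
    (mul_nonneg (by norm_num) (by linarith)) (by linarith)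
  have e : (1 - 9 / 10 * ρ + 73 / 200 * ρ ^ 2) * (1 + u + (2 * c + ρ)) +
        7 / 20 * (2 * c + ρ) ^ 2 + (81 / 40 - 243 / 40 * ρ) * k2 * u ^ 2 -
        (1 - u) * (1 + u + c) ^ 2 =
      (1 - 3 * ρ) * (u ^ 2 * (1 + u + 2 * c) + u * c ^ 2 + 2 / 5 * c ^ 2 +
        81 / 40 * k2 * u ^ 2) +
      3 * ρ * (u ^ 2 * (1 + u) + 2 * c * u ^ 2 + c ^ 2 * (2 / 5 + u) + 71 / 2700 -
      467 / 1800 * u - 47 / 900 * c + (1 / 3 * (1 / 3 - ρ)) * (-(7 / 120) +
        219 / 200 * (1 / 3 * (1 / 3 - ρ))) -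
      (1 / 3 * (1 / 3 - ρ)) * (73 / 200 * u + 73 / 100 * c)) := by
    ring
  have h2 : 0 ≤ (1 - 3 * ρ) * (u ^ 2 * (1 + u + 2 * c) + u * c ^ 2 + 2 / 5 * c ^ 2 +
        81 / 40 * k2 * u ^ 2) := by
    refine mul_nonneg (by linarith) ?_
    norm_num at h0
    linarith
  have h3 := mul_nonneg (by positivity : 0 ≤ 3 * ρ) hZ
  linarith

/-- `M ≤ exp (-9 ρ / 10)`, `ρ ≤ 3/10` -/
theorem zstar_exp (ρ : ℝ) (hρ : 0 ≤ ρ) (hR : ρ ≤ 3 / 10) :
    1 - 9 / 10 * ρ + 37 / 100 * ρ ^ 2 ≤ Real.exp (-(9 / 10 * ρ)) ∧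
      763 / 1000 ≤ 1 - 9 / 10 * ρ + 37 / 100 * ρ ^ 2 := by
  have hM : 763 / 1000 ≤ 1 - 9 / 10 * ρ + 37 / 100 * ρ ^ 2 := by
    nlinarith [mul_nonneg hρ (by linarith : 0 ≤ 3 / 10 - ρ)]
  refine ⟨?_, hM⟩
  have h := Real.exp_bound' (x := 9 / 10 * ρ) (by positivity) (by linarith) (n := 5)
    (by norm_num)
  simp only [Finset.sum_range_succ, Finset.sum_range_zero, Nat.factorial] at h
  norm_num at h
  rw [Real.exp_neg, le_inv_comm₀ (by linarith) (Real.exp_pos _)]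
  refine h.trans ?_
  rw [le_inv_comm₀ (by positivity) (by linarith), inv_eq_one_div,
    le_div_iff₀ (by positivity)]
  have h1 : 0 ≤ ρ ^ 2 * (3 / 10 - ρ) := mul_nonneg (sq_nonneg ρ) (by linarith)
  have h2 : 0 ≤ ρ ^ 3 * (3 / 10 - ρ) := mul_nonneg (by positivity) (by linarith)
  have h3 : 0 ≤ ρ ^ 4 * (3 / 10 - ρ) := mul_nonneg (by positivity) (by linarith)
  have h4 : 0 ≤ ρ ^ 5 * (3 / 10 - ρ) := mul_nonneg (by positivity) (by linarith)
  have h5 : 0 ≤ ρ ^ 6 * (3 / 10 - ρ) := mul_nonneg (by positivity) (by linarith)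
  nlinarith [sq_nonneg ρ, pow_nonneg hρ 3, pow_nonneg hρ 4]

/-- `M ≤ exp (-9 ρ / 10)`, `ρ ≤ 1/3` -/
theorem zstar3_exp (ρ : ℝ) (hρ : 0 ≤ ρ) (hR : ρ ≤ 1 / 3) :
    1 - 9 / 10 * ρ + 73 / 200 * ρ ^ 2 ≤ Real.exp (-(9 / 10 * ρ)) ∧
      37 / 50 ≤ 1 - 9 / 10 * ρ + 73 / 200 * ρ ^ 2 := by
  have hM : 37 / 50 ≤ 1 - 9 / 10 * ρ + 73 / 200 * ρ ^ 2 := by
    nlinarith [mul_nonneg hρ (by linarith : 0 ≤ 1 / 3 - ρ)]
  refine ⟨?_, hM⟩
  have h := Real.exp_bound' (x := 9 / 10 * ρ) (by positivity) (by linarith) (n := 5)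
    (by norm_num)
  simp only [Finset.sum_range_succ, Finset.sum_range_zero, Nat.factorial] at h
  norm_num at h
  rw [Real.exp_neg, le_inv_comm₀ (by linarith) (Real.exp_pos _)]
  refine h.trans ?_
  rw [le_inv_comm₀ (by positivity) (by linarith), inv_eq_one_div,
    le_div_iff₀ (by positivity)]
  have h1 : 0 ≤ ρ ^ 2 * (1 / 3 - ρ) := mul_nonneg (sq_nonneg ρ) (by linarith)
  have h2 : 0 ≤ ρ ^ 3 * (1 / 3 - ρ) := mul_nonneg (by positivity) (by linarith)
  have h3 : 0 ≤ ρ ^ 4 * (1 / 3 - ρ) := mul_nonneg (by positivity) (by linarith)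
  have h4 : 0 ≤ ρ ^ 5 * (1 / 3 - ρ) := mul_nonneg (by positivity) (by linarith)
  have h5 : 0 ≤ ρ ^ 6 * (1 / 3 - ρ) := mul_nonneg (by positivity) (by linarith)
  nlinarith [sq_nonneg ρ, pow_nonneg hρ 3, pow_nonneg hρ 4]

end Pool.Agent.TSO
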