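import Pool.Agent.TSO.Lin

set_option autoImplicit false

/-!
# Products of messages (MP_d27362_co)
-/

namespace Pool.Agent.TSO

open Finset Pool.Agent.TSP

variable {m : ℕ}

/-- AM-GM for a finite set of children -/
theorem amgm {V : Type} (s : Finset V) (a : V → ℝ) (ha : ∀ i ∈ s, 0 ≤ a i) (k : ℕ)
    (hk : s.card = k) (hk0 : 0 < k) : ∏ i ∈ s, a i ≤ ((∑ i ∈ s, a i) / k) ^ k := by
  have hkR : (0 : ℝ) < k := by exact_mod_cast hk0
  have h := Real.geom_mean_le_arith_mean_weighted s (fun _ => 1 / (k : ℝ)) a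
    (fun i _ => by positivity) (by rw [sum_const, hk, nsmul_eq_mul]; field_simp) ha
  have h2 : ∏ i ∈ s, a i ^ (1 / (k : ℝ)) = (∏ i ∈ s, a i) ^ (1 / (k : ℝ)) := by
    rw [Real.finsetProd_rpow s a ha]
  rw [h2] at h
  have h3 : ∑ i ∈ s, 1 / (k : ℝ) * a i = (∑ i ∈ s, a i) / k := by
    rw [← mul_sum]; ring
  rw [h3] at h
  have h0 : 0 ≤ ∏ i ∈ s, a i := prod_nonneg ha
  have h4 : ((∏ i ∈ s, a i) ^ (1 / (k : ℝ))) ^ k = ∏ i ∈ s, a i := by
    rw [← Real.rpow_natCast, ← Real.rpow_mul h0]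
    rw [one_div_mul_cancel hkR.ne', Real.rpow_one]
  calc ∏ i ∈ s, a i = ((∏ i ∈ s, a i) ^ (1 / (k : ℝ))) ^ k := h4.symm
    _ ≤ _ := pow_le_pow_left₀ (Real.rpow_nonneg h0 _) h k

/-- `((1+v)^k - 1 - k v) = v² Σ_{j<k-1} (k-1-j) (1+v)^j` -/
theorem pow_expand (v : ℝ) (k : ℕ) :
    (1 + v) ^ (k + 1) = 1 + (k + 1) * v + v ^ 2 * ∑ j ∈ range k, ((k : ℝ) - j) * (1 + v) ^ j := by
  induction k with
  | zero => simp
  | succ k ih =>
    have h1 : ∑ j ∈ range (k + 1), (((k + 1 : ℕ) : ℝ) - j) * (1 + v) ^ j =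
        ∑ j ∈ range k, ((k : ℝ) - j) * (1 + v) ^ j + ∑ j ∈ range (k + 1), (1 + v) ^ j := by
      rw [sum_range_succ, sum_range_succ (fun j => (1 + v) ^ j), ← add_assoc, ← sum_add_distrib]
      congr 1
      · refine sum_congr rfl fun j _ => ?_
        push_cast
        ring
      · push_cast
        ring
    have h2 : v * ∑ j ∈ range (k + 1), (1 + v) ^ j = (1 + v) ^ (k + 1) - 1 := by
      have := mul_geom_sum (1 + v) (k + 1)
      rw [← this]
      ring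
    rw [h1, mul_add, pow_succ, mul_add, mul_one, ih]
    have h3 : v ^ 2 * ∑ j ∈ range (k + 1), (1 + v) ^ j = v * ((1 + v) ^ (k + 1) - 1) := by
      rw [← h2]; ring
    rw [h3, ih]
    push_cast
    ring

/-- the quadratic upper bound of `(1+v)^k` on `[-1, w]` -/
theorem pow_le_quad (v w : ℝ) (k : ℕ) (hv : -1 ≤ v) (hvw : v ≤ w) (hw : 0 < w) :
    (1 + v) ^ (k + 1) ≤ 1 + (k + 1) * v + (((1 + w) ^ (k + 1) - 1 - (k + 1) * w) / w ^ 2) * v ^ 2 := by
  have h1 : ((1 + w) ^ (k + 1) - 1 - (k + 1) * w) / w ^ 2 =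
      ∑ j ∈ range k, ((k : ℝ) - j) * (1 + w) ^ j := by
    rw [pow_expand w k]
    field_simp
    ring
  rw [h1, pow_expand v k]
  have h2 : ∑ j ∈ range k, ((k : ℝ) - j) * (1 + v) ^ j ≤
      ∑ j ∈ range k, ((k : ℝ) - j) * (1 + w) ^ j := by
    refine sum_le_sum fun j hj => ?_
    have : (j : ℝ) ≤ k := by exact_mod_cast (mem_range.1 hj).le
    apply mul_le_mul_of_nonneg_left _ (by linarith)
    exact pow_le_pow_left₀ (by linarith) (by linarith) j
  nlinarith [mul_le_mul_of_nonneg_left h2 (sq_nonneg v)]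

/-- the AM-GM step for `k` children; `r` is the net gain per child, `c` a quadratic constant -/
theorem multi_step (hm : 0 < m) {V : Type} (s : Finset V) (k : ℕ) (hk : s.card = k) (hk0 : 0 < k)
    (b : V → Fin m → ℝ) (M ρ : V → ℝ) (η : V → Fin m → ℝ) (hM : ∀ i ∈ s, 0 < M i)
    (hb0 : ∀ i ∈ s, ∀ y, 0 ≤ b i y) (hb : ∀ i ∈ s, ∀ y, b i y ≤ M i * (1 + ρ i + η i y))
    (r : ℝ) (hr : ∑ i ∈ s, ρ i = - (k * r)) (hr1 : r < 1) (W : Fin m → ℝ)
    (hW : ∀ y, W y = ∑ i ∈ s, η i y) (hW0 : mn W = 0) (v : ℝ) (hv : ip W W ≤ v) (c : ℝ)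
    (hc0 : 0 ≤ c)
    (hc : ∀ y, 0 ≤ 1 + W y / (1 - r) / k → (1 + W y / (1 - r) / k) ^ k ≤ 1 + W y / (1 - r) + c * (W y / (1 - r)) ^ 2) :
    ∃ G : Fin m → ℝ, (∀ y, ∏ i ∈ s, b i y ≤ ((∏ i ∈ s, M i) * (1 - r) ^ k) * (1 + W y + G y)) ∧
      mn G ≤ c * v / (1 - r) ^ 2 ∧
      (mn fun y => |G y|) ≤ |r| / (1 - r) * Real.sqrt v + c * v / (1 - r) ^ 2 := by
  have hkR : (0 : ℝ) < k := by exact_mod_cast hk0
  have hr0 : 0 < 1 - r := by linarith
  have hP : 0 < ∏ i ∈ s, M i := prod_pos hM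
  have hsq : (mn fun y => W y * W y) ≤ v := hv
  refine ⟨fun y => r / (1 - r) * W y + c / (1 - r) ^ 2 * (W y * W y), fun y => ?_, ?_, ?_⟩
  · have ha : ∀ i ∈ s, 0 ≤ 1 + ρ i + η i y := by
      intro i hi
      have h1 := (hb0 i hi y).trans (hb i hi y)
      by_contra h
      push Not at h
      have := mul_neg_of_pos_of_neg (hM i hi) h
      linarith
    have h1 : ∏ i ∈ s, b i y ≤ (∏ i ∈ s, M i) * ∏ i ∈ s, (1 + ρ i + η i y) := by
      rw [← prod_mul_distrib]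
      exact prod_le_prod (fun i hi => hb0 i hi y) (fun i hi => hb i hi y)
    have h2 := amgm s (fun i => 1 + ρ i + η i y) ha k hk hk0
    have hsum : (∑ i ∈ s, (1 + ρ i + η i y)) / k = (1 - r) * (1 + W y / (1 - r) / k) := by
      rw [sum_add_distrib, sum_add_distrib, hr, ← hW y, sum_const, hk, nsmul_eq_mul]
      field_simp
      ring
    have hnn : 0 ≤ (∑ i ∈ s, (1 + ρ i + η i y)) / k := div_nonneg (sum_nonneg ha) hkR.le
    rw [hsum] at h2 hnn
    have hnn' : 0 ≤ 1 + W y / (1 - r) / k := by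
      by_contra h
      push Not at h
      have := mul_neg_of_pos_of_neg hr0 h
      linarith
    rw [mul_pow] at h2
    have h3 := hc y hnn'
    have hpk : 0 < (1 - r) ^ k := pow_pos hr0 k
    calc ∏ i ∈ s, b i y ≤ (∏ i ∈ s, M i) * ((1 - r) ^ k * (1 + W y / (1 - r) / k) ^ k) :=
          h1.trans (mul_le_mul_of_nonneg_left h2 hP.le)
      _ ≤ (∏ i ∈ s, M i) * ((1 - r) ^ k * (1 + W y / (1 - r) + c * (W y / (1 - r)) ^ 2)) := by
          gcongr
      _ = ((∏ i ∈ s, M i) * (1 - r) ^ k) *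
          (1 + W y + (r / (1 - r) * W y + c / (1 - r) ^ 2 * (W y * W y))) := by
          field_simp
          ring
  · rw [mn_add, mn_mul, mn_mul, hW0]
    have : c / (1 - r) ^ 2 * (mn fun y => W y * W y) ≤ c / (1 - r) ^ 2 * v :=
      mul_le_mul_of_nonneg_left hsq (by positivity)
    calc r / (1 - r) * 0 + c / (1 - r) ^ 2 * (mn fun y => W y * W y) ≤ c / (1 - r) ^ 2 * v := by
          linarith
      _ = _ := by ring
  · have h1 : ∀ y, |r / (1 - r) * W y + c / (1 - r) ^ 2 * (W y * W y)| ≤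
        |r| / (1 - r) * |W y| + c / (1 - r) ^ 2 * (W y * W y) := by
      intro y
      refine (abs_add_le _ _).trans ?_
      rw [abs_mul, abs_div, abs_of_pos hr0, abs_of_nonneg (a := c / (1 - r) ^ 2 * (W y * W y))
        (mul_nonneg (by positivity) (mul_self_nonneg _))]
    refine (mn_mono h1).trans ?_
    rw [mn_add, mn_mul, mn_mul]
    have h2 : (mn fun y => |W y|) ≤ Real.sqrt v :=
      (mn_abs_le hm W).trans (Real.sqrt_le_sqrt hv)
    have h3 : c / (1 - r) ^ 2 * (mn fun y => W y * W y) ≤ c / (1 - r) ^ 2 * v :=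
      mul_le_mul_of_nonneg_left hsq (by positivity)
    have h4 : |r| / (1 - r) * (mn fun y => |W y|) ≤ |r| / (1 - r) * Real.sqrt v :=
      mul_le_mul_of_nonneg_left h2 (by positivity)
    calc _ ≤ |r| / (1 - r) * Real.sqrt v + c / (1 - r) ^ 2 * v := by linarith
      _ = _ := by ring

/-- the quadratic constant on `[-k, w]` -/
theorem quad_const (u w : ℝ) (k : ℕ) (hk : 0 < k) (hu : 0 ≤ 1 + u / k) (huw : u ≤ w) (hw : 0 < w) :
    (1 + u / k) ^ k ≤ 1 + u + (((1 + w / k) ^ k - 1 - w) / w ^ 2) * u ^ 2 := by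
  obtain ⟨j, rfl⟩ : ∃ j, k = j + 1 := ⟨k - 1, by omega⟩
  have hkR : (0 : ℝ) < ((j + 1 : ℕ) : ℝ) := by positivity
  have h := pow_le_quad (u / ((j + 1 : ℕ) : ℝ)) (w / ((j + 1 : ℕ) : ℝ)) j (by linarith)
    (div_le_div_of_nonneg_right huw hkR.le) (by positivity)
  refine h.trans (le_of_eq ?_)
  have e : ((j : ℝ) + 1) = ((j + 1 : ℕ) : ℝ) := by push_cast; ring
  rw [e]
  field_simp

/-- `c = 1/4` for two children -/
theorem quad_two (u : ℝ) : (1 + u / (2 : ℕ)) ^ 2 ≤ 1 + u + 1 / 4 * u ^ 2 := by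
  push_cast
  nlinarith

end Pool.Agent.TSO
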