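import Mathlib

set_option autoImplicit false

/-!
# Real-variable facts for the closure (MP_d27362_co)

`pay`: the division of the error by `1 - λ ρ` is paid by the logarithm.
`sqrt_tangent`: the Scarf loss is below its tangent.
`hfun a r = -log(1-r) - a r²/(2(1-r))` is concave on `[0,1)` for `a ≥ 1`.
-/

namespace Pool.Agent.TSO

open Finset

/-- five terms of the logarithm series -/
theorem log_five (z : ℝ) (h0 : 0 ≤ z) (h1 : z < 1) :
    z + z ^ 2 * (1 / 2 + z / 3 + z ^ 2 / 4 + z ^ 3 / 5) ≤ -Real.log (1 - z) := by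
  have h := Real.hasSum_pow_div_log_of_abs_lt_one (x := z) (by rw [abs_of_nonneg h0]; exact h1)
  have h2 := sum_le_hasSum (range 5) (fun i _ => by positivity) h
  refine le_trans (le_of_eq ?_) h2
  simp only [sum_range_succ, sum_range_zero]
  push_cast
  ring

/-- the payment inequality, general form -/
theorem pay_gen (z κ : ℝ) (h0 : 0 ≤ z) (h1 : z < 1)
    (hκ : κ ≤ (1 - z) * (1 / 2 + z / 3 + z ^ 2 / 4 + z ^ 3 / 5)) :
    κ * z ^ 2 / (1 - z) ≤ -Real.log (1 - z) - z := by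
  have h := log_five z h0 h1
  have h3 : κ * z ^ 2 / (1 - z) ≤ z ^ 2 * (1 / 2 + z / 3 + z ^ 2 / 4 + z ^ 3 / 5) := by
    rw [div_le_iff₀ (by linarith)]
    nlinarith [mul_le_mul_of_nonneg_right hκ (sq_nonneg z)]
  linarith

/-- payment for `z ≤ 1/2`, `κ ≤ 3/8` -/
theorem pay_half (z κ : ℝ) (h0 : 0 ≤ z) (h1 : z ≤ 1 / 2) (hκ : κ ≤ 3 / 8) :
    κ * z ^ 2 / (1 - z) ≤ -Real.log (1 - z) - z := by
  apply pay_gen z κ h0 (by linarith)
  refine hκ.trans ?_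
  have e : (1 - z) * (1 / 2 + z / 3 + z ^ 2 / 4 + z ^ 3 / 5) =
      1 / 2 - z / 6 - z ^ 2 / 12 - z ^ 3 / 20 - z ^ 4 / 5 := by ring
  rw [e]
  have h2 : z ^ 2 ≤ 1 / 4 := by nlinarith
  have h3 : z ^ 3 ≤ 1 / 8 := by nlinarith [mul_nonneg h0 (sq_nonneg z)]
  have h4 : z ^ 4 ≤ 1 / 16 := by nlinarith [sq_nonneg z, sq_nonneg (z ^ 2)]
  linarith

/-- payment for `z ≤ 1/4`, `κ ≤ 4/9` -/
theorem pay_quarter (z κ : ℝ) (h0 : 0 ≤ z) (h1 : z ≤ 1 / 4) (hκ : κ ≤ 4 / 9) :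
    κ * z ^ 2 / (1 - z) ≤ -Real.log (1 - z) - z := by
  apply pay_gen z κ h0 (by linarith)
  refine hκ.trans ?_
  have e : (1 - z) * (1 / 2 + z / 3 + z ^ 2 / 4 + z ^ 3 / 5) =
      1 / 2 - z / 6 - z ^ 2 / 12 - z ^ 3 / 20 - z ^ 4 / 5 := by ring
  rw [e]
  have h2 : z ^ 2 ≤ 1 / 16 := by nlinarith
  have h3 : z ^ 3 ≤ 1 / 64 := by nlinarith [mul_nonneg h0 (sq_nonneg z)]
  have h4 : z ^ 4 ≤ 1 / 256 := by nlinarith [sq_nonneg z, sq_nonneg (z ^ 2)]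
  linarith

/-- tangent line of the square root -/
theorem sqrt_tangent (x s : ℝ) (hx : 0 ≤ x) (hs : 0 < s) :
    Real.sqrt x ≤ s + (x - s ^ 2) / (2 * s) := by
  have h := Real.sq_sqrt hx
  have h2 : s + (x - s ^ 2) / (2 * s) = (x + s ^ 2) / (2 * s) := by field_simp; ring
  rw [h2, le_div_iff₀ (by positivity)]
  nlinarith [sq_nonneg (Real.sqrt x - s)]

/-- the Scarf loss `√(λ²δ + (1-λ)²)` with `λ = 1/(1+δ₀)` is below its tangent at `δ₀` -/
theorem scarf_tangent (δ₀ δ s : ℝ) (h0 : 0 ≤ δ₀) (hδ : 0 ≤ δ) (hs : 0 < s)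
    (hs2 : s ^ 2 = δ₀ / (1 + δ₀)) :
    Real.sqrt ((1 / (1 + δ₀)) ^ 2 * δ + (1 - 1 / (1 + δ₀)) ^ 2) ≤
      s + (1 / (1 + δ₀)) ^ 2 / (2 * s) * (δ - δ₀) := by
  have hp : 0 < 1 + δ₀ := by linarith
  refine (sqrt_tangent _ s (by positivity) hs).trans (le_of_eq ?_)
  have e : s ^ 2 = (1 / (1 + δ₀)) ^ 2 * δ₀ + (1 - 1 / (1 + δ₀)) ^ 2 := by
    rw [hs2]; field_simp; ring
  rw [e]
  ring

/-- `-log(1-r) - a r²/(2(1-r))` -/
noncomputable def hfun (a r : ℝ) : ℝ := -Real.log (1 - r) - a * r ^ 2 / (2 * (1 - r))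

theorem hfun_zero (a : ℝ) : hfun a 0 = 0 := by simp [hfun]

theorem hfun_deriv (a r : ℝ) (hr : r < 1) :
    HasDerivAt (hfun a) (1 / (1 - r) + a / 2 - a / 2 * (1 / (1 - r)) ^ 2) r := by
  have hne : (1 - r) ≠ 0 := by linarith
  have h1 : HasDerivAt (fun x : ℝ => 1 - x) (-1) r := by
    simpa using (hasDerivAt_id' r).const_sub 1
  have h2 := h1.log hne
  have h3 : HasDerivAt (fun x : ℝ => x ^ 2) (2 * r) r := by simpa using hasDerivAt_pow 2 r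
  have h4 := ((h3.const_mul a).div (h1.const_mul 2) (by simpa using hne))
  have h5 := h2.neg.sub h4
  refine HasDerivAt.congr_deriv h5 ?_
  field_simp
  ring

theorem hfun_deriv_anti (a r₁ r₂ : ℝ) (ha : 1 ≤ a) (h0 : 0 ≤ r₁) (h12 : r₁ ≤ r₂) (h2 : r₂ < 1) :
    1 / (1 - r₂) + a / 2 - a / 2 * (1 / (1 - r₂)) ^ 2 ≤
      1 / (1 - r₁) + a / 2 - a / 2 * (1 / (1 - r₁)) ^ 2 := by
  have hy1 : 1 ≤ 1 / (1 - r₁) := by
    rw [le_div_iff₀ (by linarith)]; linarith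
  have hy : 1 / (1 - r₁) ≤ 1 / (1 - r₂) :=
    one_div_le_one_div_of_le (by linarith) (by linarith)
  set y₁ := 1 / (1 - r₁)
  set y₂ := 1 / (1 - r₂)
  have h3 : 0 ≤ a / 2 * (y₁ + y₂) - 1 := by nlinarith
  nlinarith [mul_nonneg (sub_nonneg.2 hy) h3]

theorem hfun_concave (a : ℝ) (ha : 1 ≤ a) : ConcaveOn ℝ (Set.Ico 0 1) (hfun a) := by
  apply AntitoneOn.concaveOn_of_deriv (convex_Ico 0 1)
  · intro x hx
    exact (hfun_deriv a x hx.2).continuousAt.continuousWithinAt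
  · intro x hx
    rw [interior_Ico] at hx
    exact (hfun_deriv a x hx.2).differentiableAt.differentiableWithinAt
  · intro x hx y hy hxy
    rw [interior_Ico] at hx hy
    rw [(hfun_deriv a x hx.2).deriv, (hfun_deriv a y hy.2).deriv]
    exact hfun_deriv_anti a x y ha hx.1.le hxy hy.2

/-- chord bound: `h_a(r) ≥ (r/R) h_a(R)` on `[0,R]` -/
theorem hfun_chord (a r R : ℝ) (ha : 1 ≤ a) (h0 : 0 ≤ r) (hrR : r ≤ R) (hR : 0 < R) (hR1 : R < 1) :
    r / R * hfun a R ≤ hfun a r := by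
  have hRm : R ∈ Set.Ico (0 : ℝ) 1 := ⟨hR.le, hR1⟩
  have h0m : (0 : ℝ) ∈ Set.Ico (0 : ℝ) 1 := ⟨le_rfl, one_pos⟩
  have hw1 : 0 ≤ r / R := div_nonneg h0 hR.le
  have hw2 : 0 ≤ 1 - r / R := by rw [sub_nonneg, div_le_one hR]; exact hrR
  have h := (hfun_concave a ha).2 hRm h0m hw1 hw2 (by ring)
  simp only [smul_eq_mul, mul_zero, add_zero, hfun_zero] at h
  rwa [div_mul_cancel₀ _ hR.ne'] at h

/-- `h_1(r) ≥ r` for `r ≤ 0` -/
theorem hfun_neg (r : ℝ) (hr : r ≤ 0) : r ≤ hfun 1 r := by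
  have hd : ∀ x : ℝ, x ≤ 0 → HasDerivAt (fun x => hfun 1 x - x)
      ((1 / (1 - x) + 1 / 2 - 1 / 2 * (1 / (1 - x)) ^ 2) - 1) x := by
    intro x hx
    exact (hfun_deriv 1 x (by linarith)).sub (hasDerivAt_id' x)
  have hanti : AntitoneOn (fun x => hfun 1 x - x) (Set.Iic 0) := by
    apply antitoneOn_of_deriv_nonpos (convex_Iic 0)
    · intro x hx
      exact (hd x hx).continuousAt.continuousWithinAt
    · intro x hx
      rw [interior_Iic] at hx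
      exact (hd x (le_of_lt hx)).differentiableAt.differentiableWithinAt
    · intro x hx
      rw [interior_Iic] at hx
      rw [(hd x (le_of_lt hx)).deriv]
      nlinarith [sq_nonneg (1 / (1 - x) - 1)]
  have h := hanti (Set.mem_Iic.2 hr) (Set.mem_Iic.2 le_rfl) hr
  simp only [hfun_zero] at h
  linarith

/-- `h_a` on the loss side -/
theorem hfun_neg' (a r : ℝ) (ha : 1 ≤ a) (hr : r ≤ 0) :
    r - (a - 1) / 2 * r ^ 2 ≤ hfun a r := by
  have h := hfun_neg r hr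
  have e : hfun a r = hfun 1 r - (a - 1) * r ^ 2 / (2 * (1 - r)) := by
    unfold hfun; ring
  rw [e]
  have h2 : (a - 1) * r ^ 2 / (2 * (1 - r)) ≤ (a - 1) / 2 * r ^ 2 := by
    rw [div_le_iff₀ (by linarith)]
    have : 0 ≤ (a - 1) * r ^ 2 := mul_nonneg (by linarith) (sq_nonneg r)
    nlinarith
  linarith

/-- the value of the Scarf step: gain side. `g` is the bound of `2 ∫ G`, `S` the Scarf number -/
theorem scarf_value_gain (lam ρ S g : ℝ) (hl : 0 < lam) (hρ : 0 ≤ ρ) (hz : lam * ρ ≤ 1 / 2)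
    (hg : g ≤ ρ * (S - (1 - lam)) / (1 - lam * ρ)) (hS : S - (1 - lam) ≤ 3 / 8 * lam) :
    ρ - S * ρ ≤ -Real.log (1 - lam * ρ) - g := by
  have hz0 : 0 ≤ lam * ρ := mul_nonneg hl.le hρ
  have h := pay_half (lam * ρ) ((S - (1 - lam)) / lam) hz0 hz (by
    rw [div_le_iff₀ hl]; exact hS)
  have e : (S - (1 - lam)) / lam * (lam * ρ) ^ 2 / (1 - lam * ρ) =
      ρ * (S - (1 - lam)) / (1 - lam * ρ) - ρ * (S - (1 - lam)) := by
    have : (1 - lam * ρ) ≠ 0 := by linarith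
    field_simp
    ring
  rw [e] at h
  nlinarith

/-- the value of the Scarf step: gain side, small gain -/
theorem scarf_value_gain' (lam ρ S g : ℝ) (hl : 0 < lam) (hρ : 0 ≤ ρ) (hz : lam * ρ ≤ 1 / 4)
    (hg : g ≤ ρ * (S - (1 - lam)) / (1 - lam * ρ)) (hS : S - (1 - lam) ≤ 4 / 9 * lam) :
    ρ - S * ρ ≤ -Real.log (1 - lam * ρ) - g := by
  have hz0 : 0 ≤ lam * ρ := mul_nonneg hl.le hρ
  have h := pay_quarter (lam * ρ) ((S - (1 - lam)) / lam) hz0 hz (by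
    rw [div_le_iff₀ hl]; exact hS)
  have e : (S - (1 - lam)) / lam * (lam * ρ) ^ 2 / (1 - lam * ρ) =
      ρ * (S - (1 - lam)) / (1 - lam * ρ) - ρ * (S - (1 - lam)) := by
    have : (1 - lam * ρ) ≠ 0 := by linarith
    field_simp
    ring
  rw [e] at h
  nlinarith

/-- the value of the Scarf step: loss side (`ρ ≥ 0` is the loss) -/
theorem scarf_value_loss (lam ρ S g : ℝ) (hl : 0 < lam) (hl1 : lam ≤ 1) (hρ : 0 ≤ ρ)
    (hS : 0 ≤ S) (hg : g ≤ ρ * (S + (1 - lam)) / (1 + lam * ρ)) :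
    -(ρ + S * ρ) ≤ -Real.log (1 + lam * ρ) - g := by
  have hz0 : 0 ≤ lam * ρ := mul_nonneg hl.le hρ
  have h1 : Real.log (1 + lam * ρ) ≤ lam * ρ := by
    have := Real.log_le_sub_one_of_pos (show 0 < 1 + lam * ρ by linarith)
    linarith
  have h2 : ρ * (S + (1 - lam)) / (1 + lam * ρ) ≤ ρ * (S + (1 - lam)) := by
    apply div_le_self (mul_nonneg hρ (by linarith)) (by linarith)
  nlinarith

end Pool.Agent.TSO
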