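import Pool.Agent.TSO.Prod

set_option autoImplicit false

/-!
# Pointwise bounds and the step with three children (MP_d27362_co)
-/

namespace Pool.Agent.TSO

open Finset Pool.Agent.TSP

variable {m : ℕ}

/-- Cauchy-Schwarz for one row of a kernel -/
theorem row_le (S : Fin m → Fin m → ℝ) (f : Fin m → ℝ) (i : Fin m) (v : ℝ)
    (hv : (mn fun j => S i j ^ 2) ≤ v) :
    |op S f i| ≤ Real.sqrt v * Real.sqrt (ip f f) := by
  have hv0 : 0 ≤ v := (mn_nonneg fun j => sq_nonneg (S i j)).trans hv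
  have h := ip_sq_le (fun j => S i j) f
  have e : ip (fun j => S i j) f = op S f i := rfl
  have e2 : ip (fun j => S i j) (fun j => S i j) = mn fun j => S i j ^ 2 := by
    rw [ip_eq_mn]; congr 1; funext j; ring
  rw [e, e2] at h
  rw [← Real.sqrt_mul hv0]
  apply Real.abs_le_sqrt
  exact h.trans (mul_le_mul_of_nonneg_right hv (ip_self_nonneg f))

/-- `|S f(x)| ≤ ‖f‖₂` -/
theorem op_le_norm (hm : 0 < m) (S : Fin m → Fin m → ℝ) (h1 : ∀ i j, |S i j| ≤ 1)
    (f : Fin m → ℝ) (i : Fin m) : |op S f i| ≤ Real.sqrt (ip f f) :=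
  (op_abs_le S h1 f i).trans (mn_abs_le hm f)

/-- near-sink lemma: `|S ψ(x)| ≤ √(1 - β(x)²) ‖ψ‖₂` for mean zero `ψ` -/
theorem near_sink (hm : 0 < m) (S : Fin m → Fin m → ℝ) (h1 : ∀ i j, |S i j| ≤ 1)
    (ψ : Fin m → ℝ) (hψ : mn ψ = 0) (i : Fin m) :
    |op S ψ i| ≤ Real.sqrt (1 - beta S i ^ 2) * Real.sqrt (ip ψ ψ) := by
  have e : op S ψ i = op (fun i j => S i j - beta S i) ψ i := by
    have e1 : op (fun i j => S i j - beta S i) ψ i = mn fun j => (S i j - beta S i) * ψ j := rfl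
    have e2 : op S ψ i = mn fun j => S i j * ψ j := rfl
    have e3 : (mn fun j => (S i j - beta S i) * ψ j) =
        (mn fun j => S i j * ψ j) - beta S i * mn ψ := by
      rw [← mn_mul, ← mn_sub]; congr 1; funext j; ring
    rw [e1, e3, hψ, e2]; ring
  rw [e]
  apply row_le
  have hb : beta S i = mn fun j => S i j := by
    simp [beta, op, mn]
  have e2 : (fun j => (S i j - beta S i) ^ 2) =
      fun j => (S i j ^ 2 - (2 * beta S i) * S i j) + beta S i ^ 2 := by
    funext j; ring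
  rw [e2, mn_add, mn_sub, mn_mul, mn_const hm, ← hb]
  have h3 : (mn fun j => S i j ^ 2) ≤ 1 := by
    rw [← mn_const hm (1 : ℝ)]
    refine mn_mono fun j => ?_
    rw [sq_le_one_iff_abs_le_one]
    exact h1 i j
  linarith

theorem beta_abs_le (hm : 0 < m) (S : Fin m → Fin m → ℝ) (h1 : ∀ i j, |S i j| ≤ 1) (i : Fin m) :
    |beta S i| ≤ 1 := by
  have h := op_abs_le S h1 (fun _ => 1) i
  rw [op_one] at h
  simpa [mn_const hm] using h

theorem mn_beta (S : Fin m → Fin m → ℝ) (hS : ∀ i j, S j i = - S i j) : mn (beta S) = 0 := by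
  have h := ip_op_self S hS (fun _ => 1)
  rw [ip_comm, ip_one] at h
  exact h

/-- `A` maps into mean zero functions -/
theorem mn_op_aker (S : Fin m → Fin m → ℝ) (hS : ∀ i j, S j i = - S i j) (f : Fin m → ℝ) :
    mn (op (aker S) f) = 0 := by
  have hA : ∀ i j, aker S j i = - aker S i j := by
    intro i j; simp only [aker, hS i j]; ring
  have h := ip_op (aker S) hA (fun _ => 1) f
  rw [ip_comm, ip_one] at h
  rw [h]
  have e : op (aker S) (fun _ => 1) = 0 := by
    funext i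
    rw [op_aker, op_one, ip_one, mn_beta S hS]
    rcases Nat.eq_zero_or_pos m with hm | hm
    · subst hm; exact i.elim0
    · rw [mn_const hm]; simp
  rw [e, ip_zero_left, neg_zero]

/-- `sup |τ β + A Φ| ≤ √(τ² + ‖Φ‖²) + |<β, Φ>|` -/
theorem sup_state (hm : 0 < m) (S : Fin m → Fin m → ℝ) (h1 : ∀ i j, |S i j| ≤ 1) (τ : ℝ)
    (Φ : Fin m → ℝ) (hΦ : mn Φ = 0) (i : Fin m) :
    |τ * beta S i + op (aker S) Φ i| ≤ Real.sqrt (τ ^ 2 + ip Φ Φ) + |ip (beta S) Φ| := by
  have e : τ * beta S i + op (aker S) Φ i =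
      op S (fun j => τ + Φ j) i + ip (beta S) Φ := by
    have e1 : op S (fun j => τ + Φ j) i = τ * beta S i + op S Φ i := by
      have : (fun j => τ + Φ j) = τ • (fun _ : Fin m => (1 : ℝ)) + Φ := by funext j; simp
      rw [this, op_add, op_smul]; rfl
    rw [op_aker, hΦ, e1]; ring
  rw [e]
  refine (abs_add_le _ _).trans (add_le_add_left ?_ _)
  refine (op_le_norm hm S h1 _ i).trans (Real.sqrt_le_sqrt (le_of_eq ?_))
  rw [ip_eq_mn, ip_eq_mn]
  have : (fun j => (τ + Φ j) * (τ + Φ j)) = fun j => (Φ j * Φ j + (2 * τ) * Φ j) + τ ^ 2 := by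
    funext j; ring
  rw [this, mn_add, mn_add, mn_mul, mn_const hm, hΦ]
  ring

/-- the identity of helper81 for one minus factor and two plus factors; `r` is the net gain
per plus factor, `c` the mean of the two deep parts -/
theorem three_raw (u f g r : ℝ) (hu : u ≤ 1) (_hf : 0 ≤ 1 - r + u + f) (_hg : 0 ≤ 1 - r + u + g) :
    (1 - u) * ((1 - r + u + f) * (1 - r + u + g)) ≤
      (1 - 2 * r + (u + (f + g))) +
        ((1 - u) * ((f + g) / 2 - r) ^ 2 - u ^ 2 * (1 - 2 * r + (u + (f + g)))) := by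
  have h1 : (1 - r + u + f) * (1 - r + u + g) ≤ (1 + u + ((f + g) / 2 - r)) ^ 2 := by
    nlinarith [sq_nonneg (f - g)]
  have h2 : 0 ≤ 1 - u := by linarith
  calc (1 - u) * ((1 - r + u + f) * (1 - r + u + g)) ≤
        (1 - u) * (1 + u + ((f + g) / 2 - r)) ^ 2 := mul_le_mul_of_nonneg_left h1 h2
    _ = _ := by ring

end Pool.Agent.TSO
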