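import Mathlib

set_option autoImplicit false

/-!
# Loss side of the step {leaf, 2-path, branch} (MP_d27362_co)

Net gain `-r ≤ 0`, `h = 2 c - r`, `c = c0 + γ`, `γ ≥ r/2`, `c0² ≤ k2 (1 - u²)`:
`(1-u)(1+u+c)² ≤ (1+r)(1+u+h) + (1+ε)/4 h² + E k2 u² + K r²`.
-/

namespace Pool.Agent.TSO

/-- the case `0 ≤ v = -u`, `a = r/2 - c ≥ 0`, `k = 4 K` -/
theorem zloss_neg (ε E k v a r k2 : ℝ) (hv : 0 ≤ v) (hv1 : v ≤ 1)
    (ha : 0 ≤ a) (hE : 0 ≤ E) (hk2 : 0 ≤ k2) (hk : 2 < k) (hka : a ^ 2 ≤ k2 * (1 - v ^ 2))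
    (hD : 0 ≤ (k - 2) * ((1 + v) * ((k - 4) * v ^ 2 + 3 * v - 1) +
      (k - 1 - v) * (ε - v + (E - 1 - ε) * v ^ 2)) - (1 + v) * (1 + (k - 3) * v) ^ 2) :
    0 ≤ v ^ 2 * (1 - v) - 2 * a * v ^ 2 + a ^ 2 * (ε - v) + E * k2 * v ^ 2 -
      r * (1 - v) * (v + a) + r ^ 2 * (k / 4 - (1 + v) / 4) := by
  rcases eq_or_lt_of_le hv1 with h1 | h1
  · subst h1
    have ha0 : a = 0 := by
      have : a ^ 2 ≤ 0 := by nlinarith
      exact pow_eq_zero_iff (two_ne_zero) |>.mp (le_antisymm this (sq_nonneg a))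
    subst ha0
    have h2 : 0 ≤ E * k2 := mul_nonneg hE hk2
    nlinarith [sq_nonneg r, mul_nonneg (sq_nonneg r) (by linarith : 0 ≤ k - 2)]
  · have hw : 0 < 1 - v := by linarith
    have hkap : 0 < k - 1 - v := by linarith
    have hk2' : 0 < k - 2 := by linarith
    set P : ℝ := v ^ 2 * (1 - v) - 2 * a * v ^ 2 + a ^ 2 * (ε - v) + E * k2 * v ^ 2 -
      r * (1 - v) * (v + a) + r ^ 2 * (k / 4 - (1 + v) / 4) with hP
    have e : (k - 2) * (k - 1 - v) * ((1 - v) * (1 + v)) * P =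
        (k - 2) * ((1 - v) * (1 + v) / 4) * ((k - 1 - v) * r - 2 * (1 - v) * (v + a)) ^ 2 +
        (1 + v) * ((k - 2) * (1 - v) * v - a * (1 + (k - 3) * v)) ^ 2 +
        a ^ 2 * ((k - 2) * ((1 + v) * ((k - 4) * v ^ 2 + 3 * v - 1) +
      (k - 1 - v) * (ε - v + (E - 1 - ε) * v ^ 2)) - (1 + v) * (1 + (k - 3) * v) ^ 2) +
        (k - 2) * (k - 1 - v) * (E * v ^ 2) * (k2 * (1 - v ^ 2) - a ^ 2) := by
      rw [hP]; ring
    have h3 : 0 ≤ k2 * (1 - v ^ 2) - a ^ 2 := by linarith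
    have h4 : 0 ≤ (k - 2) * (k - 1 - v) * ((1 - v) * (1 + v)) * P := by
      rw [e]
      have h5 : 0 < 1 + v := by linarith
      positivity
    have h6 : 0 < (k - 2) * (k - 1 - v) * ((1 - v) * (1 + v)) := by
      have h5 : 0 < 1 + v := by linarith
      positivity
    exact nonneg_of_mul_nonneg_right h4 h6

/-- **the loss side**, general constants, `k = 4 K` -/
theorem zloss_gen (ε E k u c r k2 : ℝ) (hε : 0 < ε) (hr : 0 ≤ r) (hu : |u| ≤ 1)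
    (hE : 0 ≤ E) (hk2 : 0 ≤ k2) (hk : 2 < k) (hk1 : 1 ≤ ε * (k - 1)) (hk3 : 2 ≤ k - 1 + ε)
    (hD : ∀ v : ℝ, 0 ≤ v → v ≤ 1 → 0 ≤ (k - 2) * ((1 + v) * ((k - 4) * v ^ 2 + 3 * v - 1) +
      (k - 1 - v) * (ε - v + (E - 1 - ε) * v ^ 2)) - (1 + v) * (1 + (k - 3) * v) ^ 2)
    (hka : c < r / 2 → (r / 2 - c) ^ 2 ≤ k2 * (1 - u ^ 2)) (hc : c ≤ 8 * ε) :
    (1 - u) * (1 + u + c) ^ 2 ≤ (1 + r) * (1 + u + (2 * c - r)) +
      (1 + ε) / 4 * (2 * c - r) ^ 2 + E * k2 * u ^ 2 + k / 4 * r ^ 2 := by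
  obtain ⟨hu1, hu2⟩ := abs_le.1 hu
  -- `v = -u`, `a = r/2 - c`
  have key : 0 ≤ (-u) ^ 2 * (1 - (-u)) - 2 * (r / 2 - c) * (-u) ^ 2 +
      (r / 2 - c) ^ 2 * (ε - (-u)) + E * k2 * (-u) ^ 2 -
      r * (1 - (-u)) * (-u + (r / 2 - c)) + r ^ 2 * (k / 4 - (1 + (-u)) / 4) := by
    obtain ⟨a, ha⟩ : ∃ a, a = r / 2 - c := ⟨_, rfl⟩
    have hEk : 0 ≤ E * k2 * u ^ 2 := by positivity
    rcases le_total 0 u with h | h
    · rw [← ha]
      have e : (-u) ^ 2 * (1 - (-u)) - 2 * a * (-u) ^ 2 +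
          a ^ 2 * (ε - (-u)) + E * k2 * (-u) ^ 2 -
          r * (1 - (-u)) * (-u + a) + r ^ 2 * (k / 4 - (1 + (-u)) / 4) =
          u ^ 2 + u * (u - a) ^ 2 + ε * a ^ 2 + E * k2 * u ^ 2 - r * (1 + u) * (a - u) +
          r ^ 2 * ((k - 1 + u) / 4) := by ring
      rw [e]
      rcases le_total a u with h1 | h1
      · have h2 : 0 ≤ r * (1 + u) * (u - a) :=
          mul_nonneg (mul_nonneg hr (by linarith)) (by linarith)
        have h3 : 0 ≤ u * (u - a) ^ 2 := by positivity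
        have h4 : 0 ≤ r ^ 2 * ((k - 1 + u) / 4) :=
          mul_nonneg (sq_nonneg r) (by linarith)
        nlinarith [sq_nonneg u, mul_nonneg hε.le (sq_nonneg a)]
      · -- `d = a - u ≥ 0`
        have h2 : ε * (a - u) ^ 2 ≤ ε * a ^ 2 := by
          refine mul_le_mul_of_nonneg_left ?_ hε.le
          exact pow_le_pow_left₀ (by linarith) (by linarith) 2
        have h3 : 0 ≤ (u + ε) * (a - u) ^ 2 - r * (1 + u) * (a - u) +
            r ^ 2 * ((k - 1 + u) / 4) := by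
          have h4 : 0 < u + ε := by linarith
          have h5 : (1 + u) ^ 2 ≤ (u + ε) * (k - 1 + u) := by nlinarith
          have h6 : 0 ≤ (u + ε) * ((u + ε) * (a - u) ^ 2 - r * (1 + u) * (a - u) +
            r ^ 2 * ((k - 1 + u) / 4)) := by
            have e2 : (u + ε) * ((u + ε) * (a - u) ^ 2 - r * (1 + u) * (a - u) +
              r ^ 2 * ((k - 1 + u) / 4)) = ((u + ε) * (a - u) - r * (1 + u) / 2) ^ 2 +
              r ^ 2 / 4 * ((u + ε) * (k - 1 + u) - (1 + u) ^ 2) := by ring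
            rw [e2]
            have h7 : 0 ≤ (u + ε) * (k - 1 + u) - (1 + u) ^ 2 := by linarith
            positivity
          exact nonneg_of_mul_nonneg_right h6 h4
        nlinarith [sq_nonneg u]
    · rcases lt_or_ge c (r / 2) with h1 | h1
      · rw [← ha]
        have h2 := hka h1
        rw [← ha] at h2
        exact zloss_neg ε E k (-u) a r k2 (by linarith) (by linarith) (by linarith) hE hk2
          hk (by rw [neg_sq]; exact h2) (hD (-u) (by linarith) (by linarith))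
      · -- `c0 = c - r/2 ≥ 0`
        obtain ⟨b, hb⟩ : ∃ b, b = c - r / 2 := ⟨_, rfl⟩
        obtain ⟨v, hv⟩ : ∃ v, v = -u := ⟨_, rfl⟩
        have hb0 : 0 ≤ b := by linarith
        have hv0 : 0 ≤ v := by linarith
        have hv1 : v ≤ 1 := by linarith
        have hb8 : b ≤ 8 * ε := by linarith
        have e1 : r / 2 - c = -b := by linarith
        rw [e1, ← hv]
        have e2 : v ^ 2 * (1 - v) - 2 * -b * v ^ 2 + (-b) ^ 2 * (ε - v) + E * k2 * v ^ 2 -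
            r * (1 - v) * (v + -b) + r ^ 2 * (k / 4 - (1 + v) / 4) =
            (1 - v) * (v - r / 2) ^ 2 + r ^ 2 * ((k - 2) / 4) + E * k2 * v ^ 2 +
            r * (1 - v) * b + b * (2 * (v - b / 4) ^ 2 + b * (8 * ε - b) / 8) := by ring
        rw [e2]
        have h3 : 0 ≤ 1 - v := by linarith
        have h4 : 0 ≤ k - 2 := by linarith
        have h5 : 0 ≤ 8 * ε - b := by linarith
        positivity
  nlinarith [key]

/-- `ε = 1/2`, `E = 11/5`, `K = 8/5` -/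
theorem zloss_half (u c r k2 : ℝ) (hr : 0 ≤ r) (hu : |u| ≤ 1) (hk2 : 0 ≤ k2)
    (hka : c < r / 2 → (r / 2 - c) ^ 2 ≤ k2 * (1 - u ^ 2)) (hc : c ≤ 4) :
    (1 - u) * (1 + u + c) ^ 2 ≤ (1 + r) * (1 + u + (2 * c - r)) +
      3 / 8 * (2 * c - r) ^ 2 + 11 / 5 * k2 * u ^ 2 + 8 / 5 * r ^ 2 := by
  have h := zloss_gen (1 / 2) (11 / 5) (32 / 5) u c r k2 (by norm_num) hr hu (by norm_num) hk2
    (by norm_num) (by norm_num) (by norm_num) (fun v hv hv1 => by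
      nlinarith [mul_nonneg hv (sq_nonneg (v - 27 / 50)),
        mul_nonneg (by linarith : 0 ≤ 1 - v) (sq_nonneg (v - 27 / 50))])
    hka (by linarith)
  norm_num at h
  linarith

/-- `ε = 1/2`, `E = 12/5`, `K = 11/8` -/
theorem zloss_half' (u c r k2 : ℝ) (hr : 0 ≤ r) (hu : |u| ≤ 1) (hk2 : 0 ≤ k2)
    (hka : c < r / 2 → (r / 2 - c) ^ 2 ≤ k2 * (1 - u ^ 2)) (hc : c ≤ 4) :
    (1 - u) * (1 + u + c) ^ 2 ≤ (1 + r) * (1 + u + (2 * c - r)) +
      3 / 8 * (2 * c - r) ^ 2 + 12 / 5 * k2 * u ^ 2 + 11 / 8 * r ^ 2 := by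
  have h := zloss_gen (1 / 2) (12 / 5) (11 / 2) u c r k2 (by norm_num) hr hu (by norm_num) hk2
    (by norm_num) (by norm_num) (by norm_num) (fun v hv hv1 => by
      nlinarith [mul_nonneg hv (sq_nonneg (v - 21 / 50)),
        mul_nonneg (by linarith : 0 ≤ 1 - v) (sq_nonneg (v - 21 / 50))])
    hka (by linarith)
  norm_num at h
  linarith

/-- `ε = 3/5`, `E = 12/5`, `K = 23/20` -/
theorem zloss_three (u c r k2 : ℝ) (hr : 0 ≤ r) (hu : |u| ≤ 1) (hk2 : 0 ≤ k2)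
    (hka : c < r / 2 → (r / 2 - c) ^ 2 ≤ k2 * (1 - u ^ 2)) (hc : c ≤ 24 / 5) :
    (1 - u) * (1 + u + c) ^ 2 ≤ (1 + r) * (1 + u + (2 * c - r)) +
      2 / 5 * (2 * c - r) ^ 2 + 12 / 5 * k2 * u ^ 2 + 23 / 20 * r ^ 2 := by
  have h := zloss_gen (3 / 5) (12 / 5) (23 / 5) u c r k2 (by norm_num) hr hu (by norm_num) hk2
    (by norm_num) (by norm_num) (by norm_num) (fun v hv hv1 => by
      nlinarith [mul_nonneg hv (sq_nonneg (v - 21 / 50)),
        mul_nonneg (by linarith : 0 ≤ 1 - v) (sq_nonneg (v - 21 / 50))])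
    hka (by linarith)
  norm_num at h
  linarith

/-- `ε = 2/5`, `E = 9/4`, `K = 11/5` -/
theorem zloss_two (u c r k2 : ℝ) (hr : 0 ≤ r) (hu : |u| ≤ 1) (hk2 : 0 ≤ k2)
    (hka : c < r / 2 → (r / 2 - c) ^ 2 ≤ k2 * (1 - u ^ 2)) (hc : c ≤ 16 / 5) :
    (1 - u) * (1 + u + c) ^ 2 ≤ (1 + r) * (1 + u + (2 * c - r)) +
      7 / 20 * (2 * c - r) ^ 2 + 9 / 4 * k2 * u ^ 2 + 11 / 5 * r ^ 2 := by
  have h := zloss_gen (2 / 5) (9 / 4) (44 / 5) u c r k2 (by norm_num) hr hu (by norm_num) hk2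
    (by norm_num) (by norm_num) (by norm_num) (fun v hv hv1 => by
      nlinarith [mul_nonneg hv (sq_nonneg (v - 1 / 2)),
        mul_nonneg (by linarith : 0 ≤ 1 - v) (sq_nonneg (v - 1 / 2))])
    hka (by linarith)
  norm_num at h
  linarith

end Pool.Agent.TSO
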