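import Mathlib

set_option autoImplicit false

/-!
# The real inequality of the step {leaf, 2-path, branch} (MP_d27362_co), rule (Z)

`u = β(x)`, `c = (f+g)/2`, `ρ` the net gain, `k2 = κ²`; for all `ε > 0` and
`e = (1 + 2 ε)² / (4 ε)`:
`-u c² + ρ u - u² (1 + u + 2 c) ≤ ε (c + ρ)² + e κ² u² + ρ²/4`.
-/

namespace Pool.Agent.TSO

/-- the case `u ≥ 0` -/
theorem zpc_pos (ε e u c ρ k2 : ℝ) (hε : 0 ≤ ε) (he : 0 ≤ e) (hk : 0 ≤ k2) (hu : 0 ≤ u) :
    -u * c ^ 2 + ρ * u - u ^ 2 * (1 + u + 2 * c) ≤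
      ε * (c + ρ) ^ 2 + e * k2 * u ^ 2 + ρ ^ 2 / 4 := by
  have h1 : 0 ≤ ε * (c + ρ) ^ 2 := by positivity
  have h2 : 0 ≤ e * k2 * u ^ 2 := by positivity
  have h3 : 0 ≤ u * (u + c) ^ 2 := by positivity
  nlinarith [sq_nonneg (ρ / 2 - u)]

/-- the case `u ≤ 0 ≤ c`, `v = -u`, `c ≤ 8 ε` -/
theorem zpc_neg_pos (ε e v c ρ k2 : ℝ) (hε : 0 < ε) (hρ : 0 ≤ ρ)
    (hv : 0 ≤ v) (hv1 : v ≤ 1) (hc : 0 ≤ c) (he : 0 ≤ e) (hk2 : 0 ≤ k2) (hc8 : c ≤ 8 * ε) :
    v * c ^ 2 - ρ * v - v ^ 2 * (1 - v + 2 * c) ≤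
      ε * (c + ρ) ^ 2 + e * k2 * v ^ 2 + ρ ^ 2 / 4 := by
  have h0 : 0 ≤ ρ * v := by positivity
  have h1 : 0 ≤ ε * (2 * c * ρ + ρ ^ 2) := by positivity
  have h5 : 0 ≤ e * k2 * v ^ 2 := by positivity
  have h6 : 0 ≤ v ^ 2 * (1 - v) := mul_nonneg (sq_nonneg v) (by linarith)
  have h7 : 0 ≤ 2 * v ^ 2 - v * c + ε * c := by
    nlinarith [sq_nonneg (4 * v - c), mul_nonneg hc (by linarith : 0 ≤ 8 * ε - c)]
  have h8 : 0 ≤ c * (2 * v ^ 2 - v * c + ε * c) := mul_nonneg hc h7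
  nlinarith [sq_nonneg ρ]

/-- the case `u ≤ 0`, `c ≤ 0`, `v = -u`, `a = -c`, all `κ` -/
theorem zpc_neg_neg (ε v a ρ k2 : ℝ) (hε : 0 < ε) (hρ : 0 ≤ ρ)
    (hv : 0 ≤ v) (ha : 0 ≤ a) (hav : a ≤ 1 - v) (hk2 : 0 ≤ k2)
    (hk : a ^ 2 ≤ k2 * (1 - v ^ 2)) :
    v * a ^ 2 - ρ * v - v ^ 2 * (1 - v - 2 * a) ≤
      ε * (ρ - a) ^ 2 + (1 + 2 * ε) ^ 2 / (4 * ε) * k2 * v ^ 2 + ρ ^ 2 / 4 := by
  have hv1 : v ≤ 1 := by linarith
  set e : ℝ := (1 + 2 * ε) ^ 2 / (4 * ε) with he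
  have hee : 4 * ε * e = (1 + 2 * ε) ^ 2 := by rw [he]; field_simp
  have he0 : 0 ≤ e := by rw [he]; positivity
  rcases eq_or_lt_of_le hv1 with h1 | h1
  · -- `v = 1`, `a = 0`
    have ha0 : a = 0 := by linarith
    subst h1
    subst ha0
    have : 0 ≤ e * k2 := by positivity
    nlinarith [mul_nonneg hε.le (sq_nonneg ρ), sq_nonneg ρ]
  · have hw : 0 < 1 - v ^ 2 := by nlinarith
    -- the polynomial `P`
    have hP : (1 - v ^ 2) * (ε * a ^ 2 + v ^ 2 + e * k2 * v ^ 2 - v * (v + a) ^ 2) * (4 * ε) ≥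
        (2 * ε - v) ^ 2 * a ^ 2 + 4 * ε * (v ^ 2 * (1 + v) * (1 - v - a) ^ 2) := by
      have h2 : e * a ^ 2 * v ^ 2 ≤ e * (k2 * (1 - v ^ 2)) * v ^ 2 :=
        mul_le_mul_of_nonneg_right (mul_le_mul_of_nonneg_left hk he0) (sq_nonneg v)
      have h3 : (2 * ε - v) ^ 2 * a ^ 2 + 4 * ε * (v ^ 2 * (1 + v) * (1 - v - a) ^ 2) =
          (1 - v ^ 2) * (ε * a ^ 2 + v ^ 2 - v * (v + a) ^ 2) * (4 * ε) +
            (4 * ε * e) * (a ^ 2 * v ^ 2) := by
        rw [hee]; ring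
      rw [h3]
      have h4 : 4 * ε * (e * a ^ 2 * v ^ 2) ≤ 4 * ε * (e * (k2 * (1 - v ^ 2)) * v ^ 2) :=
        mul_le_mul_of_nonneg_left h2 (by linarith)
      nlinarith
    have hPn : 0 ≤ v ^ 2 * (1 + v) * (1 - v - a) ^ 2 := by positivity
    -- the quantity to be shown nonnegative, times `4 ε (1 - v²)`
    have key : 0 ≤ (1 - v ^ 2) * ((ρ * (v - 2 * ε * a) + (ε + 1 / 4) * ρ ^ 2) +
        (ε * a ^ 2 + v ^ 2 + e * k2 * v ^ 2 - v * (v + a) ^ 2)) * (4 * ε) := by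
      rcases le_total (2 * ε * a) v with h2 | h2
      · have h3 : 0 ≤ (1 - v ^ 2) * (ρ * (v - 2 * ε * a) + (ε + 1 / 4) * ρ ^ 2) * (4 * ε) := by
          have : 0 ≤ v - 2 * ε * a := by linarith
          positivity
        have h4 : 0 ≤ (2 * ε - v) ^ 2 * a ^ 2 := by positivity
        have h5 : 0 ≤ 4 * ε * (v ^ 2 * (1 + v) * (1 - v - a) ^ 2) := by positivity
        nlinarith
      · have ha1 : a ≤ 1 := by linarith
        have h3 : 2 * ε * a - v ≤ (2 * ε - v) * a := by nlinarith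
        have h4 : (2 * ε * a - v) ^ 2 ≤ (2 * ε - v) ^ 2 * a ^ 2 := by
          rw [← mul_pow]
          exact pow_le_pow_left₀ (by linarith) h3 2
        have h5 : -(2 * ε * a - v) ^ 2 ≤
            (ρ * (v - 2 * ε * a) + (ε + 1 / 4) * ρ ^ 2) * (4 * ε + 1) := by
          nlinarith [sq_nonneg ((4 * ε + 1) * ρ - 2 * (2 * ε * a - v))]
        have h6 : -(2 * ε * a - v) ^ 2 ≤
            (ρ * (v - 2 * ε * a) + (ε + 1 / 4) * ρ ^ 2) * (4 * ε) := by
          by_cases h7 : 0 ≤ (ρ * (v - 2 * ε * a) + (ε + 1 / 4) * ρ ^ 2)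
          · have : 0 ≤ (ρ * (v - 2 * ε * a) + (ε + 1 / 4) * ρ ^ 2) * (4 * ε) := by positivity
            nlinarith [sq_nonneg (2 * ε * a - v)]
          · push Not at h7
            nlinarith
        have h8 : -(2 * ε * a - v) ^ 2 ≤
            (1 - v ^ 2) * (ρ * (v - 2 * ε * a) + (ε + 1 / 4) * ρ ^ 2) * (4 * ε) := by
          have h9 : (1 - v ^ 2) * (-(2 * ε * a - v) ^ 2) ≤
              (1 - v ^ 2) * ((ρ * (v - 2 * ε * a) + (ε + 1 / 4) * ρ ^ 2) * (4 * ε)) :=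
            mul_le_mul_of_nonneg_left h6 hw.le
          nlinarith [mul_nonneg (sq_nonneg v) (sq_nonneg (2 * ε * a - v))]
        have h10 : 0 ≤ 4 * ε * (v ^ 2 * (1 + v) * (1 - v - a) ^ 2) := by positivity
        nlinarith
    have key2 : 0 ≤ (ρ * (v - 2 * ε * a) + (ε + 1 / 4) * ρ ^ 2) +
        (ε * a ^ 2 + v ^ 2 + e * k2 * v ^ 2 - v * (v + a) ^ 2) := by
      by_contra h
      push Not at h
      have : (1 - v ^ 2) * ((ρ * (v - 2 * ε * a) + (ε + 1 / 4) * ρ ^ 2) +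
        (ε * a ^ 2 + v ^ 2 + e * k2 * v ^ 2 - v * (v + a) ^ 2)) * (4 * ε) < 0 :=
        mul_neg_of_neg_of_pos (mul_neg_of_pos_of_neg hw h) (by linarith)
      linarith
    nlinarith

/-- **rule (Z), all `κ`**; for `c < 0` the near-sink bound is needed, for `c ≥ 0` only
`c ≤ 8 ε` -/
theorem zpc_real (ε u c ρ k2 : ℝ) (hε : 0 < ε) (hρ : 0 ≤ ρ) (hu : |u| ≤ 1) (hk2 : 0 ≤ k2)
    (hk : c < 0 → c ^ 2 ≤ k2 * (1 - u ^ 2)) (hc8 : c ≤ 8 * ε) (h1 : 0 ≤ 1 + u + c) :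
    -u * c ^ 2 + ρ * u - u ^ 2 * (1 + u + 2 * c) ≤
      ε * (c + ρ) ^ 2 + (1 + 2 * ε) ^ 2 / (4 * ε) * k2 * u ^ 2 + ρ ^ 2 / 4 := by
  have he0 : 0 ≤ (1 + 2 * ε) ^ 2 / (4 * ε) := by positivity
  obtain ⟨hu1, hu2⟩ := abs_le.1 hu
  rcases le_total 0 u with h | h
  · exact zpc_pos ε _ u c ρ k2 hε.le he0 hk2 h
  · have e1 : (-u) ^ 2 = u ^ 2 := neg_sq u
    rcases le_or_gt 0 c with h2 | h2
    · have h3 := zpc_neg_pos ε ((1 + 2 * ε) ^ 2 / (4 * ε)) (-u) c ρ k2 hε hρ (by linarith)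
        (by linarith) h2 he0 hk2 hc8
      rw [e1] at h3
      linarith
    · have h3 := zpc_neg_neg ε (-u) (-c) ρ k2 hε hρ (by linarith) (by linarith) (by linarith)
        hk2 (by rw [neg_sq, neg_sq]; exact hk h2)
      have e2 : (-c) ^ 2 = c ^ 2 := neg_sq c
      have e3 : (ρ - -c) ^ 2 = (c + ρ) ^ 2 := by ring
      rw [e1, e2, e3] at h3
      linarith

/-! ### small `κ` -/

/-- core estimate for `ε ≤ v`, with an auxiliary `s` close to `κ √(1 - v²)` -/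
theorem zpc_core (ε e K2 v a k2 s : ℝ) (hs : 0 < s) (hs1 : s ≤ 1 - v) (hv : ε ≤ v)
    (hk2 : 0 ≤ k2) (hK : k2 ≤ K2) (hK0 : 0 < K2)
    (hk : a ^ 2 ≤ k2 * (1 - v ^ 2))
    (hF : v ^ 2 * (s ^ 2 + K2 * (1 - v ^ 2)) ≤
      s * (v ^ 2 * (1 - v) + K2 * (e * v ^ 2 - (v - ε) * (1 - v ^ 2)))) :
    0 ≤ v ^ 2 * (1 - v) - (v - ε) * a ^ 2 - 2 * v ^ 2 * a + e * k2 * v ^ 2 := by
  have h1 : 2 * a * s ≤ a ^ 2 + s ^ 2 := by nlinarith [sq_nonneg (a - s)]
  have hc : 0 ≤ s * (v - ε) + v ^ 2 := by nlinarith [mul_nonneg hs.le (by linarith : 0 ≤ v - ε)]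
  have h2 : (s * (v - ε) + v ^ 2) * a ^ 2 ≤ (s * (v - ε) + v ^ 2) * (k2 * (1 - v ^ 2)) :=
    mul_le_mul_of_nonneg_left hk hc
  have hX0 : 0 ≤ s * v ^ 2 * (1 - v - s) :=
    mul_nonneg (mul_nonneg hs.le (sq_nonneg v)) (by linarith)
  set B : ℝ := s * e * v ^ 2 - (s * (v - ε) + v ^ 2) * (1 - v ^ 2) with hB
  have hXK : 0 ≤ s * v ^ 2 * (1 - v - s) + K2 * B := by rw [hB]; nlinarith
  have hX : 0 ≤ s * v ^ 2 * (1 - v - s) + k2 * B := by
    have h3 : 0 ≤ K2 * (s * v ^ 2 * (1 - v - s) + k2 * B) := by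
      have e1 : K2 * (s * v ^ 2 * (1 - v - s) + k2 * B) =
          (K2 - k2) * (s * v ^ 2 * (1 - v - s)) + k2 * (s * v ^ 2 * (1 - v - s) + K2 * B) := by
        ring
      rw [e1]
      exact add_nonneg (mul_nonneg (by linarith) hX0) (mul_nonneg hk2 hXK)
    exact nonneg_of_mul_nonneg_right h3 hK0
  have h4 : v ^ 2 * (2 * a * s) ≤ v ^ 2 * (a ^ 2 + s ^ 2) :=
    mul_le_mul_of_nonneg_left h1 (sq_nonneg v)
  have h5 : 0 ≤ s * (v ^ 2 * (1 - v) - (v - ε) * a ^ 2 - 2 * v ^ 2 * a + e * k2 * v ^ 2) := by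
    rw [hB] at hX
    nlinarith
  exact nonneg_of_mul_nonneg_right h5 hs

/-- large `v`: the discriminant -/
theorem zpc_disc (ε e v a k2 : ℝ) (he : 0 ≤ e) (hv0 : 0 ≤ v) (hv1 : v < 1)
    (hk : a ^ 2 ≤ k2 * (1 - v ^ 2)) (hd : 0 ≤ (e - 1 - ε) * v ^ 2 - v + ε) :
    0 ≤ v ^ 2 * (1 - v) - (v - ε) * a ^ 2 - 2 * v ^ 2 * a + e * k2 * v ^ 2 := by
  have hw : 0 < 1 - v ^ 2 := by nlinarith
  have h1 : 0 ≤ (1 - v ^ 2) *
      (v ^ 2 * (1 - v) - (v - ε) * a ^ 2 - 2 * v ^ 2 * a + e * k2 * v ^ 2) := by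
    have h2 : e * v ^ 2 * a ^ 2 ≤ e * v ^ 2 * (k2 * (1 - v ^ 2)) :=
      mul_le_mul_of_nonneg_left hk (by positivity)
    have h3 : 0 ≤ ((e - 1 - ε) * v ^ 2 - v + ε) * a ^ 2 := mul_nonneg hd (sq_nonneg a)
    have h4 : 0 ≤ v ^ 2 * (1 + v) * (a - (1 - v)) ^ 2 := by positivity
    nlinarith
  exact nonneg_of_mul_nonneg_right h1 hw

/-- the case `u ≤ 0`, `c ≤ 0`, small `κ`; `hq` is the inequality at `ρ = 0` -/
theorem zpc_rho (ε e v a ρ k2 : ℝ) (hε : 0 < ε) (hρ : 0 ≤ ρ) (hv : 0 ≤ v) (ha : 0 ≤ a)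
    (he : 0 ≤ e) (hk2 : 0 ≤ k2)
    (hq : 0 ≤ v ^ 2 * (1 - v) - (v - ε) * a ^ 2 - 2 * v ^ 2 * a + e * k2 * v ^ 2)
    (hsm : v ≤ 2 * ε * a → (1 + 4 * ε) * v ≤ ε) :
    v * a ^ 2 - ρ * v - v ^ 2 * (1 - v - 2 * a) ≤
      ε * (ρ - a) ^ 2 + e * k2 * v ^ 2 + ρ ^ 2 / 4 := by
  rcases le_total (2 * ε * a) v with h | h
  · have h1 : 0 ≤ ρ * (v - 2 * ε * a) := mul_nonneg hρ (by linarith)
    have h2 : 0 ≤ (ε + 1 / 4) * ρ ^ 2 := by positivity
    nlinarith
  · have h0 := hsm h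
    have h1 : 0 ≤ (4 * ε + 1) * ((ρ * (v - 2 * ε * a) + (ε + 1 / 4) * ρ ^ 2) +
        (v ^ 2 * (1 - v) - (v - ε) * a ^ 2 - 2 * v ^ 2 * a + e * k2 * v ^ 2)) := by
      have h2 : 0 ≤ a ^ 2 * (ε - (1 + 4 * ε) * v) := mul_nonneg (sq_nonneg a) (by linarith)
      have h3 : 0 ≤ a * v * (4 * ε - 2 * ((1 + 4 * ε) * v)) :=
        mul_nonneg (mul_nonneg ha hv) (by linarith)
      have h4 : 0 ≤ v ^ 2 * (4 * ε - (1 + 4 * ε) * v) := mul_nonneg (sq_nonneg v) (by linarith)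
      have h5 : 0 ≤ (4 * ε + 1) * (e * k2 * v ^ 2) := by positivity
      nlinarith [sq_nonneg ((4 * ε + 1) * ρ - 2 * (2 * ε * a - v))]
    have h2 := nonneg_of_mul_nonneg_right h1 (by linarith)
    nlinarith

/-- a quartic -/
theorem polA (v : ℝ) (h0 : 1 / 20 ≤ v) (h1 : v ≤ 39 / 50) :
    0 ≤ (20181 / 10000000) + (-(835109 / 20000000)) * v + (1320827 / 5000000) * v ^ 2 +
      (-(2436749 / 5000000)) * v ^ 3 + (274131 / 1000000) * v ^ 4 := by
  rcases le_total v (153 / 1600) with hm | hm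
  · have hx : 0 ≤ v - (1 / 20) := by linarith
    have hy : 0 ≤ (153 / 1600) - v := by linarith
    have h : 0 ≤ (17417358336 / 141991205) * ((153 / 1600) - v) ^ 4 +
      (1036937797632 / 3549780125) * (v - (1 / 20)) ^ 1 * ((153 / 1600) - v) ^ 3 +
      (4155187437208 / 17748900625) * (v - (1 / 20)) ^ 2 * ((153 / 1600) - v) ^ 2 +
      (6483640223174 / 88744503125) * (v - (1 / 20)) ^ 3 * ((153 / 1600) - v) ^ 1 +
      (246280523942451 / 28398241000000) * (v - (1 / 20)) ^ 4 := by positivity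
    linarith
  · rcases le_total v (379 / 3200) with hm | hm
    · have hx : 0 ≤ v - (153 / 1600) := by linarith
      have hy : 0 ≤ (379 / 3200) - v := by linarith
      have h : 0 ≤ (246280523942451 / 1774890062500) * ((379 / 3200) - v) ^ 4 +
        (220150353973433 / 887445031250) * (v - (153 / 1600)) ^ 1 * ((379 / 3200) - v) ^ 3 +
        (637282174842017 / 3549780125000) * (v - (153 / 1600)) ^ 2 * ((379 / 3200) - v) ^ 2 +
        (543485518425537 / 3549780125000) * (v - (153 / 1600)) ^ 3 * ((379 / 3200) - v) ^ 1 +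
        (2361734530942371 / 28398241000000) * (v - (153 / 1600)) ^ 4 := by positivity
      linarith
    · rcases le_total v (113 / 800) with hm | hm
      · have hx : 0 ≤ v - (379 / 3200) := by linarith
        have hy : 0 ≤ (113 / 800) - v := by linarith
        have h : 0 ≤ (2361734530942371 / 28398241000000) * ((113 / 800) - v) ^ 4 +
          (909124506258417 / 1774890062500) * (v - (379 / 3200)) ^ 1 * ((113 / 800) - v) ^ 3 +
          (1115393164278977 / 887445031250) * (v - (379 / 3200)) ^ 2 * ((113 / 800) - v) ^ 2 +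
          (574204898267172 / 443722515625) * (v - (379 / 3200)) ^ 3 * ((113 / 800) - v) ^ 1 +
          (207008978743244 / 443722515625) * (v - (379 / 3200)) ^ 4 := by positivity
        linarith
      · rcases le_total v (93 / 400) with hm | hm
        · have hx : 0 ≤ v - (113 / 800) := by linarith
          have hy : 0 ≤ (93 / 400) - v := by linarith
          have h : 0 ≤ (51752244685811 / 28398241000000) * ((93 / 400) - v) ^ 4 +
            (57604999431131 / 3549780125000) * (v - (113 / 800)) ^ 1 * ((93 / 400) - v) ^ 3 +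
            (172568694677753 / 3549780125000) * (v - (113 / 800)) ^ 2 * ((93 / 400) - v) ^ 2 +
            (46316257294171 / 887445031250) * (v - (113 / 800)) ^ 3 * ((93 / 400) - v) ^ 1 +
            (32402704059891 / 1774890062500) * (v - (113 / 800)) ^ 4 := by positivity
          linarith
        · rcases le_total v (83 / 200) with hm | hm
          · have hx : 0 ≤ v - (93 / 400) := by linarith
            have hy : 0 ≤ (83 / 200) - v := by linarith
            have h : 0 ≤ (32402704059891 / 28398241000000) * ((83 / 200) - v) ^ 4 +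
              (25445927442751 / 3549780125000) * (v - (93 / 400)) ^ 1 * ((83 / 200) - v) ^ 3 +
              (53437268249933 / 3549780125000) * (v - (93 / 400)) ^ 2 * ((83 / 200) - v) ^ 2 +
              (10554393409571 / 887445031250) * (v - (93 / 400)) ^ 3 * ((83 / 200) - v) ^ 1 +
              (5574499799531 / 1774890062500) * (v - (93 / 400)) ^ 4 := by positivity
            linarith
          · have hx : 0 ≤ v - (83 / 200) := by linarith
            have hy : 0 ≤ (39 / 50) - v := by linarith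
            have h : 0 ≤ (5574499799531 / 28398241000000) * ((39 / 50) - v) ^ 4 +
              (3084552994511 / 3549780125000) * (v - (83 / 200)) ^ 1 * ((39 / 50) - v) ^ 3 +
              (436552545781 / 443722515625) * (v - (83 / 200)) ^ 2 * ((39 / 50) - v) ^ 2 +
              (25546864748 / 443722515625) * (v - (83 / 200)) ^ 3 * ((39 / 50) - v) ^ 1 +
              (9099980844 / 443722515625) * (v - (83 / 200)) ^ 4 := by positivity
            linarith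

/-- a quartic -/
theorem polB (v : ℝ) (h0 : 1 / 10 ≤ v) (h1 : v ≤ 18 / 25) :
    0 ≤ (49 / 8000) + (-(262493 / 4000000)) * v + (122393 / 400000) * v ^ 2 +
      (-(1069923 / 2000000)) * v ^ 3 + (616637 / 2000000) * v ^ 4 := by
  rcases le_total v (41 / 100) with hm | hm
  · have hx : 0 ≤ v - (1 / 10) := by linarith
    have hy : 0 ≤ (41 / 100) - v := by linarith
    have h : 0 ≤ (42367407 / 184704200) * ((41 / 100) - v) ^ 4 +
      (250836189 / 923521000) * (v - (1 / 10)) ^ 1 * ((41 / 100) - v) ^ 3 +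
      (5287303123 / 4617605000) * (v - (1 / 10)) ^ 2 * ((41 / 100) - v) ^ 2 +
      (98346167489 / 92352100000) * (v - (1 / 10)) ^ 3 * ((41 / 100) - v) ^ 1 +
      (499477627457 / 1847042000000) * (v - (1 / 10)) ^ 4 := by positivity
    linarith
  · have hx : 0 ≤ v - (41 / 100) := by linarith
    have hy : 0 ≤ (18 / 25) - v := by linarith
    have h : 0 ≤ (499477627457 / 1847042000000) * ((18 / 25) - v) ^ 4 +
      (507224417469 / 461760500000) * (v - (41 / 100)) ^ 1 * ((18 / 25) - v) ^ 3 +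
      (143802763093 / 115440125000) * (v - (41 / 100)) ^ 2 * ((18 / 25) - v) ^ 2 +
      (10569265627 / 57720062500) * (v - (41 / 100)) ^ 3 * ((18 / 25) - v) ^ 1 +
      (1064605874 / 14430015625) * (v - (41 / 100)) ^ 4 := by positivity
    linarith

/-- a cubic -/
theorem polC (v : ℝ) (h0 : 0 ≤ v) (h1 : v ≤ 1) :
    0 ≤ (9 / 500) + (-(9 / 25)) * v + (11 / 5) * v ^ 2 + (-1) * v ^ 3 := by
  rcases le_total v (1 / 16) with hm | hm
  · have hx : 0 ≤ v - 0 := by linarith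
    have hy : 0 ≤ (1 / 16) - v := by linarith
    have h : 0 ≤ (9216 / 125) * ((1 / 16) - v) ^ 3 +
      (16128 / 125) * (v - 0) ^ 1 * ((1 / 16) - v) ^ 2 +
      (9008 / 125) * (v - 0) ^ 2 * ((1 / 16) - v) ^ 1 +
      (1971 / 125) * (v - 0) ^ 3 := by positivity
    linarith
  · rcases le_total v (1 / 8) with hm | hm
    · have hx : 0 ≤ v - (1 / 16) := by linarith
      have hy : 0 ≤ (1 / 8) - v := by linarith
      have h : 0 ≤ (1971 / 125) * ((1 / 8) - v) ^ 3 +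
        (2818 / 125) * (v - (1 / 16)) ^ 1 * ((1 / 8) - v) ^ 2 +
        (3748 / 125) * (v - (1 / 16)) ^ 2 * ((1 / 8) - v) ^ 1 +
        (2776 / 125) * (v - (1 / 16)) ^ 3 := by positivity
      linarith
    · rcases le_total v (1 / 4) with hm | hm
      · have hx : 0 ≤ v - (1 / 8) := by linarith
        have hy : 0 ≤ (1 / 4) - v := by linarith
        have h : 0 ≤ (347 / 125) * ((1 / 4) - v) ^ 3 +
          (2186 / 125) * (v - (1 / 8)) ^ 1 * ((1 / 4) - v) ^ 2 +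
          (5156 / 125) * (v - (1 / 8)) ^ 2 * ((1 / 4) - v) ^ 1 +
          (3192 / 125) * (v - (1 / 8)) ^ 3 := by positivity
        linarith
      · rcases le_total v (1 / 2) with hm | hm
        · have hx : 0 ≤ v - (1 / 4) := by linarith
          have hy : 0 ≤ (1 / 2) - v := by linarith
          have h : 0 ≤ (399 / 125) * ((1 / 2) - v) ^ 3 +
            (2302 / 125) * (v - (1 / 4)) ^ 1 * ((1 / 2) - v) ^ 2 +
            (4132 / 125) * (v - (1 / 4)) ^ 2 * ((1 / 2) - v) ^ 1 +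
            (2104 / 125) * (v - (1 / 4)) ^ 3 := by positivity
          linarith
        · have hx : 0 ≤ v - (1 / 2) := by linarith
          have hy : 0 ≤ 1 - v := by linarith
          have h : 0 ≤ (263 / 125) * (1 - v) ^ 3 +
            (1334 / 125) * (v - (1 / 2)) ^ 1 * (1 - v) ^ 2 +
            (2054 / 125) * (v - (1 / 2)) ^ 2 * (1 - v) ^ 1 +
            (858 / 125) * (v - (1 / 2)) ^ 3 := by positivity
          linarith

/-- a cubic -/
theorem polD (v : ℝ) (h0 : 0 ≤ v) (h1 : v ≤ 1) :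
    0 ≤ (9 / 250) + (-(9 / 25)) * v + (11 / 5) * v ^ 2 + (-1) * v ^ 3 := by
  rcases le_total v (1 / 4) with hm | hm
  · have hx : 0 ≤ v - 0 := by linarith
    have hy : 0 ≤ (1 / 4) - v := by linarith
    have h : 0 ≤ (288 / 125) * ((1 / 4) - v) ^ 3 +
      (144 / 125) * (v - 0) ^ 1 * ((1 / 4) - v) ^ 2 +
      (524 / 125) * (v - 0) ^ 2 * ((1 / 4) - v) ^ 1 +
      (543 / 125) * (v - 0) ^ 3 := by positivity
    linarith
  · rcases le_total v (1 / 2) with hm | hm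
    · have hx : 0 ≤ v - (1 / 4) := by linarith
      have hy : 0 ≤ (1 / 2) - v := by linarith
      have h : 0 ≤ (543 / 125) * ((1 / 2) - v) ^ 3 +
        (2734 / 125) * (v - (1 / 4)) ^ 1 * ((1 / 2) - v) ^ 2 +
        (4564 / 125) * (v - (1 / 4)) ^ 2 * ((1 / 2) - v) ^ 1 +
        (2248 / 125) * (v - (1 / 4)) ^ 3 := by positivity
      linarith
    · have hx : 0 ≤ v - (1 / 2) := by linarith
      have hy : 0 ≤ 1 - v := by linarith
      have h : 0 ≤ (281 / 125) * (1 - v) ^ 3 +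
        (1388 / 125) * (v - (1 / 2)) ^ 1 * (1 - v) ^ 2 +
        (2108 / 125) * (v - (1 / 2)) ^ 2 * (1 - v) ^ 1 +
        (876 / 125) * (v - (1 / 2)) ^ 3 := by positivity
      linarith


/-- **rule (Z)**, `ε = 1/20`, `e = 9/4`, `κ² ≤ .0961` -/
theorem zpc_real_20 (u c ρ k2 : ℝ) (hρ : 0 ≤ ρ) (hu : |u| ≤ 1) (hk2 : 0 ≤ k2)
    (hK : k2 ≤ 961 / 10000)
    (hk : c < 0 → c ^ 2 ≤ k2 * (1 - u ^ 2)) (hc8 : c ≤ 3 / 5) (h1 : 0 ≤ 1 + u + c) :
    -u * c ^ 2 + ρ * u - u ^ 2 * (1 + u + 2 * c) ≤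
      1 / 20 * (c + ρ) ^ 2 + 9 / 4 * k2 * u ^ 2 + ρ ^ 2 / 4 := by
  obtain ⟨hu1, hu2⟩ := abs_le.1 hu
  rcases le_total 0 u with h | h
  · exact zpc_pos (1 / 20) _ u c ρ k2 (by norm_num) (by norm_num) hk2 h
  · obtain ⟨v, rfl⟩ : ∃ v, u = -v := ⟨-u, by ring⟩
    have hv0 : 0 ≤ v := by linarith
    have hv1 : v ≤ 1 := by linarith
    rcases le_or_gt 0 c with h2 | h2
    · -- `c ≥ 0`
      have h3 : 0 ≤ ρ * v := by positivity
      have h4 : 0 ≤ 1 / 20 * (2 * c * ρ + ρ ^ 2) := by positivity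
      have h5 : 0 ≤ 9 / 4 * k2 * v ^ 2 := by positivity
      have h6 : (v - 1 / 20) * c ^ 2 ≤ v ^ 2 * (1 - v + 2 * c) := by
        rcases le_total v (1 / 20) with h7 | h7
        · have : (v - 1 / 20) * c ^ 2 ≤ 0 :=
            mul_nonpos_of_nonpos_of_nonneg (by linarith) (sq_nonneg c)
          have h8 : 0 ≤ v ^ 2 * (1 - v + 2 * c) := mul_nonneg (sq_nonneg v) (by linarith)
          linarith
        · have h8 : 0 ≤ (v - 1 / 20) * (c * (3 / 5 - c)) :=
            mul_nonneg (by linarith) (mul_nonneg h2 (by linarith))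
          have h9 : 0 ≤ (3 / 5 - c) * (v ^ 2 * (1 - v)) :=
            mul_nonneg (by linarith) (mul_nonneg (sq_nonneg v) (by linarith))
          have h10 := mul_nonneg h2 (polC v hv0 hv1)
          nlinarith
      nlinarith [sq_nonneg ρ]
    · -- `c < 0`
      obtain ⟨a, rfl⟩ : ∃ a, c = -a := ⟨-c, by ring⟩
      have ha : 0 < a := by linarith
      have hv1' : v < 1 := by linarith
      have hka : a ^ 2 ≤ k2 * (1 - v ^ 2) := by
        have := hk h2
        rw [neg_sq, neg_sq] at this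
        exact this
      have haK : a ≤ 31 / 100 := by
        have h7 : a ^ 2 ≤ (31 / 100) ^ 2 := by nlinarith [mul_nonneg hk2 (sq_nonneg v)]
        exact abs_le_of_sq_le_sq' h7 (by norm_num) |>.2
      have hq : 0 ≤ v ^ 2 * (1 - v) - (v - 1 / 20) * a ^ 2 - 2 * v ^ 2 * a +
          9 / 4 * k2 * v ^ 2 := by
        rcases le_total v (1 / 20) with h7 | h7
        · have h8 : 0 ≤ (1 / 20 - v) * a ^ 2 := mul_nonneg (by linarith) (sq_nonneg a)
          have h9 : 0 ≤ v ^ 2 * (1 - v - 2 * a) := mul_nonneg (sq_nonneg v) (by linarith)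
          have h10 : 0 ≤ 9 / 4 * k2 * v ^ 2 := by positivity
          linarith
        · rcases le_total v (39 / 50) with h8 | h8
          · refine zpc_core (1 / 20) (9 / 4) (961 / 10000) v a k2 (42 / 100 - 29 / 100 * v)
              (by linarith) (by linarith) h7 hk2 hK (by norm_num) hka ?_
            have := polA v h7 h8
            nlinarith
          · exact zpc_disc (1 / 20) (9 / 4) v a k2 (by norm_num) hv0 hv1' hka (by nlinarith)
      have h3 := zpc_rho (1 / 20) (9 / 4) v a ρ k2 (by norm_num) hρ hv0 ha.le (by norm_num) hk2 hq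
        (by intro h7; linarith)
      have e3 : (ρ - a) ^ 2 = (-a + ρ) ^ 2 := by ring
      rw [e3] at h3
      have e4 : (-v) ^ 2 = v ^ 2 := neg_sq v
      have e5 : (-a) ^ 2 = a ^ 2 := neg_sq a
      rw [e4, e5]
      linarith

/-- **rule (Z)**, `ε = 1/10`, `e = 23/10`, `κ² ≤ .1225` -/
theorem zpc_real_10 (u c ρ k2 : ℝ) (hρ : 0 ≤ ρ) (hu : |u| ≤ 1) (hk2 : 0 ≤ k2)
    (hK : k2 ≤ 1225 / 10000)
    (hk : c < 0 → c ^ 2 ≤ k2 * (1 - u ^ 2)) (hc8 : c ≤ 3 / 5) (h1 : 0 ≤ 1 + u + c) :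
    -u * c ^ 2 + ρ * u - u ^ 2 * (1 + u + 2 * c) ≤
      1 / 10 * (c + ρ) ^ 2 + 23 / 10 * k2 * u ^ 2 + ρ ^ 2 / 4 := by
  obtain ⟨hu1, hu2⟩ := abs_le.1 hu
  rcases le_total 0 u with h | h
  · exact zpc_pos (1 / 10) _ u c ρ k2 (by norm_num) (by norm_num) hk2 h
  · obtain ⟨v, rfl⟩ : ∃ v, u = -v := ⟨-u, by ring⟩
    have hv0 : 0 ≤ v := by linarith
    have hv1 : v ≤ 1 := by linarith
    rcases le_or_gt 0 c with h2 | h2
    · -- `c ≥ 0`
      have h3 : 0 ≤ ρ * v := by positivity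
      have h4 : 0 ≤ 1 / 10 * (2 * c * ρ + ρ ^ 2) := by positivity
      have h5 : 0 ≤ 23 / 10 * k2 * v ^ 2 := by positivity
      have h6 : (v - 1 / 10) * c ^ 2 ≤ v ^ 2 * (1 - v + 2 * c) := by
        rcases le_total v (1 / 10) with h7 | h7
        · have : (v - 1 / 10) * c ^ 2 ≤ 0 :=
            mul_nonpos_of_nonpos_of_nonneg (by linarith) (sq_nonneg c)
          have h8 : 0 ≤ v ^ 2 * (1 - v + 2 * c) := mul_nonneg (sq_nonneg v) (by linarith)
          linarith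
        · have h8 : 0 ≤ (v - 1 / 10) * (c * (3 / 5 - c)) :=
            mul_nonneg (by linarith) (mul_nonneg h2 (by linarith))
          have h9 : 0 ≤ (3 / 5 - c) * (v ^ 2 * (1 - v)) :=
            mul_nonneg (by linarith) (mul_nonneg (sq_nonneg v) (by linarith))
          have h10 := mul_nonneg h2 (polD v hv0 hv1)
          nlinarith
      nlinarith [sq_nonneg ρ]
    · -- `c < 0`
      obtain ⟨a, rfl⟩ : ∃ a, c = -a := ⟨-c, by ring⟩
      have ha : 0 < a := by linarith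
      have hv1' : v < 1 := by linarith
      have hka : a ^ 2 ≤ k2 * (1 - v ^ 2) := by
        have := hk h2
        rw [neg_sq, neg_sq] at this
        exact this
      have haK : a ≤ 35 / 100 := by
        have h7 : a ^ 2 ≤ (35 / 100) ^ 2 := by nlinarith [mul_nonneg hk2 (sq_nonneg v)]
        exact abs_le_of_sq_le_sq' h7 (by norm_num) |>.2
      have hq : 0 ≤ v ^ 2 * (1 - v) - (v - 1 / 10) * a ^ 2 - 2 * v ^ 2 * a +
          23 / 10 * k2 * v ^ 2 := by
        rcases le_total v (1 / 10) with h7 | h7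
        · have h8 : 0 ≤ (1 / 10 - v) * a ^ 2 := mul_nonneg (by linarith) (sq_nonneg a)
          have h9 : 0 ≤ v ^ 2 * (1 - v - 2 * a) := mul_nonneg (sq_nonneg v) (by linarith)
          have h10 : 0 ≤ 23 / 10 * k2 * v ^ 2 := by positivity
          linarith
        · rcases le_total v (18 / 25) with h8 | h8
          · refine zpc_core (1 / 10) (23 / 10) (1225 / 10000) v a k2 (1 / 2 - 357 / 1000 * v)
              (by linarith) (by linarith) h7 hk2 hK (by norm_num) hka ?_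
            have := polB v h7 h8
            nlinarith
          · exact zpc_disc (1 / 10) (23 / 10) v a k2 (by norm_num) hv0 hv1' hka (by nlinarith)
      have h3 := zpc_rho (1 / 10) (23 / 10) v a ρ k2 (by norm_num) hρ hv0 ha.le (by norm_num) hk2 hq
        (by intro h7; linarith)
      have e3 : (ρ - a) ^ 2 = (-a + ρ) ^ 2 := by ring
      rw [e3] at h3
      have e4 : (-v) ^ 2 = v ^ 2 := neg_sq v
      have e5 : (-a) ^ 2 = a ^ 2 := neg_sq a
      rw [e4, e5]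
      linarith

end Pool.Agent.TSO
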